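import Pool.Agent.Helper864.GKSIndep

set_option autoImplicit false

/-!
Existence of cover codes: a family of sets `A`, pairwise at distance at least `d`, each with a
small superset `Dm A`, such that each `r`-set `R` of `D` satisfies `A ⊆ R ⊆ Dm A` for some `A`.
-/

namespace Pool.Agent.Helper864.GKS

open Finset

section cover

variable {α : Type*} [DecidableEq α]

theorem exists_buckets (D : Finset α) (q M : ℕ) (hq : 0 < q) (hD : D.card = q * M) :
    ∃ f : α → Fin q, ∀ β : Fin q, (D.filter (fun x => f x = β)).card = M := by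
  classical
  let e : D ≃ Fin (q * M) := D.equivFinOfCardEq hD
  let g : Fin q × Fin M ≃ Fin (q * M) := finProdFinEquiv
  refine ⟨fun x => if h : x ∈ D then (g.symm (e ⟨x, h⟩)).1 else ⟨0, hq⟩, fun β => ?_⟩
  have hM : (univ : Finset (Fin M)).card = M := by simp
  refine Eq.trans (Eq.symm ?_) hM
  refine Finset.card_bij (fun j _ => (e.symm (g (β, j))).1) ?_ ?_ ?_
  · intro j _
    rw [mem_filter]
    refine ⟨(e.symm (g (β, j))).2, ?_⟩
    simp
  · intro j _ j' _ h
    have h1 : e.symm (g (β, j)) = e.symm (g (β, j')) := Subtype.ext h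
    have h2 := g.injective (e.symm.injective h1)
    exact (Prod.mk.inj h2).2
  · intro x hx
    rw [mem_filter] at hx
    obtain ⟨hxD, hx2⟩ := hx
    simp only [hxD, dif_pos] at hx2
    refine ⟨(g.symm (e ⟨x, hxD⟩)).2, mem_univ _, ?_⟩
    have : (β, (g.symm (e ⟨x, hxD⟩)).2) = g.symm (e ⟨x, hxD⟩) := by
      rw [← hx2]
    rw [this]
    simp

theorem card_symmDiff_triangle (A B C : Finset α) :
    (symmDiff A C).card ≤ (symmDiff A B).card + (symmDiff B C).card := by
  calc (symmDiff A C).card ≤ (symmDiff A B ∪ symmDiff B C).card := by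
        apply card_le_card
        intro x hx
        rw [mem_union, Finset.mem_symmDiff, Finset.mem_symmDiff]
        rw [Finset.mem_symmDiff] at hx
        tauto
    _ ≤ _ := card_union_le _ _

theorem sdiff_symmDiff_sdiff (R K K' : Finset α) (hK : K ⊆ R) (hK' : K' ⊆ R) :
    symmDiff (R \ K) (R \ K') = symmDiff K K' := by
  ext x
  rw [Finset.mem_symmDiff, Finset.mem_symmDiff, mem_sdiff, mem_sdiff]
  have h1 := @hK x
  have h2 := @hK' x
  tauto

/-- the ball of radius less than `d` about `A` among the subsets of `D`. -/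
def bal (D : Finset α) (d : ℕ) (A : Finset α) : Finset (Finset α) :=
  D.powerset.filter (fun A' => (symmDiff A A').card < d)

theorem cover [Fintype α] (D : Finset α) (q M w d : ℕ)
    (hq : 2 ≤ q) (hM : 1 ≤ M) (hD : D.card = q * M) (hr : q * w ≤ M) (hd : 1 ≤ d)
    (hw : 4 * D.card * q * (D.card + 1) ^ (3 * d) ≤ 2 ^ w) :
    ∃ (F : Finset (Finset α)) (Dm : Finset α → Finset α),
      (∀ A ∈ F, A ⊆ Dm A ∧ Dm A ⊆ D ∧ (Dm A).card = 2 * M ∧ A.card ≤ q * w) ∧
      (∀ A ∈ F, ∀ A' ∈ F, A ≠ A' → d ≤ (symmDiff A A').card) ∧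
      (∀ R ⊆ D, R.card = q * w → ∃ A ∈ F, A ⊆ R ∧ R ⊆ Dm A) := by
  classical
  obtain ⟨f, hf⟩ := exists_buckets D q M (by omega) hD
  set n := D.card with hn
  have hn2 : 2 ≤ n := by rw [hD]; nlinarith
  set V := (n + 1) ^ d with hV
  have hVpos : 1 ≤ V := Nat.one_le_pow _ _ (by omega)
  set Q := 2 * (q * V) with hQ
  have hqQ : q ≤ Q := by rw [hQ]; nlinarith
  have hQpos : 0 < Q := by omega
  -- per-set data
  have hdata : ∀ R ∈ D.powerset.filter (fun R => R.card = q * w),
      ∃ (β : Fin q) (K : Finset (Finset α)),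
        (∀ k ∈ K, k ⊆ R ∧ ∀ x ∈ k, f x = β) ∧
        (∀ k ∈ K, ∀ k' ∈ K, k ≠ k' → 2 * d ≤ (symmDiff k k').card) ∧
        2 * n * Q ≤ K.card := by
    intro R hR
    rw [mem_filter, mem_powerset] at hR
    obtain ⟨hRD, hRc⟩ := hR
    obtain ⟨β, -, hβ⟩ := Finset.exists_le_card_fiber_of_mul_le_card_of_maps_to
      (s := R) (t := (univ : Finset (Fin q))) (f := f) (n := w) (fun a _ => mem_univ _)
      ⟨⟨0, by omega⟩, mem_univ _⟩ (by rw [card_univ, Fintype.card_fin, hRc])
    obtain ⟨W, hWs, hWc⟩ := Finset.exists_subset_card_eq hβ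
    obtain ⟨K, hKU, hKsep, hKc⟩ := packing W.powerset
      (fun k k' => (symmDiff k k').card < 2 * d)
      (by intro x _; simp; omega)
      (by intro x y h; rwa [symmDiff_comm]) ((W.card + 1) ^ (2 * d))
      (by
        intro x hx
        exact ball_vol W x (mem_powerset.mp hx) (2 * d))
    refine ⟨β, K, ?_, ?_, ?_⟩
    · intro k hk
      have hkW := mem_powerset.mp (hKU hk)
      refine ⟨fun x hx => (mem_filter.mp (hWs (hkW hx))).1, fun x hx => ?_⟩
      exact (mem_filter.mp (hWs (hkW hx))).2
    · intro k hk k' hk' hne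
      have := hKsep k hk k' hk' hne
      omega
    · rw [card_powerset, hWc] at hKc
      have hwn : w + 1 ≤ n + 1 := by
        have : q * w ≤ n := by rw [← hRc]; exact card_le_card hRD
        nlinarith
      have h1 : (w + 1) ^ (2 * d) ≤ (n + 1) ^ (2 * d) := Nat.pow_le_pow_left hwn _
      have h2 : 4 * n * q * (n + 1) ^ (3 * d) ≤ K.card * (n + 1) ^ (2 * d) :=
        le_trans hw (le_trans hKc (Nat.mul_le_mul_left _ h1))
      have h3 : 4 * n * q * (n + 1) ^ (3 * d) = (2 * n * Q) * (n + 1) ^ (2 * d) := by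
        rw [hQ, hV]
        have : (n + 1) ^ (3 * d) = (n + 1) ^ d * (n + 1) ^ (2 * d) := by
          rw [← pow_add]; congr 1; ring
        rw [this]; ring
      rw [h3] at h2
      exact Nat.le_of_mul_le_mul_right h2 (by positivity)
  have hnf : Nonempty (Fin q) := ⟨⟨0, by omega⟩⟩
  choose! β K hK1 hK2 hK3 using hdata
  -- events
  let lab : Fin q → Fin Q := fun b => ⟨b.val, lt_of_lt_of_le b.isLt hqQ⟩
  obtain ⟨E, hE⟩ : ∃ E : Finset α → Finset α → (Finset α → Fin Q) → Prop, ∀ R k ω, E R k ω ↔
    (ω (R \ k) = lab (β R) ∧ ∀ A' ∈ (bal D d (R \ k)).erase (R \ k), q ≤ (ω A').val) :=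
    ⟨fun R k ω => ω (R \ k) = lab (β R) ∧
      ∀ A' ∈ (bal D d (R \ k)).erase (R \ k), q ≤ (ω A').val, fun _ _ _ => Iff.rfl⟩
  have hself : ∀ A ⊆ D, A ∈ bal D d A := by
    intro A hA
    simp only [bal, mem_filter, mem_powerset]
    refine ⟨hA, ?_⟩
    simp; omega
  have hbad : ∀ R ∈ D.powerset.filter (fun R => R.card = q * w),
      ((univ.filter (fun ω : Finset α → Fin Q => ∀ k ∈ K R, ¬ E R k ω)).card : ℝ) ≤
        Real.exp (-(n : ℝ)) * (Fintype.card (Finset α → Fin Q) : ℝ) := by
    intro R hR
    have hRD : R ⊆ D := by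
      rw [mem_filter, mem_powerset] at hR; exact hR.1
    have hQr : (0 : ℝ) < Q := by exact_mod_cast hQpos
    have h := avoid' (X := Finset α) (Y := Fin Q) (fun k => bal D d (R \ k)) (fun k => E R k)
      (1 / (2 * (Q : ℝ))) (by
        rw [div_le_one (by positivity)]
        have : (1 : ℝ) ≤ Q := by exact_mod_cast hQpos
        linarith) (K R)
      (by
        intro k hk k' hk' hne
        rw [Finset.disjoint_left]
        intro A' h1 h2
        simp only [bal, mem_filter] at h1 h2
        have h3 := hK2 R hR k hk k' hk' hne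
        rw [← sdiff_symmDiff_sdiff R k k' (hK1 R hR k hk).1 (hK1 R hR k' hk').1] at h3
        have h4 := card_symmDiff_triangle (R \ k) A' (R \ k')
        rw [symmDiff_comm A' (R \ k')] at h4
        omega)
      (by
        intro k hk ω ω' hag h
        have hs := hself (R \ k) (sdiff_subset.trans hRD)
        rw [hE] at h ⊢
        refine ⟨?_, ?_⟩
        · rw [← hag _ hs]; exact h.1
        · intro A' hA'
          rw [← hag A' (mem_of_mem_erase hA')]
          exact h.2 A' hA')
      (by
        intro k hk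
        have hs := hself (R \ k) (sdiff_subset.trans hRD)
        have hpl := prob_lower (X := Finset α) Q q hQpos (R \ k) ((bal D d (R \ k)).erase (R \ k))
          (by simp) (lab (β R)) ?_
        · refine ⟨_, ?_, hpl⟩
          intro ω hω
          rw [mem_filter] at hω
          exact (hE R k ω).mpr hω.2
        have h1 : ((bal D d (R \ k)).erase (R \ k)).card ≤ V :=
          le_trans (card_le_card (erase_subset _ _))
            (ball_vol D (R \ k) (sdiff_subset.trans hRD) d)
        have h2 : q * ((bal D d (R \ k)).erase (R \ k)).card ≤ q * V := Nat.mul_le_mul_left q h1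
        linarith)
      (fun ω => ∀ k ∈ K R, ¬ E R k ω) (fun ω h => h)
    refine le_trans h ?_
    apply mul_le_mul_of_nonneg_right _ (Nat.cast_nonneg _)
    have hp : (0 : ℝ) ≤ 1 - 1 / (2 * (Q : ℝ)) := by
      rw [sub_nonneg, div_le_one (by positivity)]
      have : (1 : ℝ) ≤ Q := by exact_mod_cast hQpos
      linarith
    calc (1 - 1 / (2 * (Q : ℝ))) ^ (K R).card
        ≤ (Real.exp (-(1 / (2 * (Q : ℝ))))) ^ (K R).card := by
          apply pow_le_pow_left₀ hp
          have := Real.add_one_le_exp (-(1 / (2 * (Q : ℝ))))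
          linarith
      _ = Real.exp (-((K R).card / (2 * (Q : ℝ)))) := by
          rw [← Real.exp_nat_mul]; congr 1; ring
      _ ≤ Real.exp (-(n : ℝ)) := by
          apply Real.exp_le_exp.mpr
          apply neg_le_neg
          rw [le_div_iff₀ (by positivity)]
          have : (2 * n * Q : ℝ) ≤ (K R).card := by exact_mod_cast hK3 R hR
          linarith
  -- a good labelling
  have hgood : ∃ ω : Finset α → Fin Q, ∀ R ∈ D.powerset.filter (fun R => R.card = q * w),
      ∃ k ∈ K R, E R k ω := by
    by_contra hcon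
    push Not at hcon
    have hcov : (univ : Finset (Finset α → Fin Q)) ⊆
        (D.powerset.filter (fun R => R.card = q * w)).biUnion
          (fun R => univ.filter (fun ω : Finset α → Fin Q => ∀ k ∈ K R, ¬ E R k ω)) := by
      intro ω _
      obtain ⟨R, hR, h⟩ := hcon ω
      rw [mem_biUnion]
      exact ⟨R, hR, by simpa using h⟩
    have h1 := card_le_card hcov
    have h2 := le_trans h1 (Finset.card_biUnion_le)
    have h3 : ((univ : Finset (Finset α → Fin Q)).card : ℝ) ≤
        ∑ R ∈ D.powerset.filter (fun R => R.card = q * w),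
          ((univ.filter (fun ω : Finset α → Fin Q => ∀ k ∈ K R, ¬ E R k ω)).card : ℝ) := by
      exact_mod_cast h2
    have h4 := le_trans h3 (Finset.sum_le_sum hbad)
    rw [Finset.sum_const, nsmul_eq_mul, card_univ] at h4
    have hnum : ((D.powerset.filter (fun R => R.card = q * w)).card : ℝ) ≤ 2 ^ n := by
      have : (D.powerset.filter (fun R => R.card = q * w)).card ≤ 2 ^ n := by
        rw [hn, ← card_powerset]
        exact card_le_card (filter_subset _ _)
      exact_mod_cast this
    have hΩ : (0 : ℝ) < (Fintype.card (Finset α → Fin Q) : ℝ) := by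
      have : Nonempty (Finset α → Fin Q) := ⟨fun _ => ⟨0, hQpos⟩⟩
      exact_mod_cast Fintype.card_pos
    have hsmall : (2 : ℝ) ^ n * Real.exp (-(n : ℝ)) < 1 := by
      have he : Real.exp (-(n : ℝ)) = (Real.exp (-1)) ^ n := by
        rw [← Real.exp_nat_mul]; congr 1; ring
      rw [he, ← mul_pow]
      apply pow_lt_one₀
      · positivity
      · rw [Real.exp_neg]
        have h2 : (2 : ℝ) < Real.exp 1 := by
          have := Real.exp_one_gt_d9; linarith
        rw [← div_eq_mul_inv, div_lt_one (Real.exp_pos 1)]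
        exact h2
      · omega
    have h5 : (Fintype.card (Finset α → Fin Q) : ℝ) ≤
        (2 : ℝ) ^ n * Real.exp (-(n : ℝ)) * (Fintype.card (Finset α → Fin Q) : ℝ) := by
      refine le_trans h4 ?_
      rw [← mul_assoc]
      apply mul_le_mul_of_nonneg_right _ hΩ.le
      exact mul_le_mul_of_nonneg_right hnum (Real.exp_pos _).le
    nlinarith
  obtain ⟨ω, hω⟩ := hgood
  -- the family
  let F : Finset (Finset α) := D.powerset.filter (fun A => A.card ≤ q * w ∧ (ω A).val < q ∧
    ∀ A' ∈ (bal D d A).erase A, q ≤ (ω A').val)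
  let bk : Finset α → Finset α := fun A => D.filter (fun x => (f x).val = (ω A).val)
  have hsup : ∀ A ∈ F, ∃ S, A ∪ bk A ⊆ S ∧ S ⊆ D ∧ S.card = 2 * M := by
    intro A hA
    simp only [F, mem_filter, mem_powerset] at hA
    obtain ⟨hAD, hAc, hAl, hAi⟩ := hA
    apply Finset.exists_subsuperset_card_eq
    · exact union_subset hAD (filter_subset _ _)
    · have hb : (bk A).card = M := by
        have := hf ⟨(ω A).val, hAl⟩
        rw [← this]
        congr 1
        ext x
        simp only [bk, mem_filter, Fin.ext_iff]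
      calc (A ∪ bk A).card ≤ A.card + (bk A).card := card_union_le _ _
        _ ≤ 2 * M := by omega
    · rw [← hn, hD]; exact Nat.mul_le_mul_right _ hq
  choose! S hS1 hS2 hS3 using hsup
  refine ⟨F, S, ?_, ?_, ?_⟩
  · intro A hA
    refine ⟨subset_union_left.trans (hS1 A hA), hS2 A hA, hS3 A hA, ?_⟩
    simp only [F, mem_filter, mem_powerset] at hA
    exact hA.2.1
  · intro A hA A' hA' hne
    by_contra hcon
    push Not at hcon
    simp only [F, mem_filter, mem_powerset] at hA hA'
    have h1 := hA.2.2.2 A' (by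
      rw [mem_erase]
      refine ⟨fun h => hne h.symm, ?_⟩
      simp only [bal, mem_filter, mem_powerset]
      exact ⟨hA'.1, hcon⟩)
    have h2 := hA'.2.2.1
    omega
  · intro R hRD hRc
    have hR : R ∈ D.powerset.filter (fun R => R.card = q * w) := by
      rw [mem_filter, mem_powerset]; exact ⟨hRD, hRc⟩
    obtain ⟨k, hk, hEk⟩ := hω R hR
    obtain ⟨hE1, hE2⟩ := (hE R k ω).mp hEk
    have hkR := (hK1 R hR k hk).1
    have hAF : R \ k ∈ F := by
      simp only [F, mem_filter, mem_powerset]
      refine ⟨sdiff_subset.trans hRD, ?_, ?_, hE2⟩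
      · rw [← hRc]; exact card_le_card sdiff_subset
      · rw [hE1]; exact (β R).isLt
    refine ⟨R \ k, hAF, sdiff_subset, ?_⟩
    refine subset_trans ?_ (hS1 _ hAF)
    intro x hx
    rw [mem_union]
    by_cases hxk : x ∈ k
    · right
      simp only [bk, mem_filter]
      refine ⟨hRD hx, ?_⟩
      rw [hE1, (hK1 R hR k hk).2 x hxk]
    · left
      rw [mem_sdiff]; exact ⟨hx, hxk⟩

end cover

end Pool.Agent.Helper864.GKS
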