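import Mathlib

set_option autoImplicit false

/-!
Counting tools: independence of events depending on disjoint sets of coordinates (by swapping),
avoidance of many independent events, a greedy packing bound and a volume bound.
-/

namespace Pool.Agent.Helper864.GKS

open Finset

section indep

variable {X Y : Type*} [Fintype X] [DecidableEq X] [Fintype Y]

/-- Replace the coordinates in `B` of `w` by those of `w'`. -/
def mix (B : Finset X) (w w' : X → Y) : X → Y := fun x => if x ∈ B then w' x else w x

/-- The event `P` only depends on the coordinates in `B`. -/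
def Dep (B : Finset X) (P : (X → Y) → Prop) : Prop :=
  ∀ w w' : X → Y, (∀ x ∈ B, w x = w' x) → P w → P w'

theorem indep (B C : Finset X) (hBC : Disjoint B C) (P E : (X → Y) → Prop)
    [DecidablePred P] [DecidablePred E]
    (hP : Dep C P) (hE : Dep B E) :
    (univ.filter (fun w : X → Y => P w ∧ E w)).card * Fintype.card (X → Y) =
      (univ.filter (fun w : X → Y => P w)).card * (univ.filter (fun w : X → Y => E w)).card := by
  classical
  rw [← Finset.card_univ, ← Finset.card_product, ← Finset.card_product]
  refine Finset.card_nbij' (fun z => (mix B z.1 z.2, mix B z.2 z.1))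
    (fun z => (mix B z.1 z.2, mix B z.2 z.1)) ?_ ?_ ?_ ?_
  · rintro ⟨w, w'⟩ h
    simp only [coe_product, Set.mem_prod, mem_coe, mem_filter, mem_univ, true_and, and_true] at h ⊢
    refine ⟨hP w _ ?_ h.1, hE w _ ?_ h.2⟩
    · intro x hx
      have : x ∉ B := fun hb => (Finset.disjoint_left.mp hBC hb) hx
      simp [mix, this]
    · intro x hx
      simp [mix, hx]
  · rintro ⟨w, w'⟩ h
    simp only [coe_product, Set.mem_prod, mem_coe, mem_filter, mem_univ, true_and, and_true] at h ⊢
    refine ⟨hP w _ ?_ h.1, hE w' _ ?_ h.2⟩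
    · intro x hx
      have : x ∉ B := fun hb => (Finset.disjoint_left.mp hBC hb) hx
      simp [mix, this]
    · intro x hx
      simp [mix, hx]
  · rintro ⟨w, w'⟩ _
    refine Prod.ext ?_ ?_ <;> funext x <;> by_cases hx : x ∈ B <;> simp [mix, hx]
  · rintro ⟨w, w'⟩ _
    refine Prod.ext ?_ ?_ <;> funext x <;> by_cases hx : x ∈ B <;> simp [mix, hx]

theorem avoid {κ : Type*} [DecidableEq κ] (B : κ → Finset X) (E : κ → (X → Y) → Prop)
    [∀ k, DecidablePred (E k)] (p : ℝ) (hp1 : p ≤ 1) (K : Finset κ)
    (hdisj : ∀ k ∈ K, ∀ k' ∈ K, k ≠ k' → Disjoint (B k) (B k'))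
    (hdep : ∀ k ∈ K, Dep (B k) (E k))
    (hprob : ∀ k ∈ K, p * (Fintype.card (X → Y) : ℝ) ≤
      ((univ.filter (fun w : X → Y => E k w)).card : ℝ)) :
    ((univ.filter (fun w : X → Y => ∀ k ∈ K, ¬ E k w)).card : ℝ) ≤
      (1 - p) ^ K.card * (Fintype.card (X → Y) : ℝ) := by
  classical
  induction K using Finset.induction_on with
  | empty => simp
  | insert k K hk ih =>
    have ih' := ih (fun a ha b hb => hdisj a (mem_insert_of_mem ha) b (mem_insert_of_mem hb))
      (fun a ha => hdep a (mem_insert_of_mem ha)) (fun a ha => hprob a (mem_insert_of_mem ha))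
    have hind := indep (B k) (K.biUnion B)
      (by
        rw [Finset.disjoint_biUnion_right]
        intro a ha
        exact hdisj k (mem_insert_self k K) a (mem_insert_of_mem ha) (fun h => hk (h ▸ ha)))
      (fun w => ∀ a ∈ K, ¬ E a w) (E k)
      (by
        intro w w' hww h a ha hE
        refine h a ha ?_
        refine hdep a (mem_insert_of_mem ha) w' w ?_ hE
        intro x hx
        exact (hww x (Finset.mem_biUnion.mpr ⟨a, ha, hx⟩)).symm)
      (hdep k (mem_insert_self k K))
    have hpk := hprob k (mem_insert_self k K)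
    have hsplit : (univ.filter (fun w : X → Y => ∀ a ∈ K, ¬ E a w)).card =
        (univ.filter (fun w : X → Y => (∀ a ∈ K, ¬ E a w) ∧ E k w)).card +
        (univ.filter (fun w : X → Y => ∀ a ∈ insert k K, ¬ E a w)).card := by
      rw [← Finset.card_union_of_disjoint]
      · congr 1
        ext w
        simp only [mem_filter, mem_univ, true_and, mem_union, mem_insert, forall_eq_or_imp]
        tauto
      · rw [Finset.disjoint_left]
        intro w hw hw'
        simp only [mem_filter, mem_univ, true_and, mem_insert, forall_eq_or_imp] at hw hw'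
        exact hw'.1 hw.2
    rw [Finset.card_insert_of_notMem hk, pow_succ]
    have hΩ : (0 : ℝ) ≤ (Fintype.card (X → Y) : ℝ) := Nat.cast_nonneg _
    set F : ℝ := ((univ.filter (fun w : X → Y => ∀ a ∈ K, ¬ E a w)).card : ℝ) with hF
    set G : ℝ := ((univ.filter (fun w : X → Y => (∀ a ∈ K, ¬ E a w) ∧ E k w)).card : ℝ) with hG
    set H : ℝ := ((univ.filter (fun w : X → Y => ∀ a ∈ insert k K, ¬ E a w)).card : ℝ) with hH
    set Ek : ℝ := ((univ.filter (fun w : X → Y => E k w)).card : ℝ) with hEk
    set O : ℝ := (Fintype.card (X → Y) : ℝ) with hO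
    have e1 : F = G + H := by rw [hF, hG, hH]; exact_mod_cast hsplit
    have e2 : G * O = F * Ek := by rw [hF, hG, hEk, hO]; exact_mod_cast hind
    have hF0 : 0 ≤ F := Nat.cast_nonneg _
    have hH0 : 0 ≤ H := Nat.cast_nonneg _
    rcases eq_or_lt_of_le hΩ with hz | hpos
    · -- empty function space
      have hz' : O = 0 := hz.symm
      have hcard : Fintype.card (X → Y) = 0 := by
        have h0 := hz'
        rw [hO] at h0
        exact_mod_cast h0
      have : H = 0 := by
        rw [hH]
        have : IsEmpty (X → Y) := Fintype.card_eq_zero_iff.mp hcard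
        have h0 : (univ : Finset (X → Y)) = ∅ := Finset.univ_eq_empty
        rw [h0]; simp
      rw [this, hz']; simp
    · have e3 : p * F ≤ G := by
        have : p * F * O ≤ G * O := by
          rw [e2]
          nlinarith
        exact le_of_mul_le_mul_right this hpos
      have : H ≤ (1 - p) * F := by linarith
      calc H ≤ (1 - p) * F := this
        _ ≤ (1 - p) * ((1 - p) ^ K.card * O) := by
            apply mul_le_mul_of_nonneg_left ih'
            linarith
        _ = (1 - p) ^ K.card * (1 - p) * O := by ring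

/-- The avoidance bound for an arbitrary predicate implying avoidance. -/
theorem avoid' {κ : Type*} (B : κ → Finset X) (E : κ → (X → Y) → Prop)
    (p : ℝ) (hp1 : p ≤ 1) (K : Finset κ)
    (hdisj : ∀ k ∈ K, ∀ k' ∈ K, k ≠ k' → Disjoint (B k) (B k'))
    (hdep : ∀ k ∈ K, Dep (B k) (E k))
    (hprob : ∀ k ∈ K, ∃ G : Finset (X → Y), (∀ w ∈ G, E k w) ∧
      p * (Fintype.card (X → Y) : ℝ) ≤ (G.card : ℝ))
    (P : (X → Y) → Prop) [DecidablePred P] (hP : ∀ w, P w → ∀ k ∈ K, ¬ E k w) :
    ((univ.filter P).card : ℝ) ≤ (1 - p) ^ K.card * (Fintype.card (X → Y) : ℝ) := by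
  classical
  have h := avoid B E p hp1 K hdisj hdep (by
    intro k hk
    obtain ⟨G, hG1, hG2⟩ := hprob k hk
    refine le_trans hG2 ?_
    have : G.card ≤ (univ.filter (fun w : X → Y => E k w)).card := by
      apply card_le_card
      intro w hw
      rw [mem_filter]
      exact ⟨mem_univ _, hG1 w hw⟩
    exact_mod_cast this)
  refine le_trans ?_ h
  have : (univ.filter P).card ≤
      (univ.filter (fun w : X → Y => ∀ k ∈ K, ¬ E k w)).card := by
    apply card_le_card
    intro w hw
    rw [mem_filter] at hw ⊢
    exact ⟨mem_univ _, hP w hw.2⟩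
  exact_mod_cast this

/-- Probability that one coordinate takes a prescribed value and the coordinates in `T`
avoid the values below `q`. -/
theorem prob_lower (Q q : ℕ) (hQ : 0 < Q) (a : X) (T : Finset X) (haT : a ∉ T) (β : Fin Q)
    (hq : 2 * (q * T.card) ≤ Q) :
    (1 / (2 * (Q : ℝ))) * (Fintype.card (X → Fin Q) : ℝ) ≤
      ((univ.filter (fun w : X → Fin Q => w a = β ∧ ∀ x ∈ T, q ≤ (w x).val)).card : ℝ) := by
  classical
  have hset : (univ.filter (fun w : X → Fin Q => w a = β ∧ ∀ x ∈ T, q ≤ (w x).val)) =
      Fintype.piFinset (fun x => if x = a then ({β} : Finset (Fin Q)) else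
        if x ∈ T then univ.filter (fun y : Fin Q => q ≤ y.val) else univ) := by
    ext w
    simp only [mem_filter, mem_univ, true_and, Fintype.mem_piFinset]
    constructor
    · rintro ⟨h1, h2⟩ x
      by_cases hx : x = a
      · simp [hx, h1]
      · by_cases hT : x ∈ T
        · simp [hx, hT, h2 x hT]
        · simp [hx, hT]
    · intro h
      refine ⟨?_, ?_⟩
      · have := h a
        simpa using this
      · intro x hx
        have hxa : x ≠ a := fun e => haT (e ▸ hx)
        have := h x
        simpa [hxa, hx] using this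
  rw [hset, Fintype.card_piFinset]
  have hcardq : ((univ.filter (fun y : Fin Q => q ≤ y.val)).card : ℝ) ≥ (Q : ℝ) - q := by
    have h1 : (univ.filter (fun y : Fin Q => q ≤ y.val)).card +
        (univ.filter (fun y : Fin Q => ¬ q ≤ y.val)).card = Q := by
      rw [Finset.card_filter_add_card_filter_not]; simp
    have h2 : (univ.filter (fun y : Fin Q => ¬ q ≤ y.val)).card ≤ q := by
      have : (univ.filter (fun y : Fin Q => ¬ q ≤ y.val)).card ≤ (Finset.range q).card := by
        refine Finset.card_le_card_of_injOn (fun y => y.val) ?_ ?_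
        · intro y hy
          simp at hy
          simpa using hy
        · intro y _ z _ h
          exact Fin.ext h
      simpa using this
    have h3 : (Q : ℝ) = ((univ.filter (fun y : Fin Q => q ≤ y.val)).card : ℝ) +
        ((univ.filter (fun y : Fin Q => ¬ q ≤ y.val)).card : ℝ) := by exact_mod_cast h1.symm
    have h4 : ((univ.filter (fun y : Fin Q => ¬ q ≤ y.val)).card : ℝ) ≤ q := by exact_mod_cast h2
    linarith
  have hQ' : (0 : ℝ) < Q := by exact_mod_cast hQ
  push_cast
  have hfac : ∀ x : X, ((if x = a then ({β} : Finset (Fin Q)) else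
        if x ∈ T then univ.filter (fun y : Fin Q => q ≤ y.val) else univ).card : ℝ) ≥
        (Q : ℝ) * ((if x = a then 1 / (Q : ℝ) else 1) *
          (if x ∈ T then (1 - (q : ℝ) / Q) else 1)) := by
    intro x
    by_cases hx : x = a
    · have hT : x ∉ T := hx ▸ haT
      simp [hx, haT]
      rw [mul_inv_cancel₀ hQ'.ne']
    · by_cases hT : x ∈ T
      · simp only [hx, hT, if_true, if_false, one_mul]
        have : (Q : ℝ) * (1 - q / Q) = Q - q := by field_simp
        rw [this]
        exact hcardq
      · simp [hx, hT]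
  have hTq : (q : ℝ) * T.card ≤ Q / 2 := by
    have : (2 * (q * T.card) : ℝ) ≤ Q := by exact_mod_cast hq
    linarith
  have hnn : ∀ x : X, 0 ≤ (Q : ℝ) * ((if x = a then 1 / (Q : ℝ) else 1) *
          (if x ∈ T then (1 - (q : ℝ) / Q) else 1)) := by
    intro x
    apply mul_nonneg hQ'.le
    apply mul_nonneg
    · split_ifs <;> positivity
    · by_cases hT : x ∈ T
      · simp only [hT, if_true]
        have hc : (1 : ℝ) ≤ T.card := by exact_mod_cast (Finset.card_pos.mpr ⟨x, hT⟩)
        have : (q : ℝ) ≤ Q := by nlinarith [(Nat.cast_nonneg q : (0:ℝ) ≤ q)]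
        rw [sub_nonneg, div_le_one hQ']
        exact this
      · simp [hT]
  have hprod := Finset.prod_le_prod (s := (univ : Finset X)) (fun x _ => hnn x)
    (fun x _ => hfac x)
  refine le_trans ?_ hprod
  rw [Finset.prod_mul_distrib, Finset.prod_mul_distrib, Finset.prod_const, Finset.prod_ite_eq',
    Finset.prod_ite_mem, Finset.prod_const]
  simp only [mem_univ, if_true, Finset.univ_inter, Finset.card_univ]
  have hcardfun : (Fintype.card (X → Fin Q) : ℝ) = (Q : ℝ) ^ Fintype.card X := by
    rw [Fintype.card_fun]; simp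
  rw [hcardfun]
  have hbern : (1 : ℝ) / 2 ≤ (1 - (q : ℝ) / Q) ^ T.card := by
    by_cases hT0 : T.card = 0
    · rw [hT0]; norm_num
    have hc : (1 : ℝ) ≤ T.card := by exact_mod_cast Nat.one_le_iff_ne_zero.mpr hT0
    have hqQ : (q : ℝ) / Q ≤ 1 := by
      rw [div_le_one hQ']
      nlinarith [(Nat.cast_nonneg q : (0:ℝ) ≤ q)]
    have h := one_add_mul_le_pow (a := -((q : ℝ) / Q)) (by linarith) T.card
    have h2 : (T.card : ℝ) * ((q : ℝ) / Q) ≤ 1 / 2 := by
      rw [mul_div_assoc', div_le_iff₀ hQ']
      nlinarith
    have h3 : (1 : ℝ) + T.card * -((q : ℝ) / Q) ≥ 1 / 2 := by linarith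
    have h4 : (1 + -((q : ℝ) / Q)) = 1 - (q : ℝ) / Q := by ring
    rw [h4] at h
    linarith
  have hpow : (0 : ℝ) < (Q : ℝ) ^ Fintype.card X := by positivity
  calc 1 / (2 * (Q : ℝ)) * (Q : ℝ) ^ Fintype.card X
      = (Q : ℝ) ^ Fintype.card X * (1 / (Q : ℝ) * (1 / 2)) := by field_simp
    _ ≤ (Q : ℝ) ^ Fintype.card X * (1 / (Q : ℝ) * (1 - (q : ℝ) / Q) ^ T.card) := by
        apply mul_le_mul_of_nonneg_left _ hpow.le
        apply mul_le_mul_of_nonneg_left hbern
        positivity

end indep

section packing

variable {X : Type*} [DecidableEq X]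

/-- Greedy packing: a maximal separated subfamily covers. -/
theorem packing (U : Finset X) (close : X → X → Prop) [DecidableRel close]
    (hrefl : ∀ x ∈ U, close x x) (hsymm : ∀ x y, close x y → close y x) (V : ℕ)
    (hV : ∀ x ∈ U, (U.filter (fun y => close x y)).card ≤ V) :
    ∃ K ⊆ U, (∀ x ∈ K, ∀ y ∈ K, x ≠ y → ¬ close x y) ∧ U.card ≤ K.card * V := by
  classical
  let F : Finset (Finset X) := U.powerset.filter (fun K => ∀ x ∈ K, ∀ y ∈ K, x ≠ y → ¬ close x y)
  have hne : F.Nonempty := ⟨∅, by simp [F]⟩
  obtain ⟨K, hK, hmax⟩ := Finset.exists_max_image F Finset.card hne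
  simp only [F, mem_filter, mem_powerset] at hK
  refine ⟨K, hK.1, hK.2, ?_⟩
  have hcov : U ⊆ K.biUnion (fun k => U.filter (fun y => close k y)) := by
    intro x hx
    rw [mem_biUnion]
    by_contra hcon
    push Not at hcon
    have hxK : x ∉ K := by
      intro hxK
      exact hcon x hxK (by simp [hx, hrefl x hx])
    have hins : insert x K ∈ F := by
      simp only [F, mem_filter, mem_powerset]
      refine ⟨?_, ?_⟩
      · intro y hy
        rcases mem_insert.mp hy with rfl | hy
        · exact hx
        · exact hK.1 hy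
      · intro a ha b hb hab hc
        rcases mem_insert.mp ha with ha' | ha' <;> rcases mem_insert.mp hb with hb' | hb'
        · exact hab (ha'.trans hb'.symm)
        · subst ha'
          exact hcon b hb' (by simp only [mem_filter]; exact ⟨hx, hsymm _ _ hc⟩)
        · subst hb'
          exact hcon a ha' (by simp only [mem_filter]; exact ⟨hx, hc⟩)
        · exact hK.2 a ha' b hb' hab hc
    have := hmax _ hins
    rw [Finset.card_insert_of_notMem hxK] at this
    omega
  calc U.card ≤ (K.biUnion (fun k => U.filter (fun y => close k y))).card := card_le_card hcov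
    _ ≤ K.card * V := Finset.card_biUnion_le_card_mul _ _ _ (fun k hk => hV k (hK.1 hk))

end packing

section volume

variable {α : Type*} [DecidableEq α]

theorem vol (D : Finset α) (t : ℕ) :
    (D.powerset.filter (fun S => S.card ≤ t)).card ≤ (D.card + 1) ^ t := by
  classical
  induction t with
  | zero =>
    have : D.powerset.filter (fun S => S.card ≤ 0) ⊆ {∅} := by
      intro S hS
      simp only [mem_filter, Nat.le_zero, card_eq_zero] at hS
      simp [hS.2]
    calc _ ≤ ({∅} : Finset (Finset α)).card := card_le_card this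
      _ = 1 := by simp
      _ ≤ _ := by simp
  | succ t ih =>
    have hsub : D.powerset.filter (fun S => S.card ≤ t + 1) ⊆
        ((D.powerset.filter (fun S => S.card ≤ t)) ×ˢ (Finset.insertNone D)).image
          (fun z : Finset α × Option α => match z.2 with
            | none => z.1
            | some x => insert x z.1) := by
      intro S hS
      simp only [mem_filter, mem_powerset] at hS
      rw [mem_image]
      by_cases hc : S.card ≤ t
      · exact ⟨(S, none), by simp [hS.1, hc], rfl⟩
      · have hpos : S.Nonempty := by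
          rw [← card_pos]; omega
        obtain ⟨x, hx⟩ := hpos
        refine ⟨(S.erase x, some x), ?_, ?_⟩
        · simp only [mem_product, mem_filter, mem_powerset, Finset.some_mem_insertNone]
          refine ⟨⟨(erase_subset _ _).trans hS.1, ?_⟩, hS.1 hx⟩
          rw [card_erase_of_mem hx]; omega
        · simp only
          exact insert_erase hx
    calc _ ≤ _ := card_le_card hsub
      _ ≤ _ := card_image_le
      _ = (D.powerset.filter (fun S => S.card ≤ t)).card * (D.card + 1) := by
          rw [card_product, Finset.card_insertNone]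
      _ ≤ (D.card + 1) ^ t * (D.card + 1) := Nat.mul_le_mul_right _ ih
      _ = (D.card + 1) ^ (t + 1) := by ring

theorem ball_vol (D A : Finset α) (hA : A ⊆ D) (d : ℕ) :
    (D.powerset.filter (fun A' => (symmDiff A A').card < d)).card ≤ (D.card + 1) ^ d := by
  classical
  refine le_trans ?_ (vol D d)
  refine Finset.card_le_card_of_injOn (fun A' => symmDiff A A') ?_ ?_
  · intro A' hA'
    simp only [coe_filter, mem_powerset, Set.mem_ofPred_eq] at hA' ⊢
    refine ⟨?_, hA'.2.le⟩
    intro x hx
    rcases Finset.mem_symmDiff.mp hx with h | h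
    · exact hA h.1
    · exact hA'.1 h.1
  · intro S _ T _ h
    exact symmDiff_right_injective A h

end volume

end Pool.Agent.Helper864.GKS
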