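import Pool.Agent.Helper864.GKSProt

set_option autoImplicit false

/-!
Numerical iteration of the recursion.
-/

namespace Pool.Agent.Helper864.GKS

open Finset

theorem step_pow {α : Type*} [Fintype α] [DecidableEq α] (a b c lam s : ℕ)
    (h2 : 2 * b = a + c + lam) (hab : a + 1 ≤ b) (hbc : b < c) (hl : 44 * (c + 1) ≤ 2 ^ lam)
    (h : Prot α (2 ^ b) s (2 ^ a) (2 ^ a)) : Prot α (2 ^ c) s (2 ^ b) (2 ^ b) := by
  have hlam : 6 ≤ lam := by
    by_contra hcon
    push Not at hcon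
    have h1 : 2 ^ lam ≤ 2 ^ 5 := Nat.pow_le_pow_right (by norm_num) (by omega)
    norm_num at h1
    omega
  have hqw : 2 ^ (c - b + 1) * 2 ^ (2 * b - c - 2) = 2 ^ (b - 1) := by
    rw [← pow_add]; congr 1; omega
  have hqM : 2 ^ (c - b + 1) * 2 ^ (b - 1) = 2 ^ c := by
    rw [← pow_add]; congr 1; omega
  have h2M : 2 * 2 ^ (b - 1) = 2 ^ b := by
    rw [← pow_succ']; congr 1; omega
  have ha1 : 1 ≤ 2 ^ a := Nat.one_le_two_pow
  have hab' : 2 ^ a ≤ 2 ^ (b - 1) := Nat.pow_le_pow_right (by norm_num) (by omega)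
  have hw : 2 ^ (2 * b - c - 2) = 2 ^ a * 2 ^ (lam - 2) := by
    rw [← pow_add]; congr 1; omega
  have hw2 : 11 * (c + 1) ≤ 2 ^ (lam - 2) := by
    have : 2 ^ lam = 4 * 2 ^ (lam - 2) := by
      have : lam = 2 + (lam - 2) := by omega
      conv_lhs => rw [this, pow_add]
      norm_num
    omega
  have hstep := Prot.step (α := α) (2 ^ (c - b + 1)) (2 ^ (b - 1)) (2 ^ (2 * b - c - 2)) s
    (2 ^ a) (2 ^ a)
    (by
      calc 2 = 2 ^ 1 := by norm_num
        _ ≤ 2 ^ (c - b + 1) := Nat.pow_le_pow_right (by norm_num) (by omega))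
    Nat.one_le_two_pow (by rw [hqw]) Nat.one_le_two_pow (by rw [hqw]; exact hab')
    (by
      rw [hqM]
      have h1 : 2 ^ c + 1 ≤ 2 ^ (c + 1) := by
        rw [pow_succ]
        have : 1 ≤ 2 ^ c := Nat.one_le_two_pow
        omega
      calc 4 * 2 ^ c * 2 ^ (c - b + 1) * (2 ^ c + 1) ^ (3 * (2 * 2 ^ a + 1))
          ≤ 4 * 2 ^ c * 2 ^ (c - b + 1) * (2 ^ (c + 1)) ^ (3 * (2 * 2 ^ a + 1)) :=
            Nat.mul_le_mul_left _ (Nat.pow_le_pow_left h1 _)
        _ = 2 ^ (2 + c + (c - b + 1) + (c + 1) * (3 * (2 * 2 ^ a + 1))) := by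
            have h4 : (4 : ℕ) = 2 ^ 2 := by norm_num
            rw [h4, ← pow_mul, ← pow_add, ← pow_add, ← pow_add]
        _ ≤ 2 ^ (2 ^ (2 * b - c - 2)) := by
            apply Nat.pow_le_pow_right (by norm_num)
            rw [hw]
            have h3 : 2 ^ a * (11 * (c + 1)) ≤ 2 ^ a * 2 ^ (lam - 2) :=
              Nat.mul_le_mul_left _ hw2
            have h4 : c - b + 1 ≤ c := by omega
            have h5 : (c + 1) * 1 ≤ (c + 1) * 2 ^ a := Nat.mul_le_mul_left _ ha1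
            nlinarith)
    (by rw [h2M]; exact h)
  rw [hqM, hqw] at hstep
  refine hstep.mono ?_ ?_
  · omega
  · omega

/-- The exponents. -/
def ex (μ T i : ℕ) : ℕ := μ * (i * (2 * T + 1 - i))

theorem iter {α : Type*} [Fintype α] [DecidableEq α] (μ T : ℕ) (hμ : 1 ≤ μ)
    (hbig : 44 * (μ * (T * (2 * T + 1)) + 1) ≤ 2 ^ (2 * μ)) (j : ℕ) (hj : j + 1 ≤ T) :
    Prot α (2 ^ ex μ T (j + 1)) (2 ^ ex μ T 1) (2 ^ ex μ T j) (2 ^ ex μ T j) := by
  induction j with
  | zero =>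
    have h0 : ex μ T 0 = 0 := by simp [ex]
    rw [h0]
    simpa using (Prot.base (α := α) (2 ^ ex μ T 1))
  | succ j ih =>
    obtain ⟨d, rfl⟩ : ∃ d, T = j + 2 + d := ⟨T - (j + 2), by omega⟩
    have e0 : ex μ (j + 2 + d) j = μ * (j * (j + 2 * d + 5)) := by
      unfold ex; congr 2; omega
    have e1 : ex μ (j + 2 + d) (j + 1) = μ * ((j + 1) * (j + 2 * d + 4)) := by
      unfold ex; congr 2; omega
    have e2 : ex μ (j + 2 + d) (j + 1 + 1) = μ * ((j + 2) * (j + 2 * d + 3)) := by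
      unfold ex; congr 2; omega
    refine step_pow (ex μ (j + 2 + d) j) (ex μ (j + 2 + d) (j + 1)) (ex μ (j + 2 + d) (j + 1 + 1))
      (2 * μ) _ ?_ ?_ ?_ ?_ (ih (by omega))
    · rw [e0, e1, e2]; ring
    · rw [e0, e1]; nlinarith [Nat.zero_le (μ * d), Nat.zero_le (μ * j)]
    · rw [e1, e2]; nlinarith [Nat.zero_le (μ * d), Nat.zero_le (μ * j)]
    · refine le_trans ?_ hbig
      apply Nat.mul_le_mul_left
      rw [e2]
      apply Nat.succ_le_succ
      apply Nat.mul_le_mul_left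
      nlinarith [Nat.zero_le d, Nat.zero_le j]

/-- The main upper bound: for `n = 2 ^ (μ * (T * (T + 1)))` there is a protocol of cost at most
`2 ^ (μ * (2 * T))`. -/
theorem upper (μ T m : ℕ) (hT : 1 ≤ T) (hμ : 1 ≤ μ)
    (hbig : 44 * (μ * (T * (2 * T + 1)) + 1) ≤ 2 ^ (2 * μ))
    (hm : m + 1 = 2 ^ (μ * (T * (T + 1)))) :
    ∃ A : List (Fin (m + 1)) → Bool,
    ∃ B : (Fin (m + 1) → Bool) → Finset (Fin (m + 1)),
      (∀ σ : Equiv.Perm (Fin (m + 1)), ∀ b : Bool,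
        σ (Fin.last m) ∈ B (fun j : Fin (m + 1) =>
          if σ.symm j = Fin.last m then b
          else A (List.map σ ((List.finRange (m + 1)).take ((σ.symm j).val + 1))))) ∧
      ∀ u, (B u).card ≤ 2 ^ (μ * (2 * T)) := by
  obtain ⟨t, rfl⟩ : ∃ t, T = t + 1 := ⟨T - 1, by omega⟩
  have h := iter (α := Fin (m + 1)) μ (t + 1) hμ hbig t le_rfl
  have e1 : ex μ (t + 1) (t + 1) = μ * ((t + 1) * (t + 1 + 1)) := by
    unfold ex; congr 2; omega
  have e2 : ex μ (t + 1) 1 = μ * (2 * (t + 1)) := by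
    unfold ex; congr 1; omega
  have e3 : ex μ (t + 1) t ≤ ex μ (t + 1) (t + 1) := by
    have : ex μ (t + 1) t = μ * (t * (t + 3)) := by
      unfold ex; congr 2; omega
    rw [this, e1]
    apply Nat.mul_le_mul_left
    nlinarith
  rw [e1] at h e3
  rw [e2] at h
  obtain ⟨E, hE1, hE2, -, hE4⟩ := h univ (by rw [card_univ, Fintype.card_fin, hm])
  refine protocol m E hE1 ?_ _ hE2
  refine hE4 m ?_ univ (subset_refl _) (by rw [card_univ, Fintype.card_fin])
  rw [hm]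
  exact Nat.pow_le_pow_right (by norm_num) e3

end Pool.Agent.Helper864.GKS
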