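import Pool.Agent.Helper864.GKSRec

set_option autoImplicit false

/-!
From a winning position to an actual protocol in the format of the statement.
-/

namespace Pool.Agent.Helper864.GKS

open Finset

section prot

variable {α : Type*} [Fintype α] [DecidableEq α]

open Classical in
/-- Alice's next target vector. -/
noncomputable def nxt (E : Finset α → α → Prop) (R v : Finset α) (p : α) : Finset α :=
  if h : ∃ v' : Finset α, (∀ x, x ∉ R → (x ∈ v' ↔ x ∈ v)) ∧ W E (R.card - 2) (R.erase p) v'
  then h.choose else v

/-- The state after the prefix `l`: remaining coordinates and current target. -/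
noncomputable def st (E : Finset α → α → Prop) (l : List α) : Finset α × Finset α :=
  l.foldl (fun s p => (s.1.erase p, nxt E s.1 s.2 p)) (univ, ∅)

theorem st_snoc (E : Finset α → α → Prop) (l : List α) (p : α) :
    st E (l ++ [p]) = ((st E l).1.erase p, nxt E (st E l).1 (st E l).2 p) := by
  simp [st, List.foldl_append]

theorem st_fst (E : Finset α → α → Prop) (l : List α) : (st E l).1 = univ \ l.toFinset := by
  induction l using List.reverseRecOn with
  | nil => simp [st]
  | append_singleton l p ih =>
    rw [st_snoc, ih]
    ext x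
    simp only [mem_erase, mem_sdiff, mem_univ, true_and, List.mem_toFinset, List.mem_append,
      List.mem_singleton]
    tauto

theorem st_inv (E : Finset α → α → Prop) (m : ℕ) (hm : Fintype.card α = m + 1)
    (hW : W E m univ ∅) (l : List α) (hnd : l.Nodup) (hl : l.length ≤ m) :
    W E (m - l.length) (st E l).1 (st E l).2 := by
  induction l using List.reverseRecOn with
  | nil => simpa [st] using hW
  | append_singleton l p ih =>
    rw [List.length_append, List.length_singleton] at hl ⊢
    have hnd' : l.Nodup := (List.nodup_append.mp hnd).1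
    have hp : p ∉ l := by
      intro hp
      have h3 := (List.nodup_append.mp hnd).2.2
      exact h3 p hp p (by simp) rfl
    have h1 := ih hnd' (by omega)
    obtain ⟨k, hk⟩ : ∃ k, m - l.length = k + 1 := ⟨m - l.length - 1, by omega⟩
    rw [hk] at h1
    have hpR : p ∈ (st E l).1 := by
      rw [st_fst]; simp [hp]
    have hcard : (st E l).1.card = k + 2 := by
      rw [st_fst, card_sdiff_of_subset (subset_univ _), card_univ, hm,
        List.toFinset_card_of_nodup hnd']
      omega
    have h2 := h1 p hpR
    have hk2 : m - (l.length + 1) = k := by omega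
    rw [st_snoc, hk2]
    have hex : ∃ v' : Finset α, (∀ x, x ∉ (st E l).1 → (x ∈ v' ↔ x ∈ (st E l).2)) ∧
        W E ((st E l).1.card - 2) ((st E l).1.erase p) v' := by
      rw [hcard]; exact h2
    have h3 := hex.choose_spec.2
    simp only [nxt, dif_pos hex]
    have hcc : (st E l).1.card - 2 = k := by omega
    have h4 : ∀ v, W E ((st E l).1.card - 2) ((st E l).1.erase p) v →
        W E k ((st E l).1.erase p) v := by
      intro v hv
      rwa [hcc] at hv
    exact h4 _ h3

theorem st_agree (E : Finset α → α → Prop) (l : List α) (p x : α) (hx : x ∉ (st E l).1) :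
    x ∈ (st E (l ++ [p])).2 ↔ x ∈ (st E l).2 := by
  rw [st_snoc]
  simp only [nxt]
  split_ifs with h
  · exact h.choose_spec.1 x hx
  · exact Iff.rfl

theorem st_persist (E : Finset α → α → Prop) (l₁ l₂ : List α) (x : α) (hx : x ∈ l₁) :
    x ∈ (st E (l₁ ++ l₂)).2 ↔ x ∈ (st E l₁).2 := by
  induction l₂ using List.reverseRecOn with
  | nil => simp
  | append_singleton l p ih =>
    rw [← List.append_assoc, st_agree E (l₁ ++ l) p x ?_, ih]
    rw [st_fst]
    simp [hx]

open Classical in
/-- Alice's writing rule. -/
noncomputable def rule (E : Finset α → α → Prop) (l : List α) : Bool :=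
  match l.getLast? with
  | none => false
  | some p => decide (p ∈ (st E l).2)

theorem rule_snoc (E : Finset α → α → Prop) (l : List α) (p : α) :
    rule E (l ++ [p]) = true ↔ p ∈ (st E (l ++ [p])).2 := by
  simp [rule]

end prot

theorem protocol (m : ℕ) (E : Finset (Fin (m + 1)) → Fin (m + 1) → Prop) (hE : Sy E)
    (hW : W E m univ ∅) (s : ℕ)
    (hs : ∀ v, ∃ J : Finset (Fin (m + 1)), J.card ≤ s ∧ ∀ j, E v j → j ∈ J) :
    ∃ A : List (Fin (m + 1)) → Bool,
    ∃ B : (Fin (m + 1) → Bool) → Finset (Fin (m + 1)),
      (∀ σ : Equiv.Perm (Fin (m + 1)), ∀ b : Bool,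
        σ (Fin.last m) ∈ B (fun j : Fin (m + 1) =>
          if σ.symm j = Fin.last m then b
          else A (List.map σ ((List.finRange (m + 1)).take ((σ.symm j).val + 1))))) ∧
      ∀ u, (B u).card ≤ s := by
  classical
  refine ⟨rule E, fun u => univ.filter (fun j => E (univ.filter (fun x => u x = true)) j),
    ?_, ?_⟩
  · intro σ b
    rw [mem_filter]
    refine ⟨mem_univ _, ?_⟩
    set L : List (Fin (m + 1)) := List.map σ (List.finRange (m + 1)) with hL
    have hLlen : L.length = m + 1 := by simp [hL]
    have hLnd : L.Nodup := (List.nodup_map_iff σ.injective).mpr (List.nodup_finRange _)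
    have hLget : ∀ (i : ℕ) (hi : i < m + 1), L[i]'(by rw [hLlen]; exact hi) = σ ⟨i, hi⟩ := by
      intro i hi
      simp [hL]
    have hmt : ∀ i, List.map σ ((List.finRange (m + 1)).take i) = L.take i := by
      intro i; rw [hL, List.map_take]
    have hsplit : ∀ (i : ℕ) (hi : i < m + 1), L.take (i + 1) = L.take i ++ [σ ⟨i, hi⟩] := by
      intro i hi
      rw [List.take_add_one, List.getElem?_eq_getElem (by rw [hLlen]; exact hi), hLget i hi]
      rfl
    have hfin := st_inv E m (by simp) hW (L.take m) (hLnd.sublist (List.take_sublist _ _))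
      (by rw [List.length_take]; omega)
    have hlen : m - (L.take m).length = 0 := by rw [List.length_take, hLlen]; omega
    rw [hlen] at hfin
    obtain ⟨j, hj, hEj⟩ := hfin
    have hlast : σ (Fin.last m) ∈ (st E (L.take m)).1 := by
      rw [st_fst, mem_sdiff, List.mem_toFinset]
      refine ⟨mem_univ _, ?_⟩
      intro hmem
      have hsp := hsplit m (by omega)
      have hnd : (L.take (m + 1)).Nodup := hLnd.sublist (List.take_sublist _ _)
      rw [hsp] at hnd
      have := (List.nodup_append.mp hnd).2.2 _ hmem (σ ⟨m, by omega⟩) (by simp)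
      exact this rfl
    rw [hj, mem_singleton] at hlast
    rw [← hlast] at hEj
    refine hE _ _ _ ?_ hEj
    intro x hx
    rw [mem_filter]
    have hxne : σ.symm x ≠ Fin.last m := by
      intro h
      apply hx
      rw [← h]; simp
    simp only [mem_univ, true_and, if_neg hxne]
    rw [hmt]
    obtain ⟨i, hi⟩ : ∃ i : ℕ, i = (σ.symm x).val := ⟨_, rfl⟩
    have him : i < m := by
      rw [hi]
      have h1 := (σ.symm x).isLt
      have h2 : (σ.symm x).val ≠ m := fun h => hxne (Fin.ext (by simpa using h))
      omega
    have hxi : σ ⟨i, by omega⟩ = x := by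
      have : (⟨i, by omega⟩ : Fin (m + 1)) = σ.symm x := Fin.ext hi
      rw [this]; simp
    rw [← hi]
    have hsp := hsplit i (by omega)
    rw [hxi] at hsp
    rw [hsp, rule_snoc, ← hsp]
    have htake : L.take m = L.take (i + 1) ++ (L.take m).drop (i + 1) := by
      have h := (List.take_append_drop (i + 1) (L.take m)).symm
      rw [List.take_take, min_eq_left (by omega : i + 1 ≤ m)] at h
      exact h
    rw [htake]
    exact (st_persist E (L.take (i + 1)) _ x (by rw [hsp]; simp)).symm
  · intro u
    obtain ⟨J, hJ, hJ2⟩ := hs (univ.filter (fun x => u x = true))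
    refine le_trans (card_le_card ?_) hJ
    intro j hj
    rw [mem_filter] at hj
    exact hJ2 j hj.2

end Pool.Agent.Helper864.GKS
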