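import Pool.Agent.Helper864.GKSCover

set_option autoImplicit false

/-!
Alice's winning positions and the recursive construction of edge sets of small degree.
-/

namespace Pool.Agent.Helper864.GKS

open Finset

section rec

variable {α : Type*} [DecidableEq α]

/-- `W E k R v`: with the `k + 1` coordinates of `R` still to come and the vector `v` written so
far (only its part outside `R` matters), Alice can make sure that the last coordinate `j` and
the final vector `u` satisfy `E u j`. -/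
def W (E : Finset α → α → Prop) : ℕ → Finset α → Finset α → Prop
  | 0, R, v => ∃ j, R = {j} ∧ E v j
  | k + 1, R, v => ∀ p ∈ R, ∃ v' : Finset α, (∀ x, x ∉ R → (x ∈ v' ↔ x ∈ v)) ∧
      W E k (R.erase p) v'

/-- `E v j` does not depend on the bit of `v` at `j`. -/
def Sy (E : Finset α → α → Prop) : Prop :=
  ∀ (v v' : Finset α) (j : α), (∀ x, x ≠ j → (x ∈ v' ↔ x ∈ v)) → E v j → E v' j

theorem W_congr {E : Finset α → α → Prop} (hE : Sy E) (k : ℕ) (R v v' : Finset α)
    (h : ∀ x, x ∉ R → (x ∈ v' ↔ x ∈ v)) (hW : W E k R v) : W E k R v' := by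
  cases k with
  | zero =>
    obtain ⟨j, rfl, hj⟩ := hW
    exact ⟨j, rfl, hE v v' j (fun x hx => h x (by simpa using hx)) hj⟩
  | succ k =>
    intro p hp
    obtain ⟨u, hu, hWu⟩ := hW p hp
    exact ⟨u, fun x hx => (hu x hx).trans (h x hx).symm, hWu⟩

theorem W_shift {E E' : Finset α → α → Prop} (A : Finset α)
    (h : ∀ v j, E v j → E' (symmDiff v A) j) :
    ∀ (k : ℕ) (R v : Finset α), W E k R v → W E' k R (symmDiff v A) := by
  intro k
  induction k with
  | zero =>
    rintro R v ⟨j, rfl, hj⟩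
    exact ⟨j, rfl, h v j hj⟩
  | succ k ih =>
    intro R v hW p hp
    obtain ⟨u, hu, hWu⟩ := hW p hp
    refine ⟨symmDiff u A, ?_, ih _ _ hWu⟩
    intro x hx
    rw [Finset.mem_symmDiff, Finset.mem_symmDiff, hu x hx]

theorem W_extend {E : Finset α → α → Prop} (D : Finset α) (k₀ : ℕ)
    (h : ∀ R ⊆ D, R.card = k₀ + 1 → W E k₀ R ∅) :
    ∀ k, k₀ ≤ k → ∀ R ⊆ D, R.card = k + 1 → W E k R ∅ := by
  intro k hk
  induction k, hk using Nat.le_induction with
  | base => exact h
  | succ k hk ih =>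
    intro R hR hc p hp
    refine ⟨∅, fun x _ => Iff.rfl, ih (R.erase p) ((erase_subset _ _).trans hR) ?_⟩
    rw [card_erase_of_mem hp, hc]; rfl

/-- The recursive statement: on each set `D` of `N` coordinates there is an edge set `E` in which
each vertex has degree at most `s`, all of whose vertices have at most `ρ` ones, and which Alice
reaches by writing zeros until `r` coordinates remain. -/
def Prot (α : Type*) [DecidableEq α] (N s ρ r : ℕ) : Prop :=
  ∀ D : Finset α, D.card = N → ∃ E : Finset α → α → Prop, Sy E ∧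
    (∀ v, ∃ J : Finset α, J.card ≤ s ∧ ∀ j, E v j → j ∈ J) ∧
    (∀ v j, E v j → v.card ≤ ρ) ∧
    (∀ k, r ≤ k + 1 → ∀ R ⊆ D, R.card = k + 1 → W E k R ∅)

theorem Prot.mono {N s ρ r ρ' r' : ℕ} (h : Prot α N s ρ r) (hρ : ρ ≤ ρ') (hr : r ≤ r') :
    Prot α N s ρ' r' := by
  intro D hD
  obtain ⟨E, h1, h2, h3, h4⟩ := h D hD
  exact ⟨E, h1, h2, fun v j hv => (h3 v j hv).trans hρ, fun k hk => h4 k (hr.trans hk)⟩

theorem Prot.base (N : ℕ) : Prot α N N 1 1 := by
  intro D hD
  refine ⟨fun v j => j ∈ D ∧ ∀ x, x ≠ j → x ∉ v, ?_, ?_, ?_, ?_⟩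
  · intro v v' j h hv
    exact ⟨hv.1, fun x hx hx' => hv.2 x hx ((h x hx).mp hx')⟩
  · intro v
    exact ⟨D, hD.le, fun j hj => hj.1⟩
  · intro v j hv
    have : v ⊆ {j} := by
      intro x hx
      rw [mem_singleton]
      by_contra hne
      exact hv.2 x hne hx
    calc v.card ≤ ({j} : Finset α).card := card_le_card this
      _ = 1 := card_singleton j
  · intro k _
    refine W_extend D 0 ?_ k (Nat.zero_le k)
    intro R hR hc
    obtain ⟨j, rfl⟩ := card_eq_one.mp hc
    exact ⟨j, rfl, hR (mem_singleton_self j), fun x _ => notMem_empty x⟩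

theorem Prot.step [Fintype α] (q M w s ρ r : ℕ)
    (hq : 2 ≤ q) (hM : 1 ≤ M) (hwM : q * w ≤ M) (hw1 : 1 ≤ w) (hr : r ≤ q * w)
    (hw : 4 * (q * M) * q * (q * M + 1) ^ (3 * (2 * ρ + 1)) ≤ 2 ^ w)
    (h : Prot α (2 * M) s ρ r) : Prot α (q * M) s (q * w + ρ) (q * w) := by
  classical
  intro D hD
  obtain ⟨F, Dm, hF1, hF2, hF3⟩ := cover D q M w (2 * ρ + 1) hq hM hD hwM (by omega)
    (by rw [hD]; exact hw)
  have hex : ∀ A ∈ F, ∃ E : Finset α → α → Prop, Sy E ∧
    (∀ v, ∃ J : Finset α, J.card ≤ s ∧ ∀ j, E v j → j ∈ J) ∧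
    (∀ v j, E v j → v.card ≤ ρ) ∧
    (∀ k, r ≤ k + 1 → ∀ R ⊆ Dm A, R.card = k + 1 → W E k R ∅) := by
    intro A hA
    exact h (Dm A) (hF1 A hA).2.2.1
  choose! EE hE1 hE2 hE3 hE4 using hex
  have hsym : Sy (fun v j => ∃ A ∈ F, EE A (symmDiff v A) j) := by
    rintro v v' j hvv ⟨A, hA, hv⟩
    refine ⟨A, hA, hE1 A hA _ _ j ?_ hv⟩
    intro x hx
    rw [Finset.mem_symmDiff, Finset.mem_symmDiff, hvv x hx]
  refine ⟨fun v j => ∃ A ∈ F, EE A (symmDiff v A) j, hsym, ?_, ?_, ?_⟩
  · intro v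
    by_cases hv : ∃ A ∈ F, ∃ j, EE A (symmDiff v A) j
    · obtain ⟨A, hA, j₀, hj₀⟩ := hv
      obtain ⟨J, hJ, hJ2⟩ := hE2 A hA (symmDiff v A)
      refine ⟨J, hJ, ?_⟩
      rintro j ⟨A', hA', hj⟩
      have hAA : A = A' := by
        by_contra hne
        have h1 := hF2 A hA A' hA' hne
        have h2 := hE3 A hA _ _ hj₀
        have h3 := hE3 A' hA' _ _ hj
        have h4 := card_symmDiff_triangle A v A'
        rw [symmDiff_comm A v] at h4
        omega
      subst hAA
      exact hJ2 j hj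
    · refine ⟨∅, by simp, ?_⟩
      rintro j ⟨A, hA, hj⟩
      exact absurd ⟨A, hA, j, hj⟩ hv
  · rintro v j ⟨A, hA, hj⟩
    have h1 := (hF1 A hA).2.2.2
    have h2 := hE3 A hA _ _ hj
    have h3 : v.card ≤ (symmDiff v A).card + A.card := by
      calc v.card ≤ (symmDiff v A ∪ A).card := by
            apply card_le_card
            intro x hx
            rw [mem_union, Finset.mem_symmDiff]
            tauto
        _ ≤ _ := card_union_le _ _
    omega
  · intro k hk
    have hpos : 1 ≤ q * w := Nat.one_le_iff_ne_zero.mpr (by positivity)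
    refine W_extend D (q * w - 1) ?_ k (by omega)
    intro R hR hc
    rw [Nat.sub_add_cancel hpos] at hc
    obtain ⟨A, hA, hAR, hRD⟩ := hF3 R hR hc
    have h1 := hE4 A hA (q * w - 1) (by omega) R hRD (by omega)
    have h2 := W_shift (E := EE A) (E' := fun v j => ∃ A ∈ F, EE A (symmDiff v A) j) A
      (by
        intro v j hv
        refine ⟨A, hA, ?_⟩
        rwa [symmDiff_symmDiff_cancel_right]) _ _ _ h1
    refine W_congr hsym _ _ _ _ ?_ h2
    intro x hx
    rw [Finset.mem_symmDiff]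
    constructor
    · intro h; exact absurd h (notMem_empty x)
    · rintro (⟨h, -⟩ | ⟨h, -⟩)
      · exact absurd h (notMem_empty x)
      · exact absurd (hAR h) hx

end rec

end Pool.Agent.Helper864.GKS
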