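import Mathlib

set_option autoImplicit false

namespace Pool.Agent.Helper864.Tilf

open Finset

/-- chord length bound -/
theorem chord (n s : ℕ) (hn : 0 < n) (hs : s ≤ n) :
    4 * (min (s : ℝ) (n - s)) / n ≤
      ‖(1 : ℂ) - Complex.exp (2 * Real.pi * Complex.I / n) ^ s‖ := by
  have hn' : (0 : ℝ) < n := by exact_mod_cast hn
  have hs' : (s : ℝ) ≤ n := by exact_mod_cast hs
  have hs0 : (0 : ℝ) ≤ s := Nat.cast_nonneg s
  have h1 : Complex.exp (2 * Real.pi * Complex.I / n) ^ s =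
      Complex.exp (Complex.I * ((2 * (Real.pi * s / n) : ℝ) : ℂ)) := by
    rw [← Complex.exp_nat_mul]
    congr 1
    push_cast
    ring
  rw [h1, norm_sub_rev, Complex.norm_exp_I_mul_ofReal_sub_one]
  have h2 : (2 * (Real.pi * s / n)) / 2 = Real.pi * s / n := by ring
  rw [h2]
  have hpi := Real.pi_pos
  have hx0 : 0 ≤ Real.pi * s / n := by positivity
  have hx1 : Real.pi * s / n ≤ Real.pi := by
    rw [div_le_iff₀ hn']
    nlinarith
  have hsin : 0 ≤ Real.sin (Real.pi * s / n) := Real.sin_nonneg_of_nonneg_of_le_pi hx0 hx1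
  rw [Real.norm_eq_abs, abs_of_nonneg (by positivity)]
  rcases le_total (Real.pi * s / n) (Real.pi / 2) with h | h
  · have := Real.mul_le_sin hx0 h
    have h3 : 2 / Real.pi * (Real.pi * s / n) = 2 * s / n := by
      field_simp
    rw [h3] at this
    have h4 : 4 * (min (s : ℝ) (n - s)) / n ≤ 2 * (2 * s / n) := by
      rw [show 2 * (2 * (s : ℝ) / n) = 4 * s / n by ring]
      gcongr
      exact min_le_left _ _
    linarith
  · have hy0 : 0 ≤ Real.pi - Real.pi * s / n := by linarith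
    have := Real.mul_le_sin hy0 (by linarith)
    rw [Real.sin_pi_sub] at this
    have h3 : 2 / Real.pi * (Real.pi - Real.pi * s / n) = 2 * (n - s) / n := by
      field_simp
    rw [h3] at this
    have h4 : 4 * (min (s : ℝ) (n - s)) / n ≤ 2 * (2 * (n - s) / n) := by
      rw [show 2 * (2 * ((n : ℝ) - s) / n) = 4 * (n - s) / n by ring]
      gcongr
      exact min_le_right _ _
    linarith

theorem sum_sqrt (n : ℕ) : ∑ s ∈ range n, 1 / Real.sqrt (s + 1) ≤ 2 * Real.sqrt n := by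
  induction n with
  | zero => simp
  | succ n ih =>
    rw [sum_range_succ]
    have h1 : (0 : ℝ) < Real.sqrt (n + 1) := Real.sqrt_pos.mpr (by positivity)
    have h0 : (0 : ℝ) ≤ Real.sqrt n := Real.sqrt_nonneg _
    have h2 : Real.sqrt (n + 1) ^ 2 = n + 1 := Real.sq_sqrt (by positivity)
    have h3 : Real.sqrt n ^ 2 = n := Real.sq_sqrt (by positivity)
    have h4 : 1 / Real.sqrt (n + 1) ≤ 2 * Real.sqrt (n + 1) - 2 * Real.sqrt n := by
      rw [div_le_iff₀ h1]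
      nlinarith [sq_nonneg (Real.sqrt (n + 1) - Real.sqrt n)]
    push_cast
    linarith

/-- the weight -/
noncomputable def h (n : ℕ) (w : ℂ) : ℝ := 1 / Real.sqrt (‖1 - w‖ + 1 / n)

theorem h_bound (n : ℕ) (hn : 0 < n) (s : ℕ) (hs : s < n) :
    h n (Complex.exp (2 * Real.pi * Complex.I / n) ^ s) ≤
      Real.sqrt n * (1 / Real.sqrt (s + 1)) + Real.sqrt n * (1 / Real.sqrt (((n - 1 - s : ℕ) : ℝ) + 1)) := by
  have hn' : (0 : ℝ) < n := by exact_mod_cast hn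
  have hs' : (s : ℝ) + 1 ≤ n := by exact_mod_cast hs
  have hs0 : (0 : ℝ) ≤ s := Nat.cast_nonneg s
  have hc := chord n s hn hs.le
  have hcast : (((n - 1 - s : ℕ) : ℝ)) + 1 = n - s := by
    have : n - 1 - s + 1 + s = n := by omega
    have h2 : ((n - 1 - s : ℕ) : ℝ) + 1 + s = n := by exact_mod_cast this
    linarith
  rw [hcast]
  have hns : (0 : ℝ) < n - s := by linarith
  have hA : 0 ≤ Real.sqrt n * (1 / Real.sqrt (s + 1)) := by positivity
  have hB : 0 ≤ Real.sqrt n * (1 / Real.sqrt (n - s)) := by positivity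
  unfold h
  rcases le_total (s : ℝ) (n - s) with hle | hle
  · rw [min_eq_left hle] at hc
    have h1 : ((s : ℝ) + 1) / n ≤
        ‖(1 : ℂ) - Complex.exp (2 * Real.pi * Complex.I / n) ^ s‖ + 1 / n := by
      have : ((s : ℝ) + 1) / n ≤ 4 * s / n + 1 / n := by
        rw [← add_div]
        gcongr
        linarith
      linarith
    have h2 : 1 / Real.sqrt (‖(1 : ℂ) - Complex.exp (2 * Real.pi * Complex.I / n) ^ s‖ + 1 / n) ≤
        1 / Real.sqrt (((s : ℝ) + 1) / n) := by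
      apply one_div_le_one_div_of_le
      · exact Real.sqrt_pos.mpr (by positivity)
      · exact Real.sqrt_le_sqrt h1
    have h3 : 1 / Real.sqrt (((s : ℝ) + 1) / n) = Real.sqrt n * (1 / Real.sqrt (s + 1)) := by
      rw [Real.sqrt_div (by positivity)]
      field_simp
    linarith
  · rw [min_eq_right hle] at hc
    have h1 : ((n : ℝ) - s) / n ≤
        ‖(1 : ℂ) - Complex.exp (2 * Real.pi * Complex.I / n) ^ s‖ + 1 / n := by
      have h5 : ((n : ℝ) - s) / n ≤ 4 * (n - s) / n := by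
        gcongr
        linarith
      have h6 : (0 : ℝ) ≤ 1 / n := by positivity
      linarith
    have h2 : 1 / Real.sqrt (‖(1 : ℂ) - Complex.exp (2 * Real.pi * Complex.I / n) ^ s‖ + 1 / n) ≤
        1 / Real.sqrt (((n : ℝ) - s) / n) := by
      apply one_div_le_one_div_of_le
      · exact Real.sqrt_pos.mpr (by positivity)
      · exact Real.sqrt_le_sqrt h1
    have h3 : 1 / Real.sqrt (((n : ℝ) - s) / n) = Real.sqrt n * (1 / Real.sqrt (n - s)) := by
      rw [Real.sqrt_div hns.le]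
      field_simp
    linarith

theorem sum_h_exp (n : ℕ) (hn : 0 < n) :
    ∑ s ∈ range n, h n (Complex.exp (2 * Real.pi * Complex.I / n) ^ s) ≤ 4 * n := by
  have h1 : ∑ s ∈ range n, h n (Complex.exp (2 * Real.pi * Complex.I / n) ^ s) ≤
      ∑ s ∈ range n, (Real.sqrt n * (1 / Real.sqrt (s + 1)) +
        Real.sqrt n * (1 / Real.sqrt (((n - 1 - s : ℕ) : ℝ) + 1))) :=
    sum_le_sum (fun s hs => h_bound n hn s (mem_range.mp hs))
  refine h1.trans ?_
  rw [sum_add_distrib, sum_range_reflect (fun s : ℕ => Real.sqrt n * (1 / Real.sqrt ((s : ℝ) + 1)))]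
  rw [← mul_sum]
  have h2 := sum_sqrt n
  have h3 : Real.sqrt n * Real.sqrt n = n := Real.mul_self_sqrt (Nat.cast_nonneg n)
  nlinarith [Real.sqrt_nonneg (n : ℝ), mul_le_mul_of_nonneg_left h2 (Real.sqrt_nonneg (n : ℝ))]

theorem image_pow (n : ℕ) (hn : 0 < n) (ζ : ℂ) (hz : IsPrimitiveRoot ζ n) :
    (range n).image (fun t => ζ ^ t) = Polynomial.nthRootsFinset n (1 : ℂ) := by
  apply Finset.eq_of_subset_of_card_le
  · intro w hw
    obtain ⟨t, -, rfl⟩ := Finset.mem_image.mp hw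
    rw [Polynomial.mem_nthRootsFinset hn, ← pow_mul, mul_comm, pow_mul, hz.pow_eq_one, one_pow]
  · rw [hz.card_nthRootsFinset, Finset.card_image_of_injOn, card_range]
    intro a ha b hb hab
    exact hz.pow_inj (mem_range.mp ha) (mem_range.mp hb) hab

theorem sum_pow_eq (n : ℕ) (hn : 0 < n) (ζ η : ℂ) (hz : IsPrimitiveRoot ζ n)
    (he : IsPrimitiveRoot η n) (H : ℂ → ℝ) :
    ∑ t ∈ range n, H (ζ ^ t) = ∑ t ∈ range n, H (η ^ t) := by
  have key : ∀ ζ : ℂ, IsPrimitiveRoot ζ n →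
      ∑ t ∈ range n, H (ζ ^ t) = ∑ w ∈ Polynomial.nthRootsFinset n (1 : ℂ), H w := by
    intro ζ hz
    rw [← image_pow n hn ζ hz, Finset.sum_image]
    intro a ha b hb hab
    exact hz.pow_inj (mem_range.mp ha) (mem_range.mp hb) hab
  rw [key ζ hz, key η he]

theorem sum_h (n q : ℕ) (hn : 0 < n) (ζ : ℂ) (hz : IsPrimitiveRoot ζ n) :
    ∑ t ∈ range (n * q), h n (ζ ^ t) ≤ 4 * (n * q : ℕ) := by
  have hexp : IsPrimitiveRoot (Complex.exp (2 * Real.pi * Complex.I / n)) n :=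
    Complex.isPrimitiveRoot_exp n hn.ne'
  have h1 : ∑ t ∈ range n, h n (ζ ^ t) ≤ 4 * n := by
    rw [sum_pow_eq n hn ζ _ hz hexp]
    exact sum_h_exp n hn
  induction q with
  | zero => simp
  | succ q ih =>
    rw [Nat.mul_succ, Finset.sum_range_add]
    have h2 : ∀ t, ζ ^ (n * q + t) = ζ ^ t := by
      intro t
      rw [pow_add, pow_mul, hz.pow_eq_one, one_pow, one_mul]
    simp only [h2]
    push_cast at ih ⊢
    linarith

/-- the denominator -/
noncomputable def S (ζ : ℂ) (w : Fin 4 → ℂ) : ℝ := ‖1 - ζ‖ ^ 2 + ∑ j, ‖1 - w j‖ ^ 2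

theorem amgm (n : ℕ) (hn : 0 < n) (ζ : ℂ) (w : Fin 4 → ℂ) (h0 : 4 / (n : ℝ) ≤ ‖1 - ζ‖) :
    1 / S ζ w ≤ (1 / 2) * ∏ j, h n (w j) := by
  have hn' : (0 : ℝ) < n := by exact_mod_cast hn
  set d : ℝ := 1 / n with hd
  have hd0 : 0 < d := by positivity
  have h0' : 4 * d ≤ ‖1 - ζ‖ := by
    rw [hd]; rw [show 4 * (1 / (n : ℝ)) = 4 / n by ring]; exact h0
  have hpos : ∀ j, 0 < ‖1 - w j‖ + d := fun j => by positivity
  set r : Fin 4 → ℝ := fun j => Real.sqrt (‖1 - w j‖ + d) with hr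
  have hrpos : ∀ j, 0 < r j := fun j => Real.sqrt_pos.mpr (hpos j)
  have hr2 : ∀ j, r j ^ 2 = ‖1 - w j‖ + d := fun j => Real.sq_sqrt (hpos j).le
  have hr4 : ∀ j, r j ^ 4 ≤ 2 * ‖1 - w j‖ ^ 2 + 2 * d ^ 2 := by
    intro j
    have : r j ^ 4 = (r j ^ 2) ^ 2 := by ring
    rw [this, hr2]
    nlinarith [sq_nonneg (‖1 - w j‖ - d)]
  have hS : 2 * (r 0 * r 1 * r 2 * r 3) ≤ S ζ w := by
    unfold S
    rw [Fin.sum_univ_four]
    have e0 := hr4 0
    have e1 := hr4 1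
    have e2 := hr4 2
    have e3 := hr4 3
    have e4 : 16 * d ^ 2 ≤ ‖1 - ζ‖ ^ 2 := by nlinarith [norm_nonneg (1 - ζ)]
    nlinarith [sq_nonneg (r 0 ^ 2 - r 1 ^ 2), sq_nonneg (r 2 ^ 2 - r 3 ^ 2),
      sq_nonneg (r 0 * r 1 - r 2 * r 3), sq_nonneg (‖1 - ζ‖)]
  have hP : 0 < r 0 * r 1 * r 2 * r 3 := by
    have := hrpos 0; have := hrpos 1; have := hrpos 2; have := hrpos 3
    positivity
  have hprod : ∏ j, h n (w j) = 1 / (r 0 * r 1 * r 2 * r 3) := by
    rw [Fin.prod_univ_four]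
    unfold h
    simp only [hr, hd]
    rw [div_mul_div_comm, div_mul_div_comm, div_mul_div_comm]
    norm_num
  rw [hprod]
  have : 1 / S ζ w ≤ 1 / (2 * (r 0 * r 1 * r 2 * r 3)) :=
    one_div_le_one_div_of_le (by positivity) hS
  refine this.trans (le_of_eq ?_)
  field_simp

theorem h_nonneg (n : ℕ) (w : ℂ) : 0 ≤ h n w := by unfold h; positivity

theorem avg (N : ℕ) (hN : 0 < N) (ζ : ℂ) (h1 : ζ ^ N = 1) (h2 : ζ ≠ 1) :
    ∑ t : Fin 4 → Fin N, 1 / S ζ (fun j => ζ ^ (t j : ℕ)) ≤ 128 * (N : ℝ) ^ 4 := by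
  set n := orderOf ζ with hn_def
  have hdvd : n ∣ N := orderOf_dvd_of_pow_eq_one h1
  have hn : 0 < n := Nat.pos_of_dvd_of_pos hdvd hN
  have hn' : (0 : ℝ) < n := by exact_mod_cast hn
  have hz : IsPrimitiveRoot ζ n := IsPrimitiveRoot.orderOf ζ
  obtain ⟨q, rfl⟩ := hdvd
  have hexp : IsPrimitiveRoot (Complex.exp (2 * Real.pi * Complex.I / n)) n :=
    Complex.isPrimitiveRoot_exp n hn.ne'
  have h0 : 4 / (n : ℝ) ≤ ‖1 - ζ‖ := by
    haveI : NeZero n := ⟨hn.ne'⟩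
    obtain ⟨s, hs, hs2⟩ := hexp.eq_pow_of_pow_eq_one hz.pow_eq_one
    have hs0 : s ≠ 0 := by
      rintro rfl
      exact h2 (by rw [← hs2, pow_zero])
    have hs1 : (1 : ℝ) ≤ s := by exact_mod_cast Nat.one_le_iff_ne_zero.mpr hs0
    have hs3 : (s : ℝ) + 1 ≤ n := by exact_mod_cast hs
    have := chord n s hn hs.le
    rw [hs2] at this
    refine le_trans ?_ this
    gcongr
    have : (1 : ℝ) ≤ min (s : ℝ) (n - s) := le_min hs1 (by linarith)
    linarith
  have hstep : ∑ t : Fin 4 → Fin (n * q), 1 / S ζ (fun j => ζ ^ (t j : ℕ)) ≤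
      ∑ t : Fin 4 → Fin (n * q), (1 / 2) * ∏ j, h n (ζ ^ (t j : ℕ)) :=
    sum_le_sum (fun t _ => amgm n hn ζ _ h0)
  refine hstep.trans ?_
  rw [← mul_sum, ← Fintype.sum_pow (fun t : Fin (n * q) => h n (ζ ^ (t : ℕ))) 4,
    Fin.sum_univ_eq_sum_range (fun t => h n (ζ ^ t)) (n * q)]
  have h3 := sum_h n q hn ζ hz
  have h4 : 0 ≤ ∑ t ∈ range (n * q), h n (ζ ^ t) := sum_nonneg (fun t _ => h_nonneg n _)
  have h5 : (∑ t ∈ range (n * q), h n (ζ ^ t)) ^ 4 ≤ (4 * ((n * q : ℕ) : ℝ)) ^ 4 := by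
    gcongr
  have h6 : (4 * ((n * q : ℕ) : ℝ)) ^ 4 = 256 * ((n * q : ℕ) : ℝ) ^ 4 := by ring
  linarith

end Pool.Agent.Helper864.Tilf
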