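import Mathlib
import Pool.Agent.Helper864.TilfA

set_option autoImplicit false

namespace Pool.Agent.Helper864.Tilf

open Finset

variable (p : ℕ) [Fact p.Prime]

/-- characters of `ℤ_p` that are trivial on some `p^k ℤ_p` -/
abbrev X : Type := {χ : AddChar ℤ_[p] ℂ // ∃ k : ℕ, ∀ x : ℤ_[p], χ ((p : ℤ_[p]) ^ k * x) = 1}

variable {p}

theorem X.sub_mem (χ : X p) : ∃ k : ℕ, ∀ x y : ℤ_[p],
    y - x ∈ (Ideal.span {(p : ℤ_[p]) ^ k} : Ideal ℤ_[p]) → χ.1 y = χ.1 x := by
  obtain ⟨k, hk⟩ := χ.2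
  refine ⟨k, fun x y h => ?_⟩
  obtain ⟨z, hz⟩ := Ideal.mem_span_singleton'.mp h
  have h1 : y = x + (p : ℤ_[p]) ^ k * z := by
    rw [mul_comm] at hz
    rw [hz]; ring
  rw [h1, AddChar.map_add_eq_mul, hk, mul_one]

theorem X.continuous (χ : X p) : Continuous χ.1 := by
  obtain ⟨k, hk⟩ := χ.sub_mem
  rw [Metric.continuous_iff]
  intro x ε hε
  have hp : (0 : ℝ) < p := by exact_mod_cast (Fact.out : p.Prime).pos
  refine ⟨(p : ℝ) ^ (-(k : ℤ)), by positivity, fun y hy => ?_⟩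
  have h1 : y - x ∈ (Ideal.span {(p : ℤ_[p]) ^ k} : Ideal ℤ_[p]) := by
    rw [← PadicInt.norm_le_pow_iff_mem_span_pow]
    rw [dist_eq_norm] at hy
    exact hy.le
  rw [hk x y h1, dist_self]
  exact hε

theorem X.pow_eq (χ : X p) (x : ℤ_[p]) (N : ℕ) : χ.1 x ^ N = χ.1 ((N : ℤ_[p]) * x) := by
  rw [← AddChar.map_nsmul_eq_pow, nsmul_eq_mul]

theorem X.norm_eq (χ : X p) (x : ℤ_[p]) : ‖χ.1 x‖ = 1 := by
  obtain ⟨k, hk⟩ := χ.2
  have h1 : χ.1 x ^ (p ^ k) = 1 := by
    rw [χ.pow_eq]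
    push_cast
    exact hk x
  exact Complex.norm_eq_one_of_pow_eq_one h1 (pow_ne_zero k (Fact.out : p.Prime).ne_zero)

theorem X.eq_one (χ : X p) (h : χ.1 1 = 1) (x : ℤ_[p]) : χ.1 x = 1 := by
  obtain ⟨k, hk⟩ := χ.sub_mem
  have h1 := hk (x.appr k : ℤ_[p]) x (PadicInt.appr_spec k x)
  rw [h1]
  have h2 : ((x.appr k : ℕ) : ℤ_[p]) = ((x.appr k : ℕ) : ℤ_[p]) * 1 := by ring
  rw [h2, ← χ.pow_eq, h, one_pow]

theorem X.level (F : Finset (X p)) : ∃ N : ℕ, 0 < N ∧ ∀ χ ∈ F, χ.1 1 ^ N = 1 := by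
  classical
  induction F using Finset.induction_on with
  | empty => exact ⟨1, one_pos, by simp⟩
  | insert χ F hχ ih =>
    obtain ⟨N, hN, hF⟩ := ih
    obtain ⟨k, hk⟩ := χ.2
    refine ⟨p ^ k * N, Nat.mul_pos (pow_pos (Fact.out : p.Prime).pos k) hN, ?_⟩
    intro ψ hψ
    rcases Finset.mem_insert.mp hψ with rfl | h
    · rw [pow_mul, ψ.pow_eq]
      push_cast
      rw [hk, one_pow]
    · rw [mul_comm, pow_mul, hF ψ h, one_pow]

theorem S_nonneg (ζ : ℂ) (w : Fin 4 → ℂ) : 0 ≤ S ζ w := by unfold S; positivity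

theorem S_pos (ζ : ℂ) (w : Fin 4 → ℂ) (h : ζ ≠ 1) : 0 < S ζ w := by
  unfold S
  have : 0 < ‖1 - ζ‖ := norm_pos_iff.mpr (sub_ne_zero.mpr h.symm)
  positivity

theorem S_one (χ : X p) (a : Fin 4 → ℤ_[p]) (h : χ.1 1 = 1) :
    S (χ.1 1) (fun j => χ.1 (a j)) = 0 := by
  unfold S
  simp [h, χ.eq_one h]

theorem fin_step (w : X p → ℝ) (hw : ∀ χ, 0 ≤ w χ) (F : Finset (X p)) :
    ∃ a : Fin 4 → ℤ_[p], ∑ χ ∈ F, w χ / S (χ.1 1) (fun j => χ.1 (a j)) ≤ 128 * ∑ χ ∈ F, w χ := by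
  obtain ⟨N, hN, hF⟩ := X.level F
  have : NeZero N := ⟨hN.ne'⟩
  let a : (Fin 4 → Fin N) → (Fin 4 → ℤ_[p]) := fun t j => ((t j : ℕ) : ℤ_[p])
  have key : ∑ t : Fin 4 → Fin N, ∑ χ ∈ F, w χ / S (χ.1 1) (fun j => χ.1 (a t j)) ≤
      ∑ _t : Fin 4 → Fin N, 128 * ∑ χ ∈ F, w χ := by
    rw [Finset.sum_comm]
    simp only [Finset.sum_const, Finset.card_univ, Fintype.card_fun, Fintype.card_fin, nsmul_eq_mul]
    rw [Finset.mul_sum, Finset.mul_sum]
    apply Finset.sum_le_sum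
    intro χ hχ
    have hs : ∑ t : Fin 4 → Fin N, w χ / S (χ.1 1) (fun j => χ.1 (a t j)) =
        w χ * ∑ t : Fin 4 → Fin N, 1 / S (χ.1 1) (fun j => χ.1 (a t j)) := by
      rw [Finset.mul_sum]
      apply Finset.sum_congr rfl
      intro t _
      rw [mul_one_div]
    rw [hs]
    have h128 : ∑ t : Fin 4 → Fin N, 1 / S (χ.1 1) (fun j => χ.1 (a t j)) ≤ 128 * (N : ℝ) ^ 4 := by
      by_cases h1 : χ.1 1 = 1
      · simp only [S_one χ _ h1]
        simp only [div_zero, Finset.sum_const_zero]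
        positivity
      · have hval : ∀ t : Fin 4 → Fin N, (fun j => χ.1 (a t j)) = fun j => χ.1 1 ^ (t j : ℕ) := by
          intro t
          funext j
          rw [χ.pow_eq, mul_one]
        simp only [hval]
        exact avg N hN (χ.1 1) (hF χ hχ) h1
    have := mul_le_mul_of_nonneg_left h128 (hw χ)
    push_cast
    linarith
  obtain ⟨t, -, ht⟩ := Finset.exists_le_of_sum_le (Finset.univ_nonempty) key
  exact ⟨a t, ht⟩

theorem exists_a (w : X p → ℝ) (hw : ∀ χ, 0 ≤ w χ) (hs : Summable w) :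
    ∃ a : Fin 4 → ℤ_[p], Summable (fun χ : X p => w χ / S (χ.1 1) (fun j => χ.1 (a j))) := by
  classical
  set W : ℝ := ∑' χ, w χ with hW
  let C : Finset (X p) → Set (Fin 4 → ℤ_[p]) := fun F =>
    {a | ∑ χ ∈ F, w χ / S (χ.1 1) (fun j => χ.1 (a j)) ≤ 128 * W}
  have hne : (⋂ F, C F).Nonempty := by
    apply IsCompact.nonempty_iInter_of_directed_nonempty_isCompact_isClosed
    · intro F G
      refine ⟨F ∪ G, ?_, ?_⟩
      · intro a ha
        have ha' : ∑ χ ∈ F ∪ G, w χ / S (χ.1 1) (fun j => χ.1 (a j)) ≤ 128 * W := ha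
        show ∑ χ ∈ F, w χ / S (χ.1 1) (fun j => χ.1 (a j)) ≤ 128 * W
        refine le_trans ?_ ha'
        exact Finset.sum_le_sum_of_subset_of_nonneg Finset.subset_union_left
          (fun χ _ _ => div_nonneg (hw χ) (S_nonneg _ _))
      · intro a ha
        have ha' : ∑ χ ∈ F ∪ G, w χ / S (χ.1 1) (fun j => χ.1 (a j)) ≤ 128 * W := ha
        show ∑ χ ∈ G, w χ / S (χ.1 1) (fun j => χ.1 (a j)) ≤ 128 * W
        refine le_trans ?_ ha'
        exact Finset.sum_le_sum_of_subset_of_nonneg Finset.subset_union_right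
          (fun χ _ _ => div_nonneg (hw χ) (S_nonneg _ _))
    · intro F
      obtain ⟨a, ha⟩ := fin_step w hw F
      refine ⟨a, ha.trans ?_⟩
      have : ∑ χ ∈ F, w χ ≤ W := hs.sum_le_tsum F (fun χ _ => hw χ)
      linarith
    · intro F
      apply IsClosed.isCompact
      apply isClosed_le _ continuous_const
      apply continuous_finsetSum
      intro χ _
      by_cases h1 : χ.1 1 = 1
      · have : (fun a : Fin 4 → ℤ_[p] => w χ / S (χ.1 1) (fun j => χ.1 (a j))) = fun _ => 0 := by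
          funext a
          rw [S_one χ a h1, div_zero]
        rw [this]
        exact continuous_const
      · apply Continuous.div continuous_const
        · unfold S
          have hc := χ.continuous
          fun_prop
        · intro a
          exact (S_pos _ _ h1).ne'
    · intro F
      apply isClosed_le _ continuous_const
      apply continuous_finsetSum
      intro χ _
      by_cases h1 : χ.1 1 = 1
      · have : (fun a : Fin 4 → ℤ_[p] => w χ / S (χ.1 1) (fun j => χ.1 (a j))) = fun _ => 0 := by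
          funext a
          rw [S_one χ a h1, div_zero]
        rw [this]
        exact continuous_const
      · apply Continuous.div continuous_const
        · unfold S
          have hc := χ.continuous
          fun_prop
        · intro a
          exact (S_pos _ _ h1).ne'
  obtain ⟨a, ha⟩ := hne
  refine ⟨a, ?_⟩
  apply summable_of_sum_le (c := 128 * W)
  · intro χ
    exact div_nonneg (hw χ) (S_nonneg _ _)
  · intro F
    exact Set.mem_iInter.mp ha F

end Pool.Agent.Helper864.Tilf
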