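import Mathlib
import Pool.Agent.Helper864.TilfB

set_option autoImplicit false

noncomputable section

namespace Pool.Agent.Helper864.Tilf

open MeasureTheory Submodule Algebra

variable {p : ℕ} [Fact p.Prime]

/-- character as a continuous map -/
def X.toC (χ : X p) : C(ℤ_[p], ℂ) := ⟨χ.1, χ.continuous⟩

/-- trivial character -/
def X.one : X p := ⟨1, 0, by simp⟩

/-- product of characters -/
def X.mul (χ ψ : X p) : X p := ⟨χ.1 * ψ.1, by
  obtain ⟨k, hk⟩ := χ.2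
  obtain ⟨l, hl⟩ := ψ.2
  refine ⟨k + l, fun x => ?_⟩
  rw [AddChar.mul_apply]
  have h1 : (p : ℤ_[p]) ^ (k + l) * x = (p : ℤ_[p]) ^ k * ((p : ℤ_[p]) ^ l * x) := by ring
  have h2 : (p : ℤ_[p]) ^ (k + l) * x = (p : ℤ_[p]) ^ l * ((p : ℤ_[p]) ^ k * x) := by ring
  rw [h1, hk]
  rw [← h1, h2, hl, one_mul]⟩

/-- inverse character -/
def X.inv (χ : X p) : X p := ⟨χ.1⁻¹, by
  obtain ⟨k, hk⟩ := χ.2
  refine ⟨k, fun x => ?_⟩
  rw [AddChar.inv_apply, ← mul_neg, hk]⟩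

/-- the character `x ↦ e(x mod p^k / p^k)` -/
def X.std (k : ℕ) : X p := ⟨(ZMod.stdAddChar (N := p ^ k)).compAddMonoidHom
    (PadicInt.toZModPow (p := p) k).toAddMonoidHom, k, by
  intro x
  have h : PadicInt.toZModPow (p := p) k ((p : ℤ_[p]) ^ k * x) = 0 := by
    rw [← RingHom.mem_ker, PadicInt.ker_toZModPow]
    exact Ideal.mem_span_singleton.mpr (dvd_mul_right _ _)
  rw [AddChar.compAddMonoidHom_apply]
  change (ZMod.stdAddChar (N := p ^ k)) (PadicInt.toZModPow (p := p) k ((p : ℤ_[p]) ^ k * x)) = 1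
  rw [h, AddChar.map_zero_eq_one]⟩

theorem exists_sep (x y : ℤ_[p]) (hxy : x ≠ y) : ∃ χ : X p, χ.1 x ≠ χ.1 y := by
  by_contra hcon
  push Not at hcon
  apply hxy
  rw [← PadicInt.ext_of_toZModPow]
  intro k
  have h := hcon (X.std k)
  change (ZMod.stdAddChar (N := p ^ k)) (PadicInt.toZModPow (p := p) k x) =
    (ZMod.stdAddChar (N := p ^ k)) (PadicInt.toZModPow (p := p) k y) at h
  exact ZMod.injective_stdAddChar h

/-- The star subalgebra generated by characters -/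
def sub (p : ℕ) [Fact p.Prime] : StarSubalgebra ℂ C(ℤ_[p], ℂ) where
  toSubalgebra := Algebra.adjoin ℂ (Set.range (X.toC (p := p)))
  star_mem' := by
    change Algebra.adjoin ℂ (Set.range (X.toC (p := p))) ≤
      star (Algebra.adjoin ℂ (Set.range (X.toC (p := p))))
    refine adjoin_le ?_
    rintro - ⟨χ, rfl⟩
    refine subset_adjoin ⟨χ.inv, ?_⟩
    ext x
    change (χ.1⁻¹ : AddChar ℤ_[p] ℂ) x = (starRingEnd ℂ) (χ.1 x)
    rw [AddChar.inv_apply, AddChar.map_neg_eq_inv, Complex.inv_eq_conj (χ.norm_eq x)]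

theorem sub_coe :
    Subalgebra.toSubmodule (sub p).toSubalgebra = span ℂ (Set.range (X.toC (p := p))) := by
  apply adjoin_eq_span_of_subset
  refine Set.Subset.trans ?_ Submodule.subset_span
  intro x hx
  refine Submonoid.closure_induction (fun _ => id) ⟨X.one, ?_⟩ ?_ hx
  · ext1 z; rfl
  · rintro - - - - ⟨m, rfl⟩ ⟨n, rfl⟩
    refine ⟨m.mul n, ?_⟩
    ext1 z
    rfl

theorem sub_sep : (sub p).SeparatesPoints := by
  intro x y hxy
  obtain ⟨χ, hχ⟩ := exists_sep x y hxy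
  exact ⟨_, ⟨χ.toC, subset_adjoin ⟨χ, rfl⟩, rfl⟩, hχ⟩

theorem sub_top : (sub p).topologicalClosure = ⊤ :=
  ContinuousMap.starSubalgebra_topologicalClosure_eq_top_of_separatesPoints (sub p) sub_sep

theorem span_top : (span ℂ (Set.range (X.toC (p := p)))).topologicalClosure = ⊤ := by
  rw [← sub_coe]
  exact congr_arg (Subalgebra.toSubmodule <| StarSubalgebra.toSubalgebra ·) sub_top

section measure

variable [MeasurableSpace ℤ_[p]] [BorelSpace ℤ_[p]] (μ : Measure ℤ_[p]) [μ.IsAddHaarMeasure]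

/-- unnormalised vector of a character -/
def ev (χ : X p) : Lp ℂ 2 μ := ContinuousMap.toLp (E := ℂ) 2 μ ℂ χ.toC

theorem ev_ae (χ : X p) : (ev μ χ : ℤ_[p] → ℂ) =ᵐ[μ] χ.1 :=
  ContinuousMap.coeFn_toLp μ χ.toC

theorem span_ev_top : (span ℂ (Set.range (ev (p := p) μ))).topologicalClosure = ⊤ := by
  have h := (ContinuousMap.toLp_denseRange ℂ μ ℂ (p := 2)
    (by norm_num)).topologicalClosure_map_submodule (span_top (p := p))
  rw [map_span] at h
  rw [← h]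
  congr 1
  congr 1
  ext y
  constructor
  · rintro ⟨χ, rfl⟩
    exact ⟨χ.toC, ⟨χ, rfl⟩, rfl⟩
  · rintro ⟨-, ⟨χ, rfl⟩, rfl⟩
    exact ⟨χ, rfl⟩

/-- translation by `a` as a linear isometry -/
def tau (a : ℤ_[p]) : Lp ℂ 2 μ →ₗᵢ[ℂ] Lp ℂ 2 μ :=
  Lp.compMeasurePreservingₗᵢ ℂ (fun x => x + a) (measurePreserving_add_right μ a)

theorem tau_ae (a : ℤ_[p]) (f : Lp ℂ 2 μ) :
    (tau μ a f : ℤ_[p] → ℂ) =ᵐ[μ] fun x => (f : ℤ_[p] → ℂ) (x + a) :=
  Lp.coeFn_compMeasurePreserving f (measurePreserving_add_right μ a)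

theorem tau_ev (a : ℤ_[p]) (χ : X p) : tau μ a (ev μ χ) = χ.1 a • ev μ χ := by
  apply Lp.ext
  have h1 := tau_ae μ a (ev μ χ)
  have h2 : (fun x => (ev μ χ : ℤ_[p] → ℂ) (x + a)) =ᵐ[μ] fun x => χ.1 (x + a) :=
    (measurePreserving_add_right μ a).quasiMeasurePreserving.ae_eq_comp (ev_ae μ χ)
  have h3 := Lp.coeFn_smul (χ.1 a) (ev μ χ)
  filter_upwards [h1, h2, h3, ev_ae μ χ] with x e1 e2 e3 e4
  rw [e1, e2, e3, Pi.smul_apply, e4, AddChar.map_add_eq_mul, smul_eq_mul, mul_comm]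

end measure

end Pool.Agent.Helper864.Tilf

end
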