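import Mathlib
import Pool.Agent.Helper864.TilfC

set_option autoImplicit false

noncomputable section

namespace Pool.Agent.Helper864.Tilf

open MeasureTheory Submodule
open scoped InnerProductSpace

variable {p : ℕ} [Fact p.Prime]
variable [MeasurableSpace ℤ_[p]] [BorelSpace ℤ_[p]] (μ : Measure ℤ_[p]) [μ.IsAddHaarMeasure]

theorem inner_tau_ev (a : ℤ_[p]) (χ : X p) (g : Lp ℂ 2 μ) :
    ⟪ev μ χ, tau μ a g⟫_ℂ = χ.1 a * ⟪ev μ χ, g⟫_ℂ := by
  have h := (tau μ a).inner_map_map (ev μ χ) g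
  rw [tau_ev, inner_smul_left] at h
  rw [← h, ← mul_assoc, Complex.mul_conj, Complex.normSq_eq_norm_sq, χ.norm_eq]
  simp

theorem ev_orth (χ ψ : X p) (h : χ ≠ ψ) : ⟪ev μ χ, ev μ ψ⟫_ℂ = 0 := by
  by_contra hne
  apply h
  apply Subtype.ext
  ext a
  have h1 := inner_tau_ev μ a χ (ev μ ψ)
  rw [tau_ev, inner_smul_right] at h1
  exact (mul_right_cancel₀ hne h1).symm

theorem ev_ne_zero (χ : X p) : ev μ χ ≠ 0 := by
  intro h0
  have h1 := ev_ae μ χ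
  rw [h0] at h1
  have h2 := Lp.coeFn_zero ℂ 2 μ
  have h3 : ∀ᵐ _x ∂μ, False := by
    filter_upwards [h1, h2] with x e1 e2
    rw [e2] at e1
    have := χ.norm_eq x
    rw [← e1] at this
    simp at this
  rw [Filter.eventually_false_iff_eq_bot, ae_eq_bot] at h3
  exact NeZero.ne μ h3

/-- normalised vector of a character -/
def en (χ : X p) : Lp ℂ 2 μ := ((‖ev μ χ‖⁻¹ : ℝ) : ℂ) • ev μ χ

theorem norm_ev_pos (χ : X p) : 0 < ‖ev μ χ‖ := norm_pos_iff.mpr (ev_ne_zero μ χ)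

theorem inner_tau_en (a : ℤ_[p]) (χ : X p) (g : Lp ℂ 2 μ) :
    ⟪en μ χ, tau μ a g⟫_ℂ = χ.1 a * ⟪en μ χ, g⟫_ℂ := by
  unfold en
  rw [inner_smul_left, inner_smul_left, inner_tau_ev]
  ring

theorem en_orthonormal : Orthonormal ℂ (en (p := p) μ) := by
  constructor
  · intro χ
    unfold en
    rw [norm_smul, Complex.norm_real, norm_inv, norm_norm]
    exact inv_mul_cancel₀ (norm_ev_pos μ χ).ne'
  · intro χ ψ h
    unfold en
    simp only [inner_smul_left, inner_smul_right, ev_orth μ χ ψ h, mul_zero]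

theorem en_top : ⊤ ≤ (span ℂ (Set.range (en (p := p) μ))).topologicalClosure := by
  rw [← span_ev_top μ]
  apply Submodule.topologicalClosure_mono
  rw [Submodule.span_le]
  rintro - ⟨χ, rfl⟩
  have h : ev μ χ = ((‖ev μ χ‖ : ℝ) : ℂ) • en μ χ := by
    unfold en
    rw [smul_smul, ← Complex.ofReal_mul, mul_inv_cancel₀ (norm_ev_pos μ χ).ne', Complex.ofReal_one,
      one_smul]
  rw [h]
  exact Submodule.smul_mem _ _ (Submodule.subset_span ⟨χ, rfl⟩)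

/-- the Hilbert basis of characters -/
def bas : HilbertBasis (X p) ℂ (Lp ℂ 2 μ) := HilbertBasis.mk (en_orthonormal μ) (en_top μ)

theorem bas_apply (χ : X p) : bas μ χ = en μ χ := by
  unfold bas
  rw [HilbertBasis.coe_mk]

theorem inner_tau (a : ℤ_[p]) (χ : X p) (g : Lp ℂ 2 μ) :
    ⟪bas μ χ, tau μ a g⟫_ℂ = χ.1 a * ⟪bas μ χ, g⟫_ℂ := by
  rw [bas_apply, inner_tau_en]

theorem exists_g (f : Lp ℂ 2 μ) (s : X p → ℝ) (hs0 : ∀ χ, 0 ≤ s χ)
    (hs : Summable (fun χ : X p => ‖⟪bas μ χ, f⟫_ℂ‖ ^ 2 / s χ)) (u : ℤ_[p])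
    (hu : ∀ χ : X p, ‖1 - χ.1 u‖ ^ 2 ≤ s χ) :
    ∃ g : Lp ℂ 2 μ, ∀ χ : X p,
      ⟪bas μ χ, g⟫_ℂ = (starRingEnd ℂ) (1 - χ.1 u) * ⟪bas μ χ, f⟫_ℂ / (s χ : ℂ) := by
  let d : X p → ℂ := fun χ => (starRingEnd ℂ) (1 - χ.1 u) * ⟪bas μ χ, f⟫_ℂ / (s χ : ℂ)
  have hd : Memℓp d 2 := by
    apply memℓp_gen
    have e2 : ∀ x : ℝ, x ^ (2 : ENNReal).toReal = x ^ 2 := by
      intro x
      simp
    simp only [e2]
    refine Summable.of_nonneg_of_le (fun χ => by positivity) (fun χ => ?_) hs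
    simp only [d]
    rw [norm_div, norm_mul, Complex.norm_conj, Complex.norm_real, Real.norm_of_nonneg (hs0 χ)]
    rcases (hs0 χ).eq_or_lt with h | h
    · rw [← h]; simp
    · rw [div_pow, mul_pow, div_le_div_iff₀ (by positivity) h]
      have h1 := hu χ
      have h2 : 0 ≤ ‖⟪bas μ χ, f⟫_ℂ‖ ^ 2 := by positivity
      nlinarith [mul_le_mul_of_nonneg_right h1 (mul_nonneg h2 h.le)]
  refine ⟨(bas μ).repr.symm ⟨d, hd⟩, fun χ => ?_⟩
  rw [← HilbertBasis.repr_apply_apply, LinearIsometryEquiv.apply_symm_apply]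

theorem key (φ : Lp ℂ 2 μ →ₗ[ℂ] ℂ) (hφ : ∀ a f, φ (tau μ a f) = φ f) (f : Lp ℂ 2 μ)
    (hf : ⟪bas μ X.one, f⟫_ℂ = 0) : φ f = 0 := by
  have hsum : Summable (fun χ : X p => ‖⟪bas μ χ, f⟫_ℂ‖ ^ 2) :=
    (bas μ).orthonormal.inner_products_summable f
  obtain ⟨a, ha⟩ := exists_a (fun χ : X p => ‖⟪bas μ χ, f⟫_ℂ‖ ^ 2) (fun χ => by positivity) hsum
  set s : X p → ℝ := fun χ => S (χ.1 1) (fun j => χ.1 (a j)) with hsdef
  have hs0 : ∀ χ, 0 ≤ s χ := fun χ => S_nonneg _ _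
  obtain ⟨g0, hg0⟩ := exists_g μ f s hs0 ha 1 (by
    intro χ
    simp only [hsdef, S]
    have : 0 ≤ ∑ j, ‖1 - χ.1 (a j)‖ ^ 2 := Finset.sum_nonneg (fun j _ => by positivity)
    linarith)
  have hj : ∀ j : Fin 4, ∃ g : Lp ℂ 2 μ, ∀ χ : X p,
      ⟪bas μ χ, g⟫_ℂ = (starRingEnd ℂ) (1 - χ.1 (a j)) * ⟪bas μ χ, f⟫_ℂ / (s χ : ℂ) := by
    intro j
    apply exists_g μ f s hs0 ha (a j)
    intro χ
    simp only [hsdef, S]
    have h1 := Finset.single_le_sum (f := fun j => ‖1 - χ.1 (a j)‖ ^ 2)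
      (fun j _ => by positivity) (Finset.mem_univ j)
    have h2 : 0 ≤ ‖1 - χ.1 1‖ ^ 2 := by positivity
    linarith
  choose g hg using hj
  have hfe : f = (g0 - tau μ 1 g0) + ∑ j, (g j - tau μ (a j) (g j)) := by
    apply (bas μ).repr.injective
    ext χ
    rw [HilbertBasis.repr_apply_apply, HilbertBasis.repr_apply_apply, inner_add_right,
      inner_sub_right, inner_tau, inner_sum]
    simp only [inner_sub_right, inner_tau, hg, hg0]
    by_cases h1 : χ.1 1 = 1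
    · have hχ : χ = X.one := by
        apply Subtype.ext
        ext x
        rw [χ.eq_one h1 x]
        rfl
      rw [hχ, hf]
      simp
    · have hpos : 0 < s χ := S_pos _ _ h1
      have hne : (s χ : ℂ) ≠ 0 := by exact_mod_cast hpos.ne'
      have hc : ∀ z : ℂ, z * (starRingEnd ℂ) z = ((‖z‖ ^ 2 : ℝ) : ℂ) := by
        intro z
        rw [Complex.mul_conj, Complex.normSq_eq_norm_sq]
      have hS : (s χ : ℂ) = (1 - χ.1 1) * (starRingEnd ℂ) (1 - χ.1 1) +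
          ∑ j, (1 - χ.1 (a j)) * (starRingEnd ℂ) (1 - χ.1 (a j)) := by
        simp only [hc]
        simp only [hsdef, S]
        push_cast
        ring
      have hsumm : ∑ j, ((starRingEnd ℂ) (1 - χ.1 (a j)) * ⟪bas μ χ, f⟫_ℂ / (s χ : ℂ) -
          χ.1 (a j) * ((starRingEnd ℂ) (1 - χ.1 (a j)) * ⟪bas μ χ, f⟫_ℂ / (s χ : ℂ))) =
          (∑ j, (1 - χ.1 (a j)) * (starRingEnd ℂ) (1 - χ.1 (a j))) * (⟪bas μ χ, f⟫_ℂ / (s χ : ℂ)) := by
        rw [Finset.sum_mul]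
        apply Finset.sum_congr rfl
        intro j _
        ring
      rw [hsumm]
      have : ⟪bas μ χ, f⟫_ℂ = (s χ : ℂ) * (⟪bas μ χ, f⟫_ℂ / (s χ : ℂ)) := by
        field_simp
      rw [this]
      nth_rewrite 1 [hS]
      rw [← this]
      ring
  rw [hfe]
  simp only [map_add, map_sub, map_sum, hφ, sub_self, Finset.sum_const_zero, add_zero]

theorem tilf (φ : Lp ℂ 2 μ →ₗ[ℂ] ℂ) (hφ : ∀ a f, φ (tau μ a f) = φ f) : Continuous φ := by
  have h : ∀ f, φ f = ⟪bas μ X.one, f⟫_ℂ * φ (bas μ X.one) := by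
    intro f
    have h1 := key μ φ hφ (f - ⟪bas μ X.one, f⟫_ℂ • bas μ X.one) (by
      rw [inner_sub_right, inner_smul_right, inner_self_eq_norm_sq_to_K,
        (bas μ).orthonormal.1 X.one]
      simp)
    rw [map_sub, map_smul, smul_eq_mul] at h1
    exact sub_eq_zero.mp h1
  have h2 : (φ : Lp ℂ 2 μ → ℂ) = fun f => ⟪bas μ X.one, f⟫_ℂ * φ (bas μ X.one) := funext h
  rw [h2]
  fun_prop

/-- the form in which the problem files state the hypothesis -/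
theorem tilf' (φ : Lp ℂ 2 μ →ₗ[ℂ] ℂ)
    (hφ : ∀ (a : ℤ_[p]) (f g : Lp ℂ 2 μ),
      ((g : ℤ_[p] → ℂ) =ᵐ[μ] fun x => (f : ℤ_[p] → ℂ) (x + a)) → φ g = φ f) : Continuous φ :=
  tilf μ φ (fun a f => hφ a f (tau μ a f) (tau_ae μ a f))

end Pool.Agent.Helper864.Tilf

end
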