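import Mathlib

/-!
# Algebraic part of the zero-sum tree arguments (helper864)

Subset sums in a finite abelian group, an elementary Kneser-type bound for sums of two-element sets,
and a counting lemma producing a subgroup `L` all of which is realised by many flat indices.
-/

set_option autoImplicit false
open scoped Classical

namespace Pool.Agent.Helper864.ZST

section stab
variable {Γ : Type} [AddCommGroup Γ]

/-- translation stabilizer of a set -/
def st (A : Set Γ) : AddSubgroup Γ where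
  carrier := {g | ∀ x, x ∈ A ↔ g + x ∈ A}
  zero_mem' := by intro x; simp
  add_mem' := by
    intro a b ha hb x
    rw [hb x, ha (b + x), add_assoc]
  neg_mem' := by
    intro a ha x
    rw [ha (-a + x)]
    simp

lemma mem_st {A : Set Γ} {g : Γ} : g ∈ st A ↔ ∀ x, x ∈ A ↔ g + x ∈ A := Iff.rfl

variable {ι : Type}

/-- `A` plus the subset sums of `δ` over `F` -/
def SS (A : Set Γ) (F : Finset ι) (δ : ι → Γ) : Set Γ :=
  {g | ∃ a ∈ A, ∃ E : Finset ι, E ⊆ F ∧ g = a + ∑ i ∈ E, δ i}

lemma SS_empty (A : Set Γ) (δ : ι → Γ) : SS A ∅ δ = A := by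
  ext g
  constructor
  · rintro ⟨a, ha, E, hE, rfl⟩
    rw [Finset.subset_empty.1 hE]
    simpa using ha
  · intro h
    exact ⟨g, h, ∅, by simp, by simp⟩

lemma SS_insert (A : Set Γ) {F : Finset ι} (δ : ι → Γ) {i : ι} (hi : i ∉ F) :
    SS A (insert i F) δ = SS A F δ ∪ {g | g - δ i ∈ SS A F δ} := by
  ext g
  constructor
  · rintro ⟨a, ha, E, hE, rfl⟩
    by_cases h : i ∈ E
    · right
      refine ⟨a, ha, E.erase i, ?_, ?_⟩
      · intro j hj
        rw [Finset.mem_erase] at hj
        exact (Finset.mem_insert.1 (hE hj.2)).resolve_left hj.1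
      · rw [← Finset.add_sum_erase E δ h]
        abel
    · left
      refine ⟨a, ha, E, ?_, rfl⟩
      intro j hj
      exact (Finset.mem_insert.1 (hE hj)).resolve_left (fun hji => h (hji ▸ hj))
  · rintro (⟨a, ha, E, hE, rfl⟩ | ⟨a, ha, E, hE, h⟩)
    · exact ⟨a, ha, E, hE.trans (Finset.subset_insert _ _), rfl⟩
    · refine ⟨a, ha, insert i E, Finset.insert_subset_insert _ hE, ?_⟩
      rw [Finset.sum_insert (fun hiE => hi (hE hiE))]
      rw [sub_eq_iff_eq_add] at h
      rw [h]; abel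

lemma st_le_union (B : Set Γ) (d : Γ) : st B ≤ st (B ∪ {g | g - d ∈ B}) := by
  intro h hh x
  simp only [Set.mem_union, Set.mem_ofPred_eq]
  rw [hh x, hh (x - d), add_sub_assoc]

lemma not_subset_of_not_mem_st [Finite Γ] (B : Set Γ) (d : Γ) (hd : d ∉ st B) :
    ∃ g, g - d ∈ B ∧ g ∉ B := by
  by_contra hcon
  push Not at hcon
  apply hd
  -- B + d ⊆ B, finite, so equality
  have hfin : B.Finite := Set.toFinite B
  have himg : (fun x => d + x) '' B ⊆ B := by
    rintro _ ⟨x, hx, rfl⟩
    exact hcon (d + x) (by simpa using hx)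
  have heq : (fun x => d + x) '' B = B := by
    apply Set.eq_of_subset_of_ncard_le himg ?_ hfin
    rw [Set.ncard_image_of_injective _ (add_right_injective d)]
  intro x
  constructor
  · intro hx
    exact himg ⟨x, hx, rfl⟩
  · intro hx
    rw [← heq] at hx
    obtain ⟨y, hy, hyx⟩ := hx
    have : y = x := add_left_cancel hyx
    exact this ▸ hy

/-- If the stabilizer is trivial, every nonzero two-element summand adds at least one element. -/
lemma ncard_SS [Finite Γ] (A : Set Γ) (F : Finset ι) (δ : ι → Γ) (hst : st (SS A F δ) = ⊥) :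
    A.ncard + (F.filter (fun i => δ i ≠ 0)).card ≤ (SS A F δ).ncard := by
  induction F using Finset.induction_on with
  | empty => simp [SS_empty]
  | insert i F hi ih =>
    rw [SS_insert A δ hi] at hst ⊢
    have hst' : st (SS A F δ) = ⊥ := by
      apply le_antisymm _ bot_le
      rw [← hst]
      exact st_le_union _ _
    have ih' := ih hst'
    by_cases h0 : δ i = 0
    · rw [Finset.filter_insert, if_neg (by simpa using h0)]
      refine ih'.trans (Set.ncard_le_ncard Set.subset_union_left (Set.toFinite _))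
    · rw [Finset.filter_insert, if_pos (by simpa using h0), Finset.card_insert_of_notMem (by simp [hi])]
      have hd : δ i ∉ st (SS A F δ) := by
        rw [hst']; simpa using h0
      obtain ⟨g, hg1, hg2⟩ := not_subset_of_not_mem_st _ _ hd
      have : (SS A F δ).ncard < (SS A F δ ∪ {g | g - δ i ∈ SS A F δ}).ncard := by
        apply Set.ncard_lt_ncard _ (Set.toFinite _)
        refine ⟨Set.subset_union_left, fun hsub => hg2 (hsub (Or.inr hg1))⟩
      omega

/-- image in the quotient by a subgroup -/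
lemma SS_map {Δ : Type} [AddCommGroup Δ] (f : Γ →+ Δ) (A : Set Γ) (F : Finset ι) (δ : ι → Γ) :
    SS (f '' A) F (fun i => f (δ i)) = f '' (SS A F δ) := by
  ext g
  constructor
  · rintro ⟨_, ⟨a, ha, rfl⟩, E, hE, rfl⟩
    exact ⟨a + ∑ i ∈ E, δ i, ⟨a, ha, E, hE, rfl⟩, by simp [map_sum]⟩
  · rintro ⟨_, ⟨a, ha, E, hE, rfl⟩, rfl⟩
    exact ⟨f a, ⟨a, ha, rfl⟩, E, hE, by simp [map_sum]⟩

lemma st_quot (S : Set Γ) :
    st ((QuotientAddGroup.mk' (st S)) '' S) = ⊥ := by
  rw [eq_bot_iff]
  intro q hq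
  obtain ⟨g, rfl⟩ := QuotientAddGroup.mk'_surjective (st S) q
  rw [AddSubgroup.mem_bot]
  have hg : g ∈ st S := by
    -- one direction for g and one for -g
    have key : ∀ h : Γ, QuotientAddGroup.mk' (st S) h ∈ st ((QuotientAddGroup.mk' (st S)) '' S) →
        ∀ x ∈ S, h + x ∈ S := by
      intro h hh x hx
      have h1 := (hh (QuotientAddGroup.mk' (st S) x)).1 ⟨x, hx, rfl⟩
      obtain ⟨y, hy, hyx⟩ := h1
      rw [← map_add] at hyx
      have h2 : -y + (h + x) ∈ st S := by
        have := (QuotientAddGroup.eq (s := st S) (a := y) (b := h + x)).1 hyx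
        exact this
      have h3 := (h2 y).1 hy
      have : -y + (h + x) + y = h + x := by abel
      rwa [this] at h3
    intro x
    constructor
    · exact key g hq x
    · intro hx
      have hq' : QuotientAddGroup.mk' (st S) (-g) ∈ st ((QuotientAddGroup.mk' (st S)) '' S) := by
        rw [map_neg]; exact neg_mem hq
      have := key (-g) hq' _ hx
      simpa using this
  exact (QuotientAddGroup.eq_zero_iff g).2 hg

/-- Kneser-type bound for subset sums: if the subset sums of `δ` over `F` (plus `A`) are not everything, then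
    for the stabilizer `H` we have `(#{i ∈ F | δ i ∉ H} + 2) * |H| ≤ |Γ|` . -/
lemma exists_subgroup [Finite Γ] (A : Set Γ) (hA : A.Nonempty) (F : Finset ι) (δ : ι → Γ)
    (hne : SS A F δ ≠ Set.univ) :
    ((F.filter (fun i => δ i ∉ st (SS A F δ))).card + 2) * Nat.card (st (SS A F δ)) ≤ Nat.card Γ := by
  set S := SS A F δ with hS
  set H := st S with hH
  have hq : SS ((QuotientAddGroup.mk' H) '' A) F (fun i => QuotientAddGroup.mk' H (δ i))
      = (QuotientAddGroup.mk' H) '' S := SS_map _ _ _ _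
  have hst : st (SS ((QuotientAddGroup.mk' H) '' A) F (fun i => QuotientAddGroup.mk' H (δ i))) = ⊥ := by
    rw [hq]; exact st_quot S
  have h1 := ncard_SS _ _ _ hst
  rw [hq] at h1
  have h2 : ((QuotientAddGroup.mk' H) '' A).ncard ≥ 1 := by
    rw [ge_iff_le, Nat.one_le_iff_ne_zero, Ne, Set.ncard_eq_zero (Set.toFinite _)]
    exact (hA.image _).ne_empty
  have h3 : ((QuotientAddGroup.mk' H) '' S).ncard < Nat.card (Γ ⧸ H) := by
    rw [← Set.ncard_univ]
    apply Set.ncard_lt_ncard _ (Set.toFinite _)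
    refine ⟨Set.subset_univ _, fun hsub => hne ?_⟩
    apply Set.eq_univ_of_forall
    intro x
    obtain ⟨y, hy, hyx⟩ := hsub (Set.mem_univ (QuotientAddGroup.mk' H x))
    have h4 : -y + x ∈ H := (QuotientAddGroup.eq (s := H) (a := y) (b := x)).1 hyx
    have h5 := (h4 y).1 hy
    have : -y + x + y = x := by abel
    rwa [this] at h5
  have h4 : (F.filter (fun i => δ i ∉ H)).card ≤
      (F.filter (fun i => (QuotientAddGroup.mk' H) (δ i) ≠ 0)).card := by
    apply Finset.card_le_card
    intro i hi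
    rw [Finset.mem_filter] at hi ⊢
    refine ⟨hi.1, ?_⟩
    rw [Ne, QuotientAddGroup.mk'_apply, QuotientAddGroup.eq_zero_iff]
    exact hi.2
  have h4' : (F.filter (fun i => δ i ∉ H)).card + 1 ≤ ((QuotientAddGroup.mk' H) '' S).ncard := by
    refine le_trans ?_ h1
    rw [add_comm]
    refine add_le_add h2 (h4.trans (le_of_eq ?_))
    congr
  have h5 : (F.filter (fun i => δ i ∉ H)).card + 2 ≤ Nat.card (Γ ⧸ H) := by omega
  have h6 := AddSubgroup.card_eq_card_quotient_mul_card_addSubgroup H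
  rw [h6]
  exact Nat.mul_le_mul_right _ h5

/-- Relative version inside a subgroup `L`. -/
lemma exists_subgroup_in [Finite Γ] (L : AddSubgroup Γ) (F : Finset ι) (δ : ι → Γ)
    (hF : ∀ i ∈ F, δ i ∈ L) (t : Γ) (ht : t ∈ L)
    (hne : ¬ ∃ E : Finset ι, E ⊆ F ∧ ∑ i ∈ E, δ i = t) :
    ∃ J : AddSubgroup Γ, J < L ∧
      ((F.filter (fun i => δ i ∉ J)).card + 2) * Nat.card J ≤ Nat.card L := by
  let δ' : ι → L := fun i => if h : i ∈ F then ⟨δ i, hF i h⟩ else 0
  have hsum : ∀ E : Finset ι, E ⊆ F → ((∑ i ∈ E, δ' i : L) : Γ) = ∑ i ∈ E, δ i := by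
    intro E hE
    rw [AddSubgroup.val_finsetSum]
    apply Finset.sum_congr rfl
    intro i hi
    simp only [δ']
    rw [dif_pos (hE hi)]
  have hne' : SS ({0} : Set L) F δ' ≠ Set.univ := by
    intro h
    have : (⟨t, ht⟩ : L) ∈ SS ({0} : Set L) F δ' := by rw [h]; trivial
    obtain ⟨a, ha, E, hE, hEt⟩ := this
    apply hne
    refine ⟨E, hE, ?_⟩
    rw [← hsum E hE]
    have ha0 : a = 0 := ha
    rw [ha0, zero_add] at hEt
    rw [← hEt]
  have hk := exists_subgroup ({0} : Set L) (Set.singleton_nonempty _) F δ' hne'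
  set S := SS ({0} : Set L) F δ' with hS
  set H := st S with hH
  refine ⟨H.map L.subtype, ?_, ?_⟩
  · refine lt_of_le_of_ne ?_ ?_
    · rintro _ ⟨x, _, rfl⟩
      exact x.2
    · intro heq
      apply hne'
      apply Set.eq_univ_of_forall
      intro x
      have hx : (x : Γ) ∈ H.map L.subtype := by rw [heq]; exact x.2
      obtain ⟨y, hy, hyx⟩ := hx
      have hyx' : y = x := Subtype.ext hyx
      rw [hyx'] at hy
      have h0 : (0 : L) ∈ S := ⟨0, rfl, ∅, by simp, by simp⟩
      have := (hy 0).1 h0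
      simpa using this
  · have hcard : Nat.card (H.map L.subtype) = Nat.card H :=
      AddSubgroup.card_map_of_injective (AddSubgroup.subtype_injective L)
    rw [hcard]
    have hfil : (F.filter (fun i => δ i ∉ H.map L.subtype)) = F.filter (fun i => δ' i ∉ H) := by
      apply Finset.filter_congr
      intro i hi
      rw [not_iff_not]
      have hval : ((δ' i : L) : Γ) = δ i := by
        simp only [δ']; rw [dif_pos hi]
      constructor
      · rintro ⟨y, hy, hyx⟩
        have : y = δ' i := Subtype.ext (by rw [hval]; exact hyx)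
        rwa [this] at hy
      · intro h
        exact ⟨δ' i, h, hval⟩
    rw [hfil]
    exact hk

lemma two_mul_card_le [Finite Γ] {J L : AddSubgroup Γ} (h : J < L) :
    2 * Nat.card J ≤ Nat.card L := by
  obtain ⟨c, hc⟩ := AddSubgroup.card_dvd_of_le h.le
  have hLpos : 0 < Nat.card L := Nat.card_pos
  rcases Nat.lt_or_ge c 2 with h2 | h2
  · exfalso
    interval_cases c
    · omega
    · have : J = L := AddSubgroup.eq_of_le_of_card_ge h.le (by omega)
      exact h.ne this
  · rw [hc]; nlinarith [Nat.card_pos (α := J)]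

/-- number of indices not in a subgroup -/
noncomputable def nf (I : Finset ι) (δ : ι → Γ) (J : AddSubgroup Γ) : ℕ := (I.filter (fun i => δ i ∉ J)).card

lemma exists_min_L [Finite Γ] (I : Finset ι) (δ : ι → Γ) (hcard : I.card + 1 = Nat.card Γ)
    (hδ : ∀ i ∈ I, δ i ≠ 0) (H : AddSubgroup Γ) (hH0 : H ≠ ⊥) (hH1 : H ≠ ⊤)
    (hH : (nf I δ H + 1) * Nat.card H ≤ Nat.card Γ) :
    ∃ L : AddSubgroup Γ, L ≠ ⊥ ∧ L ≠ ⊤ ∧ (nf I δ L + 1) * Nat.card L ≤ Nat.card Γ ∧
      ∀ J < L, Nat.card Γ ≤ (nf I δ J + 1) * Nat.card J := by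
  have hne : {L : AddSubgroup Γ | L ≠ ⊥ ∧ L ≠ ⊤ ∧ (nf I δ L + 1) * Nat.card L ≤ Nat.card Γ}.Nonempty :=
    ⟨H, hH0, hH1, hH⟩
  obtain ⟨L, hL, hmin⟩ := WellFounded.has_min (wellFounded_lt (α := AddSubgroup Γ)) _ hne
  refine ⟨L, hL.1, hL.2.1, hL.2.2, ?_⟩
  intro J hJ
  by_cases h0 : J = ⊥
  · subst h0
    have : nf I δ ⊥ = I.card := by
      unfold nf
      rw [Finset.filter_true_of_mem]
      intro i hi
      rw [AddSubgroup.mem_bot]
      exact hδ i hi
    rw [this, hcard]
    simp
  · by_contra hcon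
    exact hmin J ⟨h0, (lt_of_lt_of_le hJ le_top).ne, (not_le.1 hcon).le⟩ hJ

/-- All of `L` is realised by flat indices outside `R`. -/
lemma flat_a [Finite Γ] (I : Finset ι) (δ : ι → Γ) (L : AddSubgroup Γ) (k : ℕ)
    (hk : k * Nat.card L = Nat.card Γ) (hL1 : L ≠ ⊤)
    (hL : (nf I δ L + 1) * Nat.card L ≤ Nat.card Γ)
    (hmin : ∀ J < L, Nat.card Γ ≤ (nf I δ J + 1) * Nat.card J)
    (R : Finset ι) (hR : R.card + 1 ≤ k) (t : Γ) (ht : t ∈ L) :
    ∃ E : Finset ι, E ⊆ (I \ R).filter (fun i => δ i ∈ L) ∧ ∑ i ∈ E, δ i = t := by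
  by_contra hne
  obtain ⟨J, hJ, hJc⟩ := exists_subgroup_in L ((I \ R).filter (fun i => δ i ∈ L)) δ
    (fun i hi => (Finset.mem_filter.1 hi).2) t ht hne
  have h1 := hmin J hJ
  have h2 := two_mul_card_le hJ
  have h3 : nf I δ J ≤ (((I \ R).filter (fun i => δ i ∈ L)).filter (fun i => δ i ∉ J)).card
      + nf I δ L + R.card := by
    unfold nf
    refine le_trans (Finset.card_le_card ?_) ((Finset.card_union_le _ _).trans
      (Nat.add_le_add_right (Finset.card_union_le _ _) _))
    intro i hi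
    simp only [Finset.mem_union, Finset.mem_filter, Finset.mem_sdiff] at hi ⊢
    tauto
  set nF := (((I \ R).filter (fun i => δ i ∈ L)).filter (fun i => δ i ∉ J)).card with hnF
  have hJpos : 0 < Nat.card J := Nat.card_pos
  have hLpos : 0 < Nat.card L := Nat.card_pos
  have hnL : nf I δ L + 1 ≤ k := by
    rw [← hk] at hL
    exact Nat.le_of_mul_le_mul_right hL hLpos
  have hk2 : 2 ≤ k := by
    have := two_mul_card_le (lt_top_iff_ne_top.2 hL1)
    rw [AddSubgroup.card_top, ← hk] at this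
    exact Nat.le_of_mul_le_mul_right this hLpos
  rw [← hk] at h1
  have h4 : k * Nat.card L ≤ (nF + nf I δ L + R.card + 1) * Nat.card J :=
    h1.trans (Nat.mul_le_mul_right _ (by omega))
  have h5 : k * Nat.card L ≤ (nF + 2 + (2 * k - 3)) * Nat.card J :=
    h4.trans (Nat.mul_le_mul_right _ (by omega))
  obtain ⟨k', rfl⟩ : ∃ k', k = k' + 2 := ⟨k - 2, by omega⟩
  have h6 : 2 * (k' + 2) - 3 = 2 * k' + 1 := by omega
  rw [h6] at h5
  nlinarith

/-- Version when all non-flat indices are in `R`. -/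
lemma flat_b [Finite Γ] (I : Finset ι) (δ : ι → Γ) (L : AddSubgroup Γ) (k : ℕ)
    (hk : k * Nat.card L = Nat.card Γ) (hL1 : L ≠ ⊤)
    (hmin : ∀ J < L, Nat.card Γ ≤ (nf I δ J + 1) * Nat.card J)
    (R : Finset ι) (hR : R.card + 1 ≤ k) (hRf : ∀ i ∈ I, i ∉ R → δ i ∈ L) (y : ι)
    (t : Γ) (ht : t ∈ L) :
    ∃ E : Finset ι, E ⊆ (I \ R).erase y ∧ ∑ i ∈ E, δ i = t := by
  by_contra hne
  obtain ⟨J, hJ, hJc⟩ := exists_subgroup_in L ((I \ R).erase y) δ
    (fun i hi => by
      rw [Finset.mem_erase, Finset.mem_sdiff] at hi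
      exact hRf i hi.2.1 hi.2.2) t ht hne
  have h1 := hmin J hJ
  have h2 := two_mul_card_le hJ
  have h3 : nf I δ J ≤ (((I \ R).erase y).filter (fun i => δ i ∉ J)).card + R.card + 1 := by
    unfold nf
    refine le_trans (Finset.card_le_card (t := (((I \ R).erase y).filter (fun i => δ i ∉ J)) ∪ R ∪ {y}) ?_)
      ((Finset.card_union_le _ _).trans
      (Nat.add_le_add (Finset.card_union_le _ _) (by simp)))
    intro i hi
    simp only [Finset.mem_union, Finset.mem_filter, Finset.mem_sdiff, Finset.mem_erase,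
      Finset.mem_singleton] at hi ⊢
    tauto
  set nF := (((I \ R).erase y).filter (fun i => δ i ∉ J)).card with hnF
  have hJpos : 0 < Nat.card J := Nat.card_pos
  have hLpos : 0 < Nat.card L := Nat.card_pos
  have hk2 : 2 ≤ k := by
    have := two_mul_card_le (lt_top_iff_ne_top.2 hL1)
    rw [AddSubgroup.card_top, ← hk] at this
    exact Nat.le_of_mul_le_mul_right this hLpos
  rw [← hk] at h1
  have h5 : k * Nat.card L ≤ (nF + 2 + (k - 1)) * Nat.card J :=
    h1.trans (Nat.mul_le_mul_right _ (by omega))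
  obtain ⟨k', rfl⟩ : ∃ k', k = k' + 2 := ⟨k - 2, by omega⟩
  have h6 : k' + 2 - 1 = k' + 1 := by omega
  rw [h6] at h5
  nlinarith

/-- Erdős–Ginzburg–Ziv in a finite cyclic group. -/
lemma egz [Finite Γ] [IsAddCyclic Γ] (c : ι → Γ) (s : Finset ι) (hs : 2 * Nat.card Γ - 1 ≤ s.card) :
    ∃ t ⊆ s, t.card = Nat.card Γ ∧ ∑ i ∈ t, c i = 0 := by
  let e : ZMod (Nat.card Γ) ≃+ Γ := zmodAddCyclicAddEquiv inferInstance
  obtain ⟨t, hts, htc, hsum⟩ := ZMod.erdos_ginzburg_ziv (n := Nat.card Γ) (fun i => e.symm (c i)) (s := s) hs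
  refine ⟨t, hts, htc, ?_⟩
  have : e (∑ i ∈ t, e.symm (c i)) = 0 := by rw [hsum]; simp
  rw [map_sum] at this
  simpa using this

/-- Iterated EGZ: out of `k ℓ - 1` elements one can choose `k (ℓ - 1)` with zero sum. -/
lemma egz_iter [Finite Γ] [IsAddCyclic Γ] (c : ι → Γ) (l : ℕ) (s : Finset ι)
    (hs : s.card + 1 = Nat.card Γ * (l + 1)) :
    ∃ t ⊆ s, (s \ t).card + 1 = Nat.card Γ ∧ ∑ i ∈ t, c i = 0 := by
  induction l generalizing s with
  | zero => exact ⟨∅, by simp, by simpa using hs, by simp⟩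
  | succ l ih =>
    have hpos : 0 < Nat.card Γ := Nat.card_pos
    have hlow : 2 * Nat.card Γ ≤ s.card + 1 := by
      rw [hs]; nlinarith
    obtain ⟨t, hts, htc, hsum⟩ := egz c s (by omega)
    have h1 : (s \ t).card + 1 = Nat.card Γ * (l + 1) := by
      rw [Finset.card_sdiff_of_subset hts, htc]
      have : Nat.card Γ ≤ s.card := htc ▸ Finset.card_le_card hts
      have h2 : Nat.card Γ * (l + 1 + 1) = Nat.card Γ * (l + 1) + Nat.card Γ := by ring
      omega
    obtain ⟨t', ht's, ht'c, hsum'⟩ := ih _ h1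
    refine ⟨t ∪ t', Finset.union_subset hts (ht's.trans Finset.sdiff_subset), ?_, ?_⟩
    · have : s \ (t ∪ t') = (s \ t) \ t' := by
        ext i; simp only [Finset.mem_union, Finset.mem_sdiff]; tauto
      rw [this]; exact ht'c
    · rw [Finset.sum_union, hsum, hsum', add_zero]
      refine Finset.disjoint_left.2 (fun i hi hi' => ?_)
      exact (Finset.mem_sdiff.1 (ht's hi')).2 hi

end stab

end Pool.Agent.Helper864.ZST
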