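import Pool.Agent.Helper864.ZSTMain

/-!
# From tree sums to spanning trees of simple graphs (helper864)
-/

set_option autoImplicit false
open scoped Classical

namespace Pool.Agent.Helper864.ZST

variable {V Γ : Type} [AddCommGroup Γ]

lemma TS.toEdges (c : Sym2 V → Γ) (G : SimpleGraph V) {A : Finset V} {s : Γ}
    (h : TS G.Adj (fun x y => c s(x, y)) A s) :
    ∃ E : Finset (Sym2 V), (∀ e ∈ E, e ∈ G.edgeSet ∧ ∀ x ∈ e, x ∈ A) ∧ E.card + 1 = A.card ∧
      (∀ x ∈ A, ∀ y ∈ A, (SimpleGraph.fromEdgeSet (E : Set (Sym2 V))).Reachable x y) ∧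
      ∑ e ∈ E, c e = s := by
  induction h with
  | single v =>
    refine ⟨∅, by simp, by simp, ?_, by simp⟩
    intro x hx y hy
    rw [Finset.mem_singleton] at hx hy
    rw [hx, hy]
  | @join A B s t a b hA hB hd ha hb hab ih1 ih2 =>
    obtain ⟨E1, h1, c1, r1, s1⟩ := ih1
    obtain ⟨E2, h2, c2, r2, s2⟩ := ih2
    have hdisj : Disjoint E1 E2 := by
      rw [Finset.disjoint_left]
      intro e he1 he2
      induction e using Sym2.ind with
      | _ x y =>
        have hx1 := (h1 _ he1).2 x (by simp)
        have hx2 := (h2 _ he2).2 x (by simp)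
        exact Finset.disjoint_left.1 hd hx1 hx2
    have hn1 : s(a, b) ∉ E1 := by
      intro h
      exact Finset.disjoint_left.1 hd ((h1 _ h).2 b (by simp)) hb
    have hn2 : s(a, b) ∉ E2 := by
      intro h
      exact Finset.disjoint_left.1 hd ha ((h2 _ h).2 a (by simp))
    have hn : s(a, b) ∉ E1 ∪ E2 := by
      rw [Finset.mem_union]; tauto
    refine ⟨insert s(a, b) (E1 ∪ E2), ?_, ?_, ?_, ?_⟩
    · intro e he
      rw [Finset.mem_insert, Finset.mem_union] at he
      rcases he with rfl | he | he
      · refine ⟨hab, ?_⟩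
        intro x hx
        rw [Sym2.mem_iff] at hx
        rw [Finset.mem_union]
        rcases hx with rfl | rfl
        · exact Or.inl ha
        · exact Or.inr hb
      · exact ⟨(h1 e he).1, fun x hx => Finset.mem_union_left _ ((h1 e he).2 x hx)⟩
      · exact ⟨(h2 e he).1, fun x hx => Finset.mem_union_right _ ((h2 e he).2 x hx)⟩
    · rw [Finset.card_insert_of_notMem hn, Finset.card_union_of_disjoint hdisj,
        Finset.card_union_of_disjoint hd]
      omega
    · set E := insert s(a, b) (E1 ∪ E2) with hE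
      have hE1 : (E1 : Set (Sym2 V)) ⊆ (E : Set (Sym2 V)) := by
        rw [hE]; intro e he; simp only [Finset.coe_insert, Finset.coe_union]
        exact Or.inr (Or.inl he)
      have hE2 : (E2 : Set (Sym2 V)) ⊆ (E : Set (Sym2 V)) := by
        rw [hE]; intro e he; simp only [Finset.coe_insert, Finset.coe_union]
        exact Or.inr (Or.inr he)
      have r1' : ∀ x ∈ A, ∀ y ∈ A, (SimpleGraph.fromEdgeSet (E : Set (Sym2 V))).Reachable x y :=
        fun x hx y hy => (r1 x hx y hy).mono (SimpleGraph.fromEdgeSet_mono hE1)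
      have r2' : ∀ x ∈ B, ∀ y ∈ B, (SimpleGraph.fromEdgeSet (E : Set (Sym2 V))).Reachable x y :=
        fun x hx y hy => (r2 x hx y hy).mono (SimpleGraph.fromEdgeSet_mono hE2)
      have hadj : (SimpleGraph.fromEdgeSet (E : Set (Sym2 V))).Adj a b := by
        rw [SimpleGraph.fromEdgeSet_adj]
        refine ⟨?_, fun h => Finset.disjoint_left.1 hd ha (h ▸ hb)⟩
        rw [hE]; simp
      intro x hx y hy
      rw [Finset.mem_union] at hx hy
      rcases hx with hx | hx <;> rcases hy with hy | hy
      · exact r1' x hx y hy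
      · exact (r1' x hx a ha).trans (hadj.reachable.trans (r2' b hb y hy))
      · exact (r2' x hx b hb).trans (hadj.symm.reachable.trans (r1' a ha y hy))
      · exact r2' x hx y hy
    · rw [Finset.sum_insert hn, Finset.sum_union hdisj, s1, s2]
      abel

lemma TS.toTree [Fintype V] (c : Sym2 V → Γ) (G : SimpleGraph V) {s : Γ}
    (h : TS G.Adj (fun x y => c s(x, y)) Finset.univ s) [Nonempty V] :
    ∃ T : SimpleGraph V, T ≤ G ∧ T.IsTree ∧ (∑ᶠ e ∈ T.edgeSet, c e) = s := by
  obtain ⟨E, hE, hcard, hreach, hsum⟩ := TS.toEdges c G h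
  have hset : (SimpleGraph.fromEdgeSet (E : Set (Sym2 V))).edgeSet = (E : Set (Sym2 V)) := by
    rw [SimpleGraph.edgeSet_fromEdgeSet]
    ext e
    constructor
    · exact fun h => h.1
    · intro he
      refine ⟨he, ?_⟩
      have := G.not_isDiag_of_mem_edgeSet (hE e he).1
      simpa using this
  refine ⟨SimpleGraph.fromEdgeSet (E : Set (Sym2 V)), ?_, ?_, ?_⟩
  · intro x y hxy
    rw [SimpleGraph.fromEdgeSet_adj] at hxy
    exact (hE _ hxy.1).1
  · rw [SimpleGraph.isTree_iff_connected_and_card]
    constructor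
    · refine { preconnected := ?_, nonempty := inferInstance }
      intro x y
      exact hreach x (Finset.mem_univ _) y (Finset.mem_univ _)
    · rw [hset, Nat.card_coe_set_eq, Set.ncard_coe_finset, hcard, Finset.card_univ,
        Nat.card_eq_fintype_card]
  · rw [hset, finsum_mem_coe_finset, hsum]

end Pool.Agent.Helper864.ZST
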