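import Pool.Agent.Helper864.ZSTZero

/-!
# Zero-sum spanning trees in complete graphs minus a matching (helper864)
-/

set_option autoImplicit false
open scoped Classical

namespace Pool.Agent.Helper864.ZST

lemma triv_st {Γ : Type} [AddCommGroup Γ] [Finite Γ] (S : Set Γ) (e : Γ) (he : e ∉ S)
    (hS : Nat.card Γ ≤ S.ncard + 1) : st S = ⊥ := by
  rw [eq_bot_iff]
  intro g hg
  rw [AddSubgroup.mem_bot]
  by_contra hg0
  have h1 : g + e ∉ S := fun h => he ((hg e).2 h)
  have h2 : g + e ≠ e := by
    intro h; exact hg0 (by simpa using h)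
  have h3 : ({g + e, e} : Set Γ) ⊆ Sᶜ := by
    rintro x (rfl | rfl)
    · exact h1
    · exact he
  have h4 := Set.ncard_le_ncard h3 (Set.toFinite _)
  rw [Set.ncard_pair h2] at h4
  have h5 := Set.ncard_add_ncard_compl S
  omega

/-- the induction claim -/
def Concl {V Γ : Type} [AddCommGroup Γ] (adj : V → V → Prop) (w : V → V → Γ) (U : Finset V) : Prop :=
  TS adj w U 0 ∨ ((∀ t, t ≠ 0 → TS adj w U t) ∧
    ∃ a b, ∀ x ∈ U, ∀ y ∈ U, x ≠ y → adj x y → w x y = a ∨ w x y = b)

/-- The main case: a missing pair `u v` all of whose common neighbours see two different colours. -/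
theorem main_case (m : ℕ)
    (IH : ∀ k < m, ∀ (Γ : Type) [AddCommGroup Γ] [Finite Γ] [IsAddCyclic Γ], Nat.card Γ = k →
      ∀ (V : Type) (adj : V → V → Prop) (w : V → V → Γ) (U : Finset V),
      (∀ a b, adj a b → adj b a) → (∀ a b, w a b = w b a) → U.card = k + 1 →
      (∀ x ∈ U, ∀ y ∈ U, ∀ z ∈ U, x ≠ y → x ≠ z → ¬ adj x y → ¬ adj x z → y = z) → Concl adj w U)
    (Γ : Type) [AddCommGroup Γ] [Finite Γ] [IsAddCyclic Γ] (hΓ : Nat.card Γ = m)
    (V : Type) (adj : V → V → Prop) (w : V → V → Γ) (U : Finset V)
    (hs : ∀ a b, adj a b → adj b a) (hw : ∀ a b, w a b = w b a) (hU : U.card = m + 1)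
    (hmat : ∀ x ∈ U, ∀ y ∈ U, ∀ z ∈ U, x ≠ y → x ≠ z → ¬ adj x y → ¬ adj x z → y = z)
    (u v : V) (hu : u ∈ U) (hv : v ∈ U) (huv : u ≠ v) (hnadj : ¬ adj u v)
    (hnf : ∀ x ∈ U, x ≠ u → x ≠ v → w u x ≠ w v x) : Concl adj w U := by
  have hmpos : 0 < m := hΓ ▸ Nat.card_pos
  set X := (U.erase u).erase v with hX
  have hmemX : ∀ i, i ∈ X ↔ i ∈ U ∧ i ≠ u ∧ i ≠ v := by
    intro i; rw [hX, Finset.mem_erase, Finset.mem_erase]; tauto
  have hXU : X ⊆ U := fun i hi => ((hmemX i).1 hi).1
  have hXcard : X.card + 1 = Nat.card Γ := by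
    rw [hX, Finset.card_erase_of_mem (Finset.mem_erase.2 ⟨huv.symm, hv⟩),
      Finset.card_erase_of_mem hu, hU, hΓ]
    omega
  -- adjacency
  have hux : ∀ x ∈ X, adj u x := by
    intro x hx
    by_contra h
    have hx' := (hmemX x).1 hx
    exact hx'.2.2 (hmat u hu v hv x hx'.1 huv hx'.2.1.symm hnadj h).symm
  have hvx : ∀ x ∈ X, adj v x := by
    intro x hx
    by_contra h
    have hx' := (hmemX x).1 hx
    exact hx'.2.1 (hmat v hv u hu x hx'.1 huv.symm hx'.2.2.symm (fun h => hnadj (hs _ _ h)) h).symm
  set a : V → Γ := fun x => w u x with ha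
  set δ : V → Γ := fun x => w v x - w u x with hδ
  have hδ0 : ∀ i ∈ X, δ i ≠ 0 := by
    intro i hi h
    have hi' := (hmemX i).1 hi
    exact hnf i hi'.1 hi'.2.1 hi'.2.2 (sub_eq_zero.1 h).symm
  -- extension lemma
  have hext : ∀ (W D : Finset V) (s : Γ), W ⊆ X → (∀ i ∈ W, i ∉ D) → u ∈ D → v ∈ D → TS adj w D s →
      ∀ E ⊆ W, TS adj w (D ∪ W) (s + ∑ i ∈ W, a i + ∑ i ∈ E, δ i) := by
    intro W D s hWX hWD huD hvD hsD E hE
    refine TS.opt (fun _ => 0) hsD a δ hWD ?_ E hE ?_
    · intro i hi
      exact ⟨u, Or.inl huD, hux i (hWX hi), rfl⟩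
    · intro i hi
      refine ⟨v, Or.inl hvD, hvx i (hWX (hE hi)), ?_⟩
      simp only [ha, hδ]; abel
  by_cases hm1 : m = 1
  · -- trivial group
    right
    constructor
    · intro t ht
      exfalso
      have : Subsingleton Γ := (Nat.card_eq_one_iff_unique.1 (hΓ.trans hm1)).1
      exact ht (Subsingleton.elim _ _)
    · refine ⟨0, 0, ?_⟩
      intro x hx y hy _ _
      have : Subsingleton Γ := (Nat.card_eq_one_iff_unique.1 (hΓ.trans hm1)).1
      left; exact Subsingleton.elim _ _
  have hXne : X.Nonempty := by rw [← Finset.card_pos]; omega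
  obtain ⟨x1, hx1⟩ := hXne
  have hx1' := (hmemX x1).1 hx1
  -- base path u - x1 - v
  have hbase : TS adj w {v, x1, u} (0 + w u x1 + w x1 v) :=
    ((TS.single u : TS adj w {u} 0).leaf (Finset.mem_singleton_self u)
      (by rw [Finset.mem_singleton]; exact hx1'.2.1) (hux x1 hx1)).leaf
      (Finset.mem_insert_self _ _)
      (by rw [Finset.mem_insert, Finset.mem_singleton]; exact fun h => h.elim hx1'.2.2.symm huv.symm)
      (hs _ _ (hvx x1 hx1))
  have hUeq : ({v, x1, u} : Finset V) ∪ X.erase x1 = U := by
    ext i
    simp only [Finset.mem_union, Finset.mem_insert, Finset.mem_singleton, Finset.mem_erase, hmemX]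
    constructor
    · rintro ((rfl | rfl | rfl) | h)
      · exact hv
      · exact hx1'.1
      · exact hu
      · exact h.2.1
    · intro hi
      by_cases h1 : i = v
      · exact Or.inl (Or.inl h1)
      · by_cases h2 : i = x1
        · exact Or.inl (Or.inr (Or.inl h2))
        · by_cases h3 : i = u
          · exact Or.inl (Or.inr (Or.inr h3))
          · exact Or.inr ⟨h2, hi, h3, h1⟩
  have hallTS : ∀ g ∈ SS ({0} : Set Γ) (X.erase x1) δ,
      TS adj w U (w u x1 + w x1 v + ∑ i ∈ X.erase x1, a i + g) := by
    rintro g ⟨x, hx, E, hE, rfl⟩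
    have hx0 : x = 0 := hx
    have := hext (X.erase x1) {v, x1, u} _ (Finset.erase_subset _ _) (by
      intro i hi h
      rw [Finset.mem_erase, hmemX] at hi
      rw [Finset.mem_insert, Finset.mem_insert, Finset.mem_singleton] at h
      rcases h with h | h | h
      · exact hi.2.2.2 h
      · exact hi.1 h
      · exact hi.2.2.1 h) (by simp) (by simp) hbase E hE
    rw [hUeq] at this
    rw [hx0]
    simpa [zero_add] using this
  by_cases h0 : TS adj w U 0
  · exact Or.inl h0
  have hSS : SS ({0} : Set Γ) (X.erase x1) δ ≠ Set.univ := by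
    intro h
    apply h0
    have := hallTS (-(w u x1 + w x1 v + ∑ i ∈ X.erase x1, a i)) (by rw [h]; trivial)
    rwa [add_neg_cancel] at this
  set S := SS ({0} : Set Γ) (X.erase x1) δ with hS
  have hkS := exists_subgroup ({0} : Set Γ) (Set.singleton_nonempty _) (X.erase x1) δ hSS
  rw [← hS] at hkS
  have hXe : (X.erase x1).card + 1 = X.card := by
    rw [Finset.card_erase_of_mem hx1]
    have : 0 < X.card := Finset.card_pos.2 ⟨x1, hx1⟩
    omega
  by_cases hst : st S = ⊥
  · -- rigid case
    right
    have hfil : (X.erase x1).filter (fun i => δ i ≠ 0) = X.erase x1 :=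
      Finset.filter_true_of_mem (fun i hi => hδ0 i (Finset.mem_of_mem_erase hi))
    have hc := ncard_SS ({0} : Set Γ) (X.erase x1) δ hst
    rw [← hS, Set.ncard_singleton, hfil] at hc
    have hScard : Nat.card Γ ≤ S.ncard + 1 := by omega
    set κ := w u x1 + w x1 v + ∑ i ∈ X.erase x1, a i with hκ
    constructor
    · intro t ht
      by_cases htS : t - κ ∈ S
      · have := hallTS _ htS
        rwa [add_sub_cancel] at this
      · exfalso
        have hzS : -κ ∉ S := by
          intro h
          apply h0
          have := hallTS _ h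
          rwa [add_neg_cancel] at this
        have h3 : ({t - κ, -κ} : Set Γ) ⊆ Sᶜ := by
          rintro x (rfl | rfl)
          · exact htS
          · exact hzS
        have h4 := Set.ncard_le_ncard h3 (Set.toFinite _)
        rw [Set.ncard_pair (by
          intro h
          apply ht
          have : t - κ + κ = -κ + κ := by rw [h]
          simpa using this)] at h4
        have h5 := Set.ncard_add_ncard_compl S
        omega
    · -- two-valuedness
      -- general bound
      have bound : ∀ (A : Set Γ) (W : Finset V) (c0 : Γ), W ⊆ X →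
          (∀ g ∈ SS A W δ, TS adj w U (c0 + g)) →
          (∃ d, ∀ g ∈ S, d + g ∈ SS A W δ) → A.ncard + W.card + 1 ≤ Nat.card Γ := by
        intro A W c0 hWX hTS ⟨d, hd⟩
        have hnot : -c0 ∉ SS A W δ := by
          intro h
          apply h0
          have := hTS _ h
          rwa [add_neg_cancel] at this
        have hcard : Nat.card Γ ≤ (SS A W δ).ncard + 1 := by
          have h1 : S.ncard ≤ (SS A W δ).ncard := by
            rw [← Set.ncard_image_of_injective S (add_right_injective d)]
            apply Set.ncard_le_ncard _ (Set.toFinite _)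
            rintro _ ⟨g, hg, rfl⟩
            exact hd g hg
          omega
        have hst' := triv_st _ _ hnot hcard
        have h1 := ncard_SS A W δ hst'
        have hfil : W.filter (fun i => δ i ≠ 0) = W :=
          Finset.filter_true_of_mem (fun i hi => hδ0 i (hWX hi))
        rw [hfil] at h1
        have h2 : (SS A W δ).ncard < Nat.card Γ := by
          rw [← Set.ncard_univ]
          apply Set.ncard_lt_ncard _ (Set.toFinite _)
          refine ⟨Set.subset_univ _, fun hsub => hnot (hsub (Set.mem_univ _))⟩
        omega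
      -- Use 1: colours inside X
      have use1 : ∀ x ∈ X, x ≠ x1 → ∀ y ∈ X, y ≠ x → adj x y → w x y = w u x ∨ w x y = w v x := by
        intro x hx hxx1 y hy hyx hxy
        by_contra hcon
        push Not at hcon
        have hx' := (hmemX x).1 hx
        have hy' := (hmemX y).1 hy
        set W := (X.erase x1).erase x with hW
        have hxW : x ∈ X.erase x1 := Finset.mem_erase.2 ⟨hxx1, hx⟩
        have hWc : W.card + 1 = (X.erase x1).card := by
          rw [hW, Finset.card_erase_of_mem hxW]
          have : 0 < (X.erase x1).card := Finset.card_pos.2 ⟨x, hxW⟩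
          omega
        have hAc : ({w u x, w v x, w x y} : Set Γ).ncard = 3 := by
          rw [Set.ncard_insert_of_notMem, Set.ncard_pair]
          · exact hcon.2.symm
          · rintro (h | h)
            · exact hnf x hx'.1 hx'.2.1 hx'.2.2 h
            · exact hcon.1 h.symm
        have hUx : ({v, x1, u} : Finset V) ∪ W = U.erase x := by
          rw [← hUeq, hW]
          ext i
          simp only [Finset.mem_union, Finset.mem_insert, Finset.mem_singleton, Finset.mem_erase]
          constructor
          · rintro ((rfl | rfl | rfl) | h)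
            · exact ⟨hx'.2.2.symm, Or.inl (Or.inl rfl)⟩
            · exact ⟨hxx1.symm, Or.inl (Or.inr (Or.inl rfl))⟩
            · exact ⟨hx'.2.1.symm, Or.inl (Or.inr (Or.inr rfl))⟩
            · exact ⟨h.1, Or.inr h.2⟩
          · rintro ⟨h1, h2 | h2⟩
            · exact Or.inl h2
            · exact Or.inr ⟨h1, h2⟩
        have := bound {w u x, w v x, w x y} W (w u x1 + w x1 v + ∑ i ∈ W, a i)
          ((Finset.erase_subset _ _).trans (Finset.erase_subset _ _)) (by
          rintro g ⟨c, hc, E, hE, rfl⟩
          have h1 := hext W {v, x1, u} _ ((Finset.erase_subset _ _).trans (Finset.erase_subset _ _)) (by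
            intro i hi h
            rw [hW, Finset.mem_erase, Finset.mem_erase, hmemX] at hi
            rw [Finset.mem_insert, Finset.mem_insert, Finset.mem_singleton] at h
            rcases h with h | h | h
            · exact hi.2.2.2.2 h
            · exact hi.2.1 h
            · exact hi.2.2.2.1 h) (by simp) (by simp) hbase E hE
          rw [hUx] at h1
          have hq : ∃ q ∈ U.erase x, adj q x ∧ w q x = c := by
            rcases hc with rfl | rfl | rfl
            · exact ⟨u, Finset.mem_erase.2 ⟨hx'.2.1.symm, hu⟩, hux x hx, rfl⟩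
            · exact ⟨v, Finset.mem_erase.2 ⟨hx'.2.2.symm, hv⟩, hvx x hx, rfl⟩
            · exact ⟨y, Finset.mem_erase.2 ⟨hyx, hy'.1⟩, hs _ _ hxy, hw _ _⟩
          obtain ⟨q, hq1, hq2, hq3⟩ := hq
          have h2 := h1.leaf hq1 (Finset.notMem_erase x U) hq2
          rw [Finset.insert_erase hx'.1, hq3] at h2
          have e : w u x1 + w x1 v + ∑ i ∈ W, a i + (c + ∑ i ∈ E, δ i) =
            0 + w u x1 + w x1 v + ∑ i ∈ W, a i + ∑ i ∈ E, δ i + c := by abel
          rw [e]
          exact h2) ⟨w u x, by
            rintro g ⟨c, hc, E, hE, rfl⟩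
            have hc0 : c = 0 := hc
            subst hc0
            by_cases hxE : x ∈ E
            · refine ⟨w v x, Or.inr (Or.inl rfl), E.erase x, ?_, ?_⟩
              · intro i hi
                rw [Finset.mem_erase] at hi
                exact Finset.mem_erase.2 ⟨hi.1, hE hi.2⟩
              · rw [← Finset.add_sum_erase E δ hxE]
                simp only [hδ]; abel
            · refine ⟨w u x, Or.inl rfl, E, ?_, ?_⟩
              · intro i hi
                exact Finset.mem_erase.2 ⟨fun h => hxE (h ▸ hi), hE hi⟩
              · abel⟩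
        rw [hAc] at this
        omega
      -- Use 2: all pairs of colours agree with those of x1
      have use2 : ∀ y ∈ X, (w u y = w u x1 ∨ w u y = w v x1) ∧ (w v y = w u x1 ∨ w v y = w v x1) := by
        intro y hy
        by_cases hyx1 : y = x1
        · subst hyx1; exact ⟨Or.inl rfl, Or.inr rfl⟩
        have hy' := (hmemX y).1 hy
        set W := (X.erase x1).erase y with hW
        have hyW : y ∈ X.erase x1 := Finset.mem_erase.2 ⟨hyx1, hy⟩
        have hWc : W.card + 1 = (X.erase x1).card := by
          rw [hW, Finset.card_erase_of_mem hyW]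
          have : 0 < (X.erase x1).card := Finset.card_pos.2 ⟨y, hyW⟩
          omega
        set τ := w u x1 + w v x1 + w u y + w v y with hτ
        set A : Set Γ := {τ - w u x1, τ - w v x1, τ - w u y, τ - w v y} with hA
        have hUy : (insert y {v, x1, u} : Finset V) ∪ W = U := by
          rw [← hUeq, hW]
          ext i
          simp only [Finset.mem_union, Finset.mem_insert, Finset.mem_singleton, Finset.mem_erase]
          constructor
          · rintro ((rfl | h) | h)
            · exact Or.inr ⟨hyx1, hy⟩
            · exact Or.inl h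
            · exact Or.inr h.2
          · rintro (h | h)
            · exact Or.inl (Or.inr h)
            · by_cases hiy : i = y
              · exact Or.inl (Or.inl hiy)
              · exact Or.inr ⟨hiy, h⟩
        -- the four base trees
        have hyn : y ∉ ({v, x1, u} : Finset V) := by
          rw [Finset.mem_insert, Finset.mem_insert, Finset.mem_singleton]
          rintro (h | h | h)
          · exact hy'.2.2 h
          · exact hyx1 h
          · exact hy'.2.1 h
        have t1 : TS adj w (insert y {v, x1, u}) (τ - w v y) := by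
          have := hbase.leaf (x := u) (y := y) (by simp) hyn (hux y hy)
          have e : τ - w v y = 0 + w u x1 + w x1 v + w u y := by
            rw [hτ, hw x1 v]; abel
          rw [e]; exact this
        have t2 : TS adj w (insert y {v, x1, u}) (τ - w u y) := by
          have := hbase.leaf (x := v) (y := y) (by simp) hyn (hvx y hy)
          have e : τ - w u y = 0 + w u x1 + w x1 v + w v y := by
            rw [hτ, hw x1 v]; abel
          rw [e]; exact this
        have hbase' : TS adj w {v, y, u} (0 + w u y + w y v) :=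
          ((TS.single u : TS adj w {u} 0).leaf (Finset.mem_singleton_self u)
            (by rw [Finset.mem_singleton]; exact hy'.2.1) (hux y hy)).leaf
            (Finset.mem_insert_self _ _)
            (by rw [Finset.mem_insert, Finset.mem_singleton]; exact fun h => h.elim hy'.2.2.symm huv.symm)
            (hs _ _ (hvx y hy))
        have hx1n : x1 ∉ ({v, y, u} : Finset V) := by
          rw [Finset.mem_insert, Finset.mem_insert, Finset.mem_singleton]
          rintro (h | h | h)
          · exact hx1'.2.2 h
          · exact hyx1 h.symm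
          · exact hx1'.2.1 h
        have hset : (insert x1 {v, y, u} : Finset V) = insert y {v, x1, u} := by
          ext i; simp only [Finset.mem_insert, Finset.mem_singleton]; tauto
        have t3 : TS adj w (insert y {v, x1, u}) (τ - w v x1) := by
          have := hbase'.leaf (x := u) (y := x1) (by simp) hx1n (hux x1 hx1)
          rw [hset] at this
          have e : τ - w v x1 = 0 + w u y + w y v + w u x1 := by
            rw [hτ, hw y v]; abel
          rw [e]; exact this
        have t4 : TS adj w (insert y {v, x1, u}) (τ - w u x1) := by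
          have := hbase'.leaf (x := v) (y := x1) (by simp) hx1n (hvx x1 hx1)
          rw [hset] at this
          have e : τ - w u x1 = 0 + w u y + w y v + w v x1 := by
            rw [hτ, hw y v]; abel
          rw [e]; exact this
        have hb := bound A W (∑ i ∈ W, a i)
          ((Finset.erase_subset _ _).trans (Finset.erase_subset _ _)) (by
          rintro g ⟨c, hc, E, hE, rfl⟩
          have hTc : TS adj w (insert y {v, x1, u}) c := by
            rcases hc with rfl | rfl | rfl | rfl
            · exact t4
            · exact t3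
            · exact t2
            · exact t1
          have h1 := hext W (insert y {v, x1, u}) c
            ((Finset.erase_subset _ _).trans (Finset.erase_subset _ _)) (by
            intro i hi h
            rw [hW, Finset.mem_erase, Finset.mem_erase, hmemX] at hi
            rw [Finset.mem_insert, Finset.mem_insert, Finset.mem_insert, Finset.mem_singleton] at h
            rcases h with h | h | h | h
            · exact hi.1 h
            · exact hi.2.2.2.2 h
            · exact hi.2.1 h
            · exact hi.2.2.2.1 h) (by simp) (by simp) hTc E hE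
          rw [hUy] at h1
          have e : ∑ i ∈ W, a i + (c + ∑ i ∈ E, δ i) = c + ∑ i ∈ W, a i + ∑ i ∈ E, δ i := by abel
          rw [e]; exact h1) ⟨τ - w v y, by
            rintro g ⟨c, hc, E, hE, rfl⟩
            have hc0 : c = 0 := hc
            subst hc0
            by_cases hyE : y ∈ E
            · refine ⟨τ - w u y, Or.inr (Or.inr (Or.inl rfl)), E.erase y, ?_, ?_⟩
              · intro i hi
                rw [Finset.mem_erase] at hi
                exact Finset.mem_erase.2 ⟨hi.1, hE hi.2⟩
              · rw [← Finset.add_sum_erase E δ hyE]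
                simp only [hδ]; abel
            · refine ⟨τ - w v y, Or.inr (Or.inr (Or.inr rfl)), E, ?_, ?_⟩
              · intro i hi
                exact Finset.mem_erase.2 ⟨fun h => hyE (h ▸ hi), hE hi⟩
              · abel⟩
        have hA2 : A.ncard ≤ 2 := by omega
        have hneq : w u x1 ≠ w v x1 := hnf x1 hx1'.1 hx1'.2.1 hx1'.2.2
        have three : ∀ z : Γ, τ - z ∈ A → z = w u x1 ∨ z = w v x1 := by
          intro z hz
          by_contra hcon
          push Not at hcon
          have hsub : ({τ - w u x1, τ - w v x1, τ - z} : Set Γ) ⊆ A := by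
            rintro _ (rfl | rfl | rfl)
            · exact Or.inl rfl
            · exact Or.inr (Or.inl rfl)
            · exact hz
          have h3 : ({τ - w u x1, τ - w v x1, τ - z} : Set Γ).ncard = 3 := by
            rw [Set.ncard_insert_of_notMem, Set.ncard_pair]
            · intro h; exact hcon.2 (sub_right_injective h).symm
            · rintro (h | h)
              · exact hneq (sub_right_injective h)
              · exact hcon.1 (sub_right_injective h).symm
          have := Set.ncard_le_ncard hsub (Set.toFinite _)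
          omega
        exact ⟨three _ (Or.inr (Or.inr (Or.inl rfl))), three _ (Or.inr (Or.inr (Or.inr rfl)))⟩
      refine ⟨w u x1, w v x1, ?_⟩
      have hinX : ∀ x ∈ X, x ≠ x1 → ∀ y ∈ X, y ≠ x → adj x y → w x y = w u x1 ∨ w x y = w v x1 := by
        intro x hx hxx1 y hy hyx hxy
        rcases use1 x hx hxx1 y hy hyx hxy with h | h
        · rw [h]; exact (use2 x hx).1
        · rw [h]; exact (use2 x hx).2
      intro x hx y hy hxy hadj
      by_cases hxu : x = u
      · subst hxu
        by_cases hyv : y = v
        · subst hyv; exact absurd hadj hnadj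
        · exact (use2 y ((hmemX y).2 ⟨hy, hxy.symm, hyv⟩)).1
      by_cases hxv : x = v
      · subst hxv
        by_cases hyu : y = u
        · subst hyu; exact absurd (hs _ _ hadj) hnadj
        · exact (use2 y ((hmemX y).2 ⟨hy, hyu, hxy.symm⟩)).2
      have hxX : x ∈ X := (hmemX x).2 ⟨hx, hxu, hxv⟩
      by_cases hyu : y = u
      · subst hyu; rw [hw]; exact (use2 x hxX).1
      by_cases hyv : y = v
      · subst hyv; rw [hw]; exact (use2 x hxX).2
      have hyX : y ∈ X := (hmemX y).2 ⟨hy, hyu, hyv⟩
      by_cases hx1x : x = x1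
      · have hyx1 : y ≠ x1 := fun h => hxy (hx1x.trans h.symm)
        rw [hw]
        exact hinX y hyX hyx1 x hxX hxy (hs _ _ hadj)
      · exact hinX x hxX hx1x y hyX hxy.symm hadj
  · -- non-rigid case
    left
    set H := st S with hH
    have hH1 : H ≠ ⊤ := by
      intro h
      rw [h, AddSubgroup.card_top] at hkS
      have : 0 < Nat.card Γ := Nat.card_pos
      nlinarith
    obtain ⟨L, hL0, hL1, hL, hmin⟩ := exists_min_L X δ hXcard hδ0 H hst hH1 (by
      refine le_trans (Nat.mul_le_mul_right _ ?_) hkS
      unfold nf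
      have : (X.filter (fun i => δ i ∉ H)) ⊆
          insert x1 ((X.erase x1).filter (fun i => δ i ∉ H)) := by
        intro i hi
        rw [Finset.mem_filter] at hi
        by_cases h : i = x1
        · exact Finset.mem_insert.2 (Or.inl h)
        · exact Finset.mem_insert.2 (Or.inr (Finset.mem_filter.2 ⟨Finset.mem_erase.2 ⟨h, hi.1⟩, hi.2⟩))
      have := (Finset.card_le_card this).trans (Finset.card_insert_le _ _)
      omega)
    set k := Nat.card (Γ ⧸ L) with hkdef
    have hkL : k * Nat.card L = Nat.card Γ :=
      (AddSubgroup.card_eq_card_quotient_mul_card_addSubgroup L).symm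
    have hLpos : 0 < Nat.card L := Nat.card_pos
    have hkpos : 0 < k := Nat.card_pos
    have hL2 : 2 ≤ Nat.card L := by
      have := two_mul_card_le (bot_lt_iff_ne_bot.2 hL0)
      rw [AddSubgroup.card_bot] at this
      omega
    have hklt : k < m := by
      rw [← hΓ, ← hkL]; nlinarith
    have : IsAddCyclic (Γ ⧸ L) :=
      isAddCyclic_of_surjective (QuotientAddGroup.mk' L) (QuotientAddGroup.mk'_surjective L)
    obtain ⟨l, hl⟩ : ∃ l, Nat.card L = l + 1 := ⟨Nat.card L - 1, by omega⟩
    set π := QuotientAddGroup.mk' L with hπ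
    have hπ0 : ∀ g : Γ, π g = 0 ↔ g ∈ L := by
      intro g; exact QuotientAddGroup.eq_zero_iff g
    obtain ⟨W, hWX, hWc, hWs⟩ := egz_iter (fun i => π (a i)) l X (by
      rw [hXcard, ← hkL, hl])
    set R := X \ W with hR
    have hRk : R.card + 1 ≤ k := le_of_eq hWc
    have hWU : W ⊆ U := hWX.trans hXU
    have hRX : R ⊆ X := Finset.sdiff_subset
    set U0 := U \ W with hU0
    have huW : u ∉ W := fun h => ((hmemX u).1 (hWX h)).2.1 rfl
    have hvW : v ∉ W := fun h => ((hmemX v).1 (hWX h)).2.2 rfl
    have huU0 : u ∈ U0 := Finset.mem_sdiff.2 ⟨hu, huW⟩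
    have hvU0 : v ∈ U0 := Finset.mem_sdiff.2 ⟨hv, hvW⟩
    have hWcard : W.card + R.card = X.card := by
      rw [hR, Finset.card_sdiff_of_subset hWX]
      have := Finset.card_le_card hWX
      omega
    have hD1 : U0.card = k + 1 := by
      have h1 : U0.card = U.card - W.card := Finset.card_sdiff_of_subset hWU
      omega
    have hT := IH k hklt (Γ ⧸ L) rfl V adj (fun x y => π (w x y)) U0 hs
      (by intro x y; rw [hw]) hD1 (by
        intro x hx y hy z hz
        exact hmat x (Finset.sdiff_subset hx) y (Finset.sdiff_subset hy) z (Finset.sdiff_subset hz))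
    -- trees on U0 with a prescribed nonzero residue, or zero residue
    have hT' : (∃ s, TS adj w U0 s ∧ π s = 0) ∨ (∀ t, t ≠ 0 → ∃ s, TS adj w U0 s ∧ π s = t) := by
      rcases hT with h | ⟨h, _⟩
      · exact Or.inl (TS.map π h)
      · exact Or.inr (fun t ht => TS.map π (h t ht))
    -- finishing move
    have finish : ∀ y ∈ W, ∀ s', TS adj w (insert y U0) s' → π s' = π (a y) →
        (∀ t ∈ L, ∃ E ⊆ W.erase y, ∑ i ∈ E, δ i = t) → TS adj w U 0 := by
      intro y hy s' hs' hπs' hE
      have hsum : π (s' + ∑ i ∈ W.erase y, a i) = 0 := by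
        rw [map_add, hπs', map_sum, Finset.add_sum_erase W (fun i => π (a i)) hy]
        exact hWs
      obtain ⟨E, hEW, hEs⟩ := hE (-(s' + ∑ i ∈ W.erase y, a i)) (neg_mem ((hπ0 _).1 hsum))
      have := hext (W.erase y) (insert y U0) s' ((Finset.erase_subset _ _).trans hWX) (by
        intro i hi h
        rw [Finset.mem_erase] at hi
        rcases Finset.mem_insert.1 h with h | h
        · exact hi.1 h
        · exact (Finset.mem_sdiff.1 h).2 hi.2) (Finset.mem_insert_of_mem huU0)
        (Finset.mem_insert_of_mem hvU0) hs' E hEW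
      have hUU : insert y U0 ∪ W.erase y = U := by
        ext i
        rw [Finset.mem_union, Finset.mem_insert, Finset.mem_erase, hU0, Finset.mem_sdiff]
        constructor
        · rintro ((rfl | h) | h)
          · exact hWU hy
          · exact h.1
          · exact hWU h.2
        · intro hi
          by_cases h1 : i = y
          · exact Or.inl (Or.inl h1)
          · by_cases h2 : i ∈ W
            · exact Or.inr ⟨h1, h2⟩
            · exact Or.inl (Or.inr ⟨hi, h2⟩)
      rw [hUU, hEs, add_neg_cancel] at this
      exact this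
    have hyU0 : ∀ y ∈ W, y ∉ U0 := fun y hy h => (Finset.mem_sdiff.1 h).2 hy
    by_cases hB : ∃ y ∈ W, δ y ∉ L
    · obtain ⟨y, hy, hyL⟩ := hB
      have hyX := hWX hy
      obtain ⟨s', hs', hπs'⟩ : ∃ s', TS adj w (insert y U0) s' ∧ π s' = π (a y) := by
        rcases hT' with ⟨s, hs, hs0⟩ | hall
        · refine ⟨_, hs.leaf huU0 (hyU0 y hy) (hux y hyX), ?_⟩
          rw [map_add, hs0, zero_add]
        · obtain ⟨s, hs, hs0⟩ := hall (π (-(δ y))) (by
            rw [Ne, hπ0, neg_mem_iff]; exact hyL)
          refine ⟨_, hs.leaf hvU0 (hyU0 y hy) (hvx y hyX), ?_⟩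
          rw [map_add, hs0, ← map_add]
          congr 1
          simp only [hδ, ha]; abel
      refine finish y hy s' hs' hπs' ?_
      intro t ht
      obtain ⟨E, hE, hEs⟩ := flat_a X δ L k hkL hL1 hL hmin R hRk t ht
      refine ⟨E, ?_, hEs⟩
      intro i hi
      have h1 := Finset.mem_filter.1 (hE hi)
      rw [Finset.mem_sdiff, hR, Finset.mem_sdiff] at h1
      refine Finset.mem_erase.2 ⟨?_, ?_⟩
      · rintro rfl; exact hyL h1.2
      · by_contra h2
        exact h1.1.2 ⟨h1.1.1, h2⟩
    · push Not at hB
      -- choose `y ∈ W` adjacent to all of `R`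
      obtain ⟨y, hy, hyR⟩ : ∃ y ∈ W, ∀ r ∈ R, adj y r := by
        by_contra hcon
        push Not at hcon
        choose! f hfR hf using hcon
        have hinj : Set.InjOn f W := by
          intro y1 hy1 y2 hy2 h12
          by_contra hne
          have h1 : ¬ adj (f y1) y1 := fun h => hf y1 hy1 (hs _ _ h)
          have h2 : ¬ adj (f y1) y2 := fun h => hf y2 hy2 (by rw [← h12]; exact hs _ _ h)
          have hfU : f y1 ∈ U := hXU (hRX (hfR y1 hy1))
          have hn1 : f y1 ≠ y1 := by
            intro h
            have := hfR y1 hy1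
            rw [h, hR, Finset.mem_sdiff] at this
            exact this.2 hy1
          have hn2 : f y1 ≠ y2 := by
            intro h
            have := hfR y1 hy1
            rw [h, hR, Finset.mem_sdiff] at this
            exact this.2 hy2
          exact hne (hmat (f y1) hfU y1 (hWU hy1) y2 (hWU hy2) hn1 hn2 h1 h2)
        have hle : W.card ≤ R.card :=
          Finset.card_le_card_of_injOn f (fun y hy => hfR y hy) hinj
        have h2k : 2 * k ≤ Nat.card Γ := by rw [← hkL]; nlinarith
        omega
      have hyX := hWX hy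
      have hyadj : ∀ z ∈ U0, adj y z := by
        intro z hz
        rw [hU0, Finset.mem_sdiff] at hz
        by_cases h1 : z = u
        · rw [h1]; exact hs _ _ (hux y hyX)
        · by_cases h2 : z = v
          · rw [h2]; exact hs _ _ (hvx y hyX)
          · exact hyR z (Finset.mem_sdiff.2 ⟨(hmemX z).2 ⟨hz.1, h1, h2⟩, hz.2⟩)
      obtain ⟨s', hs', hπs'⟩ : ∃ s', TS adj w (insert y U0) s' ∧ π s' = π (a y) := by
        rcases hT' with ⟨s, hs, hs0⟩ | hall
        · refine ⟨_, hs.leaf huU0 (hyU0 y hy) (hux y hyX), ?_⟩
          rw [map_add, hs0, zero_add]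
        · by_cases hz : ∃ z ∈ U0, π (w z y) ≠ π (a y)
          · obtain ⟨z, hz, hzne⟩ := hz
            obtain ⟨s, hs1, hs0⟩ := hall (π (a y) - π (w z y)) (by
              intro h; exact hzne (sub_eq_zero.1 h).symm)
            refine ⟨_, hs1.leaf hz (hyU0 y hy) (hs _ _ (hyadj z hz)), ?_⟩
            rw [map_add, hs0, sub_add_cancel]
          · push Not at hz
            refine ⟨_, TS.star (hyU0 y hy) hyadj, ?_⟩
            have hsum : ∑ z ∈ U0, π (w y z) = ∑ _z ∈ U0, π (a y) :=
              Finset.sum_congr rfl (fun z hz' => by rw [hw]; exact hz z hz')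
            rw [map_sum, hsum, Finset.sum_const, hD1, succ_nsmul]
            have : k • π (a y) = 0 := card_nsmul_eq_zero'
            rw [this, zero_add]
      refine finish y hy s' hs' hπs' ?_
      intro t ht
      obtain ⟨E, hE, hEs⟩ := flat_b X δ L k hkL hL1 hmin R hRk (by
        intro i hi hiR
        apply hB
        by_contra h
        exact hiR (Finset.mem_sdiff.2 ⟨hi, h⟩)) y t ht
      refine ⟨E, ?_, hEs⟩
      intro i hi
      have h1 := Finset.mem_erase.1 (hE hi)
      refine Finset.mem_erase.2 ⟨h1.1, ?_⟩
      rw [Finset.mem_sdiff, hR, Finset.mem_sdiff] at h1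
      by_contra h2
      exact h1.2.2 ⟨h1.2.1, h2⟩

/-- number of missing (ordered) pairs -/
noncomputable def mc {V : Type} (adj : V → V → Prop) (U : Finset V) : ℕ :=
  ((U ×ˢ U).filter (fun p => p.1 ≠ p.2 ∧ ¬ adj p.1 p.2)).card

lemma mc_lt {V : Type} (adj adj' : V → V → Prop) (U : Finset V) (hle : ∀ a b, adj a b → adj' a b)
    {u v : V} (hu : u ∈ U) (hv : v ∈ U) (huv : u ≠ v) (h : ¬ adj u v) (h' : adj' u v) :
    mc adj' U < mc adj U := by
  apply Finset.card_lt_card
  refine ⟨?_, ?_⟩
  · intro p hp
    rw [Finset.mem_filter] at hp ⊢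
    exact ⟨hp.1, hp.2.1, fun h => hp.2.2 (hle _ _ h)⟩
  · intro hsub
    have h1 : (u, v) ∈ (U ×ˢ U).filter (fun p => p.1 ≠ p.2 ∧ ¬ adj p.1 p.2) := by
      rw [Finset.mem_filter]
      exact ⟨Finset.mem_product.2 ⟨hu, hv⟩, huv, h⟩
    have h2 := Finset.mem_filter.1 (hsub h1)
    exact h2.2.2 h'

/-- **Main theorem.** Complete graph minus a matching on `|Γ| + 1` vertices, `Γ` finite cyclic: either some
spanning tree has weight `0`, or every nonzero weight is attained and only two colours are used. -/
theorem main (m : ℕ) : ∀ (Γ : Type) [AddCommGroup Γ] [Finite Γ] [IsAddCyclic Γ], Nat.card Γ = m →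
      ∀ (V : Type) (adj : V → V → Prop) (w : V → V → Γ) (U : Finset V),
      (∀ a b, adj a b → adj b a) → (∀ a b, w a b = w b a) → U.card = m + 1 →
      (∀ x ∈ U, ∀ y ∈ U, ∀ z ∈ U, x ≠ y → x ≠ z → ¬ adj x y → ¬ adj x z → y = z) →
      Concl adj w U := by
  induction m using Nat.strong_induction_on with
  | _ m IH =>
  intro Γ _ _ _ hΓ V adj w U
  -- induction on the number of missing pairs
  obtain ⟨n, hn⟩ : ∃ n, mc adj U = n := ⟨_, rfl⟩
  induction n using Nat.strong_induction_on generalizing adj w with
  | _ n IHn =>
  intro hs hw hU hmat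
  by_cases hfull : ∀ x ∈ U, ∀ y ∈ U, x ≠ y → adj x y
  · exact Or.inl (zero_tree m Γ hΓ V adj w U hw hU hfull)
  push Not at hfull
  obtain ⟨u, hu, v, hv, huv, hnadj⟩ := hfull
  by_cases hfill : ∃ x ∈ U, x ≠ u ∧ x ≠ v ∧ w u x = w v x
  · obtain ⟨x, hx, hxu, hxv, hc⟩ := hfill
    have hux : adj x u := by
      by_contra h
      exact hxv (hmat u hu v hv x hx huv hxu.symm hnadj (fun h' => h (hs _ _ h'))).symm
    have hvx : adj x v := by
      by_contra h
      exact hxu (hmat v hv u hu x hx huv.symm hxv.symm (fun h' => hnadj (hs _ _ h'))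
        (fun h' => h (hs _ _ h'))).symm
    have hc' : w x u = w x v := by rw [hw x u, hw x v]; exact hc
    set adj' : V → V → Prop := fun a b => adj a b ∨ (a = u ∧ b = v) ∨ (a = v ∧ b = u) with hadj'
    set w' : V → V → Γ := fun a b => if (a = u ∧ b = v) ∨ (a = v ∧ b = u) then w x u else w a b with hw'
    have key : ∀ s, TS adj' w' U s → TS adj w U s := by
      intro s h
      rcases TS.fill hs hw hux hvx hc' hnadj h with h | h
      · exact h
      · exact absurd hx h.1
    have hlt : mc adj' U < n := by
      rw [← hn]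
      exact mc_lt adj adj' U (fun a b h => Or.inl h) hu hv huv hnadj (Or.inr (Or.inl ⟨rfl, rfl⟩))
    have hc2 := IHn _ hlt adj' w' rfl (by
        rintro a b (h | ⟨rfl, rfl⟩ | ⟨rfl, rfl⟩)
        · exact Or.inl (hs _ _ h)
        · exact Or.inr (Or.inr ⟨rfl, rfl⟩)
        · exact Or.inr (Or.inl ⟨rfl, rfl⟩)) (by
        intro a b
        simp only [hw']
        by_cases h : (a = u ∧ b = v) ∨ (a = v ∧ b = u)
        · rw [if_pos h, if_pos (by tauto)]
        · rw [if_neg h, if_neg (by tauto), hw]) hU (by
        intro x hx y hy z hz hxy hxz h1 h2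
        exact hmat x hx y hy z hz hxy hxz (fun h => h1 (Or.inl h)) (fun h => h2 (Or.inl h)))
    rcases hc2 with h | ⟨h, a, b, hab⟩
    · exact Or.inl (key 0 h)
    · refine Or.inr ⟨fun t ht => key t (h t ht), a, b, ?_⟩
      intro p hp q hq hpq hadjpq
      have := hab p hp q hq hpq (Or.inl hadjpq)
      have hnot : ¬ ((p = u ∧ q = v) ∨ (p = v ∧ q = u)) := by
        rintro (⟨rfl, rfl⟩ | ⟨rfl, rfl⟩)
        · exact hnadj hadjpq
        · exact hnadj (hs _ _ hadjpq)
      simp only [hw'] at this
      rwa [if_neg hnot] at this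
  · push Not at hfill
    exact main_case m IH Γ hΓ V adj w U hs hw hU hmat u v hu hv huv hnadj
      (fun x hx hxu hxv => hfill x hx hxu hxv)

end Pool.Agent.Helper864.ZST
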