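import Pool.Agent.Helper864.ZSTree

/-!
# The zero-sum tree theorem for complete graphs (cyclic groups), elementary proof (helper864)
-/

set_option autoImplicit false
open scoped Classical

namespace Pool.Agent.Helper864.ZST

variable {V Γ : Type} [AddCommGroup Γ]

/-- `Z` is connected in colour `c` with root `z0`, with an explicit rank function. -/
def Mono (w : V → V → Γ) (U : Finset V) (c : Γ) (z0 : V) (Z : Finset V) : Prop :=
  z0 ∈ Z ∧ Z ⊆ U ∧ ∃ r : V → ℕ, ∀ z ∈ Z, z ≠ z0 → ∃ z' ∈ Z, r z' < r z ∧ w z' z = c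

lemma exists_max_mono (w : V → V → Γ) (U : Finset V) (hU : U.Nonempty) :
    ∃ c z0 Z, Mono w U c z0 Z ∧ ∀ c' z0' Z', Mono w U c' z0' Z' → Z'.card ≤ Z.card := by
  obtain ⟨u, hu⟩ := hU
  have hne : {p : Γ × V × Finset V | Mono w U p.1 p.2.1 p.2.2}.Nonempty := by
    refine ⟨(0, u, {u}), Finset.mem_singleton_self u, Finset.singleton_subset_iff.2 hu, fun _ => 0, ?_⟩
    intro z hz hzu
    exact absurd (Finset.mem_singleton.1 hz) hzu
  obtain ⟨p, hp, hmin⟩ := WellFounded.has_min
    (measure (fun p : Γ × V × Finset V => U.card - p.2.2.card)).wf _ hne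
  refine ⟨p.1, p.2.1, p.2.2, hp, ?_⟩
  intro c' z0' Z' h'
  by_contra hcon
  push Not at hcon
  apply hmin (c', z0', Z') h'
  show U.card - Z'.card < U.card - p.2.2.card
  have := Finset.card_le_card h'.2.1
  omega

lemma mono_maximal {w : V → V → Γ} (hw : ∀ a b, w a b = w b a) {U Z : Finset V} {c : Γ} {z0 : V}
    (hZ : Mono w U c z0 Z)
    (hmax : ∀ c' z0' Z', Mono w U c' z0' Z' → Z'.card ≤ Z.card) {y : V} (hy : y ∈ U) (hyZ : y ∉ Z) :
    (∀ z ∈ Z, w y z ≠ c) ∧ ∃ a ∈ Z, ∃ b ∈ Z, w a y ≠ w b y := by
  obtain ⟨hz0, hZU, r, hr⟩ := hZ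
  constructor
  · intro z hz hc
    have : Mono w U c z0 (insert y Z) := by
      refine ⟨Finset.mem_insert_of_mem hz0, Finset.insert_subset hy hZU,
        fun v => if v = y then Z.sup r + 1 else r v, ?_⟩
      intro v hv hv0
      rcases Finset.mem_insert.1 hv with rfl | hv
      · refine ⟨z, Finset.mem_insert_of_mem hz, ?_, by rw [hw]; exact hc⟩
        have hzv : z ≠ v := fun h => hyZ (h ▸ hz)
        beta_reduce
        rw [if_neg hzv, if_pos rfl]
        have := Finset.le_sup (f := r) hz
        omega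
      · obtain ⟨z', hz', hlt, hc'⟩ := hr v hv hv0
        refine ⟨z', Finset.mem_insert_of_mem hz', ?_, hc'⟩
        have h1 : z' ≠ y := fun h => hyZ (h ▸ hz')
        have h2 : v ≠ y := fun h => hyZ (h ▸ hv)
        beta_reduce
        rw [if_neg h1, if_neg h2]
        exact hlt
    have := hmax _ _ _ this
    rw [Finset.card_insert_of_notMem hyZ] at this
    omega
  · by_contra hcon
    push Not at hcon
    have : Mono w U (w z0 y) y (insert y Z) := by
      refine ⟨Finset.mem_insert_self _ _, Finset.insert_subset hy hZU,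
        fun v => if v = y then 0 else 1, ?_⟩
      intro v hv hvy
      rcases Finset.mem_insert.1 hv with rfl | hv
      · exact absurd rfl hvy
      · refine ⟨y, Finset.mem_insert_self _ _, ?_, ?_⟩
        · beta_reduce
          rw [if_pos rfl, if_neg hvy]; omega
        · rw [hw y v]
          exact hcon v hv z0 hz0
    have := hmax _ _ _ this
    rw [Finset.card_insert_of_notMem hyZ] at this
    omega

/-- The final step: `k * |L| = |Γ|`, iterated EGZ modulo `L`, and the tree on the small set from the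
induction hypothesis. -/
theorem zero_tree (m : ℕ) : ∀ (Γ : Type) [AddCommGroup Γ] [Finite Γ] [IsAddCyclic Γ], Nat.card Γ = m →
    ∀ (V : Type) (adj : V → V → Prop) (w : V → V → Γ) (U : Finset V),
      (∀ a b, w a b = w b a) → U.card = m + 1 →
      (∀ x ∈ U, ∀ y ∈ U, x ≠ y → adj x y) → TS adj w U 0 := by
  induction m using Nat.strong_induction_on with
  | _ m IH =>
  intro Γ _ _ _ hΓ V adj w U hw hU hadj
  have hmpos : 0 < m := hΓ ▸ Nat.card_pos
  have hUne : U.Nonempty := by rw [← Finset.card_pos]; omega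
  obtain ⟨c, z0, Z, hZ, hmax⟩ := exists_max_mono w U hUne
  have hmx := fun {y : V} (hy : y ∈ U) (hyZ : y ∉ Z) => mono_maximal hw hZ hmax hy hyZ
  obtain ⟨hz0, hZU, r, hr⟩ := hZ
  by_cases hZU' : Z = U
  · subst hZU'
    have h := TS.ext r {z0} 0 (TS.single z0 : TS adj w {z0} 0) (fun _ => c) (Z.erase z0).card
      (Z.erase z0) rfl (by
        intro i hi h
        exact (Finset.mem_erase.1 hi).1 (Finset.mem_singleton.1 h)) (by
        intro i hi
        rw [Finset.mem_erase] at hi
        obtain ⟨z', hz', hlt, hc⟩ := hr i hi.2 hi.1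
        refine ⟨z', ?_, hadj _ hz' _ hi.2 ?_, hc⟩
        · by_cases h0 : z' = z0
          · exact Or.inl (Finset.mem_singleton.2 h0)
          · exact Or.inr ⟨Finset.mem_erase.2 ⟨h0, hz'⟩, hlt⟩
        · rintro rfl; omega)
    have h1 : ({z0} : Finset V) ∪ Z.erase z0 = Z := by
      rw [← Finset.insert_eq, Finset.insert_erase hz0]
    have h2 : (0 : Γ) + ∑ _i ∈ Z.erase z0, c = 0 := by
      rw [zero_add, Finset.sum_const, Finset.card_erase_of_mem hz0, hU, Nat.add_sub_cancel, ← hΓ]
      exact card_nsmul_eq_zero'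
    rw [h1, h2] at h
    exact h
  · -- `Z ≠ U`
    obtain ⟨u, hu, huZ⟩ : ∃ u ∈ U, u ∉ Z := by
      by_contra hcon
      push Not at hcon
      exact hZU' (le_antisymm hZU hcon)
    have hz0U : z0 ∈ U := hZU hz0
    have huz0 : u ≠ z0 := fun h => huZ (h ▸ hz0)
    set I := (U.erase u).erase z0 with hI
    have hIcard : I.card + 1 = Nat.card Γ := by
      rw [hI, Finset.card_erase_of_mem (Finset.mem_erase.2 ⟨huz0.symm, hz0U⟩),
        Finset.card_erase_of_mem hu, hU, hΓ]
      omega
    have hmemI : ∀ i, i ∈ I ↔ i ∈ U ∧ i ≠ u ∧ i ≠ z0 := by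
      intro i; rw [hI, Finset.mem_erase, Finset.mem_erase]; tauto
    -- rank function
    set R : V → ℕ := fun v => if v = u ∨ v = z0 then 0 else if v ∈ Z then r v + 1 else Z.sup r + 2
      with hR
    have hRu : R u = 0 := by simp [hR]
    have hRz : R z0 = 0 := by simp [hR]
    have hpar : ∀ i ∈ I, ∃ p p', (p ∈ U ∧ (p = u ∨ p = z0 ∨ (p ∈ I ∧ R p < R i))) ∧
        (p' ∈ U ∧ (p' = u ∨ p' = z0 ∨ (p' ∈ I ∧ R p' < R i))) ∧ w p i ≠ w p' i := by
      intro i hi
      have hi' := (hmemI i).1 hi
      by_cases hiZ : i ∈ Z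
      · obtain ⟨z', hz', hlt, hc⟩ := hr i hiZ hi'.2.2
        have hz'u : z' ≠ u := fun h => huZ (h ▸ hz')
        refine ⟨z', u, ⟨hZU hz', ?_⟩, ⟨hu, Or.inl rfl⟩, ?_⟩
        · by_cases h0 : z' = z0
          · exact Or.inr (Or.inl h0)
          · refine Or.inr (Or.inr ⟨(hmemI _).2 ⟨hZU hz', hz'u, h0⟩, ?_⟩)
            simp only [hR]
            rw [if_neg (by tauto), if_pos hz', if_neg (by tauto), if_pos hiZ]
            omega
        · rw [hc]
          exact ((hmx hu huZ).1 i hiZ).symm
      · obtain ⟨a, ha, b, hb, hab⟩ := (hmx hi'.1 hiZ).2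
        have hcase : ∀ a ∈ Z, a ∈ U ∧ (a = u ∨ a = z0 ∨ (a ∈ I ∧ R a < R i)) := by
          intro a ha
          refine ⟨hZU ha, ?_⟩
          by_cases h0 : a = z0
          · exact Or.inr (Or.inl h0)
          · have hau : a ≠ u := fun h => huZ (h ▸ ha)
            refine Or.inr (Or.inr ⟨(hmemI _).2 ⟨hZU ha, hau, h0⟩, ?_⟩)
            simp only [hR]
            rw [if_neg (by tauto), if_pos ha, if_neg (by tauto), if_neg hiZ]
            have := Finset.le_sup (f := r) ha
            omega
        exact ⟨a, b, hcase a ha, hcase b hb, hab⟩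
    choose! p p' hp hp' hne using hpar
    set a : V → Γ := fun i => w (p i) i with ha
    set δ : V → Γ := fun i => w (p' i) i - w (p i) i with hδ
    have hδ0 : ∀ i ∈ I, δ i ≠ 0 := by
      intro i hi h
      exact hne i hi (sub_eq_zero.1 h).symm
    -- the extension lemma for this option structure
    have hext : ∀ (W D : Finset V) (s : Γ), W ⊆ I → D = U \ W → TS adj w D s → ∀ E ⊆ W,
        TS adj w U (s + ∑ i ∈ W, a i + ∑ i ∈ E, δ i) := by
      intro W D s hWI hD hs E hE
      have hWU : W ⊆ U := fun i hi => ((hmemI i).1 (hWI hi)).1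
      have h1 : D ∪ W = U := by rw [hD]; exact Finset.sdiff_union_of_subset hWU
      have hparD : ∀ i ∈ W, ∀ q, (q ∈ U ∧ (q = u ∨ q = z0 ∨ (q ∈ I ∧ R q < R i))) →
          (q ∈ D ∨ (q ∈ W ∧ R q < R i)) ∧ adj q i := by
        intro i hi q hq
        have hiI := (hmemI i).1 (hWI hi)
        constructor
        · by_cases hqW : q ∈ W
          · right
            refine ⟨hqW, ?_⟩
            have hqI := (hmemI q).1 (hWI hqW)
            rcases hq.2 with h | h | h
            · exact absurd h hqI.2.1
            · exact absurd h hqI.2.2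
            · exact h.2
          · left
            rw [hD]
            exact Finset.mem_sdiff.2 ⟨hq.1, hqW⟩
        · apply hadj _ hq.1 _ hiI.1
          rintro rfl
          rcases hq.2 with h | h | h
          · exact hiI.2.1 h
          · exact hiI.2.2 h
          · omega
      have := TS.opt R hs a δ (W := W) (by
        intro i hi hiD
        rw [hD] at hiD
        exact (Finset.mem_sdiff.1 hiD).2 hi) (by
        intro i hi
        obtain ⟨h1, h2⟩ := hparD i hi (p i) (hp i (hWI hi))
        exact ⟨p i, h1, h2, rfl⟩) E hE (by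
        intro i hi
        obtain ⟨h1, h2⟩ := hparD i (hE hi) (p' i) (hp' i (hWI (hE hi)))
        refine ⟨p' i, h1, h2, ?_⟩
        simp only [ha, hδ]; abel)
      rw [h1] at this
      exact this
    have hIU : I ⊆ U := fun i hi => ((hmemI i).1 hi).1
    by_cases hSS : SS ({0} : Set Γ) I δ = Set.univ
    · have hmem : -(w u z0 + ∑ i ∈ I, a i) ∈ SS ({0} : Set Γ) I δ := by rw [hSS]; trivial
      obtain ⟨x, hx, E, hE, hEs⟩ := hmem
      have hx0 : x = 0 := hx
      rw [hx0, zero_add] at hEs
      have hbase : TS adj w {z0, u} (0 + w u z0) :=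
        (TS.single u : TS adj w {u} 0).leaf (Finset.mem_singleton_self u)
          (by rw [Finset.mem_singleton]; exact huz0.symm) (hadj u hu z0 hz0U huz0)
      have hD : ({z0, u} : Finset V) = U \ I := by
        ext v
        rw [Finset.mem_sdiff, hmemI, Finset.mem_insert, Finset.mem_singleton]
        constructor
        · rintro (rfl | rfl)
          · exact ⟨hz0U, by tauto⟩
          · exact ⟨hu, by tauto⟩
        · rintro ⟨h1, h2⟩
          by_contra hcon
          push Not at hcon
          exact h2 ⟨h1, hcon.2, hcon.1⟩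
      have := hext I {z0, u} _ (subset_refl _) hD hbase E hE
      rw [← hEs] at this
      have h0 : (0 : Γ) + w u z0 + ∑ i ∈ I, a i + -(w u z0 + ∑ i ∈ I, a i) = 0 := by abel
      rw [h0] at this
      exact this
    · -- use a subgroup
      have hk := exists_subgroup ({0} : Set Γ) (Set.singleton_nonempty _) I δ hSS
      set H := st (SS ({0} : Set Γ) I δ) with hH
      have hHpos : 0 < Nat.card H := Nat.card_pos
      have hH0 : H ≠ ⊥ := by
        intro h0
        have h1 : (I.filter (fun i => δ i ∉ H)) = I := by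
          apply Finset.filter_true_of_mem
          intro i hi
          rw [h0, AddSubgroup.mem_bot]
          exact hδ0 i hi
        rw [h1, h0, AddSubgroup.card_bot] at hk
        omega
      have hH1 : H ≠ ⊤ := by
        intro h0
        rw [h0, AddSubgroup.card_top] at hk
        have : 0 < Nat.card Γ := Nat.card_pos
        nlinarith
      obtain ⟨L, hL0, hL1, hL, hmin⟩ := exists_min_L I δ hIcard hδ0 H hH0 hH1 (by
        unfold nf
        refine le_trans (Nat.mul_le_mul_right _ ?_) hk
        omega)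
      set k := Nat.card (Γ ⧸ L) with hkdef
      have hkL : k * Nat.card L = Nat.card Γ :=
        (AddSubgroup.card_eq_card_quotient_mul_card_addSubgroup L).symm
      have hLpos : 0 < Nat.card L := Nat.card_pos
      have hkpos : 0 < k := Nat.card_pos
      have hL2 : 2 ≤ Nat.card L := by
        have := two_mul_card_le (bot_lt_iff_ne_bot.2 hL0)
        rw [AddSubgroup.card_bot] at this
        omega
      have hklt : k < m := by
        rw [← hΓ, ← hkL]; nlinarith
      have : IsAddCyclic (Γ ⧸ L) :=
        isAddCyclic_of_surjective (QuotientAddGroup.mk' L) (QuotientAddGroup.mk'_surjective L)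
      obtain ⟨l, hl⟩ : ∃ l, Nat.card L = l + 1 := ⟨Nat.card L - 1, by omega⟩
      obtain ⟨W, hWI, hWc, hWs⟩ := egz_iter (fun i => QuotientAddGroup.mk' L (a i)) l I (by
        rw [hIcard, ← hkL, hl])
      have hR' : (I \ W).card + 1 ≤ k := le_of_eq hWc
      have hWU : W ⊆ U := hWI.trans hIU
      -- tree on U \ W
      have hD1 : (U \ W).card = k + 1 := by
        have h1 : (U \ W).card = U.card - W.card := Finset.card_sdiff_of_subset hWU
        have h2 : (I \ W).card = I.card - W.card := Finset.card_sdiff_of_subset hWI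
        have h3 : W.card ≤ I.card := Finset.card_le_card hWI
        omega
      have hT := IH k hklt (Γ ⧸ L) rfl V adj (fun x y => QuotientAddGroup.mk' L (w x y)) (U \ W)
        (by intro x y; rw [hw]) hD1 (by
          intro x hx y hy hxy
          exact hadj x (Finset.sdiff_subset hx) y (Finset.sdiff_subset hy) hxy)
      obtain ⟨s0, hs0, hs0L⟩ := TS.map (QuotientAddGroup.mk' L) hT
      have ht : -(s0 + ∑ i ∈ W, a i) ∈ L := by
        rw [neg_mem_iff, ← QuotientAddGroup.eq_zero_iff]
        have : QuotientAddGroup.mk' L (s0 + ∑ i ∈ W, a i) = 0 := by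
          rw [map_add, hs0L, map_sum, zero_add]
          exact hWs
        exact this
      obtain ⟨E, hE, hEs⟩ := flat_a I δ L k hkL hL1 hL hmin (I \ W) hR' _ ht
      have hEW : E ⊆ W := by
        intro i hi
        have h1 := (Finset.mem_filter.1 (hE hi)).1
        rw [Finset.mem_sdiff, Finset.mem_sdiff] at h1
        by_contra h2
        exact h1.2 ⟨h1.1, h2⟩
      have := hext W (U \ W) s0 hWI rfl hs0 E hEW
      rw [hEs] at this
      have h0 : s0 + ∑ i ∈ W, a i + -(s0 + ∑ i ∈ W, a i) = 0 := by abel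
      rw [h0] at this
      exact this

end Pool.Agent.Helper864.ZST
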