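import Pool.Agent.Helper864.ZSTAlg

/-!
# Tree sums on finite vertex sets (helper864)
-/

set_option autoImplicit false
open scoped Classical

namespace Pool.Agent.Helper864.ZST

variable {V Γ : Type} [AddCommGroup Γ]

/-- `TS adj w A s`: some spanning tree on the vertex set `A`, with edges in `adj`, has weight `s`. -/
inductive TS (adj : V → V → Prop) (w : V → V → Γ) : Finset V → Γ → Prop
  | single (v : V) : TS adj w {v} 0
  | join {A B : Finset V} {s t : Γ} {x y : V} (hA : TS adj w A s) (hB : TS adj w B t)
      (hd : Disjoint A B) (hx : x ∈ A) (hy : y ∈ B) (h : adj x y) :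
      TS adj w (A ∪ B) (s + t + w x y)

variable {adj : V → V → Prop} {w : V → V → Γ}

lemma TS.leaf {A : Finset V} {s : Γ} (hA : TS adj w A s) {x y : V} (hx : x ∈ A) (hy : y ∉ A)
    (h : adj x y) : TS adj w (insert y A) (s + w x y) := by
  have := TS.join hA (TS.single y) (Finset.disjoint_singleton_right.2 hy) hx
    (Finset.mem_singleton_self y) h
  rw [add_zero] at this
  rw [Finset.insert_eq, Finset.union_comm]
  exact this

lemma TS.map {Δ : Type} [AddCommGroup Δ] (f : Γ →+ Δ) {A : Finset V} {t : Δ}
    (h : TS adj (fun x y => f (w x y)) A t) : ∃ s, TS adj w A s ∧ f s = t := by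
  induction h with
  | single v => exact ⟨0, TS.single v, map_zero f⟩
  | join _ _ hd hx hy h ih1 ih2 =>
    obtain ⟨s, hs, rfl⟩ := ih1
    obtain ⟨t, ht, rfl⟩ := ih2
    exact ⟨_, TS.join hs ht hd hx hy h, by simp [map_add]⟩

/-- Sequential extension. -/
lemma TS.ext (rank : V → ℕ) (D : Finset V) (s : Γ) (hD : TS adj w D s) (g : V → Γ) :
    ∀ (n : ℕ) (F : Finset V), F.card = n → (∀ i ∈ F, i ∉ D) →
      (∀ i ∈ F, ∃ p, (p ∈ D ∨ (p ∈ F ∧ rank p < rank i)) ∧ adj p i ∧ w p i = g i) →
      TS adj w (D ∪ F) (s + ∑ i ∈ F, g i) := by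
  intro n
  induction n with
  | zero =>
    intro F hF _ _
    rw [Finset.card_eq_zero] at hF
    subst hF
    simpa using hD
  | succ n ih =>
    intro F hF hFD hpar
    have hne : F.Nonempty := by
      rw [← Finset.card_pos]; omega
    obtain ⟨i, hi, hmax⟩ := Finset.exists_max_image F rank hne
    have h1 : TS adj w (D ∪ F.erase i) (s + ∑ j ∈ F.erase i, g j) := by
      apply ih
      · rw [Finset.card_erase_of_mem hi]; omega
      · intro j hj; exact hFD j (Finset.mem_of_mem_erase hj)
      · intro j hj
        obtain ⟨p, hp, hadj, hw⟩ := hpar j (Finset.mem_of_mem_erase hj)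
        refine ⟨p, ?_, hadj, hw⟩
        rcases hp with hp | ⟨hp, hr⟩
        · exact Or.inl hp
        · refine Or.inr ⟨Finset.mem_erase.2 ⟨?_, hp⟩, hr⟩
          rintro rfl
          have := hmax j (Finset.mem_of_mem_erase hj)
          omega
    obtain ⟨p, hp, hadj, hw⟩ := hpar i hi
    have hpmem : p ∈ D ∪ F.erase i := by
      rw [Finset.mem_union]
      rcases hp with hp | ⟨hp, hr⟩
      · exact Or.inl hp
      · refine Or.inr (Finset.mem_erase.2 ⟨?_, hp⟩)
        rintro rfl
        omega
    have hnot : i ∉ D ∪ F.erase i := by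
      rw [Finset.mem_union]
      rintro (h | h)
      · exact hFD i hi h
      · exact (Finset.mem_erase.1 h).1 rfl
    have h2 := h1.leaf hpmem hnot hadj
    rw [hw] at h2
    have h3 : insert i (D ∪ F.erase i) = D ∪ F := by
      ext j
      simp only [Finset.mem_insert, Finset.mem_union, Finset.mem_erase]
      constructor
      · rintro (rfl | h | h)
        · exact Or.inr hi
        · exact Or.inl h
        · exact Or.inr h.2
      · rintro (h | h)
        · exact Or.inr (Or.inl h)
        · by_cases hji : j = i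
          · exact Or.inl hji
          · exact Or.inr (Or.inr ⟨hji, h⟩)
    have h4 : s + ∑ j ∈ F.erase i, g j + g i = s + ∑ j ∈ F, g j := by
      rw [← Finset.sum_erase_add F g hi]; abel
    rw [h3, h4] at h2
    exact h2

/-- Extension with two options for each new vertex. -/
lemma TS.opt (rank : V → ℕ) {D W : Finset V} {s : Γ} (hD : TS adj w D s) (a δ : V → Γ)
    (hWD : ∀ i ∈ W, i ∉ D)
    (ha : ∀ i ∈ W, ∃ p, (p ∈ D ∨ (p ∈ W ∧ rank p < rank i)) ∧ adj p i ∧ w p i = a i)
    (E : Finset V) (hE : E ⊆ W)
    (hb : ∀ i ∈ E, ∃ p, (p ∈ D ∨ (p ∈ W ∧ rank p < rank i)) ∧ adj p i ∧ w p i = a i + δ i) :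
    TS adj w (D ∪ W) (s + ∑ i ∈ W, a i + ∑ i ∈ E, δ i) := by
  have h := TS.ext rank D s hD (fun i => if i ∈ E then a i + δ i else a i) W.card W rfl hWD (by
    intro i hi
    by_cases hiE : i ∈ E
    · simpa [hiE] using hb i hiE
    · simpa [hiE] using ha i hi)
  have h2 : ∑ i ∈ W, (if i ∈ E then a i + δ i else a i) = ∑ i ∈ W, a i + ∑ i ∈ E, δ i := by
    have : ∀ i, (if i ∈ E then a i + δ i else a i) = a i + (if i ∈ E then δ i else 0) := by
      intro i; split_ifs <;> simp
    simp_rw [this]
    rw [Finset.sum_add_distrib, Finset.sum_ite_mem, Finset.inter_eq_right.2 hE]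
  rw [h2, ← add_assoc] at h
  exact h

/-- Star at `y`. -/
lemma TS.star {U : Finset V} {y : V} (hy : y ∉ U) (h : ∀ z ∈ U, adj y z) :
    TS adj w (insert y U) (∑ z ∈ U, w y z) := by
  have := TS.ext (fun _ => 0) {y} 0 (TS.single y : TS adj w {y} 0) (fun z => w y z) U.card U rfl
    (by intro i hi hiy; rw [Finset.mem_singleton] at hiy; exact hy (hiy ▸ hi))
    (by intro i hi; exact ⟨y, Or.inl (Finset.mem_singleton_self y), h i hi, rfl⟩)
  rw [zero_add] at this
  exact this

/-- Adding a virtual edge `u v` whose endpoints have a common neighbour `x` with equal colours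
does not create new weights on vertex sets containing `x`. -/
lemma TS.fill (hs : ∀ a b, adj a b → adj b a) (hw : ∀ a b, w a b = w b a) {u v x : V}
    (hux : adj x u) (hvx : adj x v) (hc : w x u = w x v) (hnadj : ¬ adj u v) {A : Finset V} {s : Γ}
    (h : TS (fun a b => adj a b ∨ (a = u ∧ b = v) ∨ (a = v ∧ b = u))
      (fun a b => if (a = u ∧ b = v) ∨ (a = v ∧ b = u) then w x u else w a b) A s) :
    TS adj w A s ∨ (x ∉ A ∧ ∃ A1 A2 s1 s2, Disjoint A1 A2 ∧ A = A1 ∪ A2 ∧ u ∈ A1 ∧ v ∈ A2 ∧
      TS adj w A1 s1 ∧ TS adj w A2 s2 ∧ s = s1 + s2 + w x u) := by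
  have hnadj' : ¬ adj v u := fun h => hnadj (hs _ _ h)
  -- joining a pending set with a good one
  have pend : ∀ (A B : Finset V) (s t : Γ) (a b : V), (x ∉ A ∧ ∃ A1 A2 s1 s2, Disjoint A1 A2 ∧
      A = A1 ∪ A2 ∧ u ∈ A1 ∧ v ∈ A2 ∧ TS adj w A1 s1 ∧ TS adj w A2 s2 ∧ s = s1 + s2 + w x u) →
      TS adj w B t → Disjoint A B → a ∈ A → b ∈ B → adj a b →
      (TS adj w (A ∪ B) (s + t + w a b) ∨ (x ∉ A ∪ B ∧ ∃ A1 A2 s1 s2, Disjoint A1 A2 ∧
      A ∪ B = A1 ∪ A2 ∧ u ∈ A1 ∧ v ∈ A2 ∧
      TS adj w A1 s1 ∧ TS adj w A2 s2 ∧ s + t + w a b = s1 + s2 + w x u)) := by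
    rintro A B s t a b ⟨hxA, A1, A2, s1, s2, hd12, rfl, hu, hv, h1, h2, rfl⟩ hB hdAB ha hb hadj
    rw [Finset.disjoint_union_left] at hdAB
    rcases Finset.mem_union.1 ha with ha | ha
    · -- attach B to A1
      have hj := TS.join h1 hB hdAB.1 ha hb hadj
      by_cases hxB : x ∈ B
      · left
        have hj2 := TS.join hj h2 (Finset.disjoint_union_left.2 ⟨hd12, hdAB.2.symm⟩)
          (Finset.mem_union_right _ hxB) hv hvx
        have e1 : A1 ∪ B ∪ A2 = A1 ∪ A2 ∪ B := by
          rw [Finset.union_right_comm]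
        have e2 : s1 + t + w a b + s2 + w x v = s1 + s2 + w x u + t + w a b := by
          rw [hc]; abel
        rw [e1, e2] at hj2
        exact hj2
      · right
        refine ⟨by rw [Finset.mem_union]; tauto, A1 ∪ B, A2, _, _,
          Finset.disjoint_union_left.2 ⟨hd12, hdAB.2.symm⟩, ?_, Finset.mem_union_left _ hu, hv, hj, h2, ?_⟩
        · rw [Finset.union_right_comm]
        · abel
    · -- attach B to A2
      have hj := TS.join h2 hB hdAB.2 ha hb hadj
      by_cases hxB : x ∈ B
      · left
        have hj2 := TS.join hj h1 (Finset.disjoint_union_left.2 ⟨hd12.symm, hdAB.1.symm⟩)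
          (Finset.mem_union_right _ hxB) hu hux
        have e1 : A2 ∪ B ∪ A1 = A1 ∪ A2 ∪ B := by
          rw [Finset.union_comm, ← Finset.union_assoc]
        have e2 : s2 + t + w a b + s1 + w x u = s1 + s2 + w x u + t + w a b := by
          abel
        rw [e1, e2] at hj2
        exact hj2
      · right
        refine ⟨by rw [Finset.mem_union]; tauto, A1, A2 ∪ B, _, _,
          Finset.disjoint_union_right.2 ⟨hd12, hdAB.1⟩, ?_, hu, Finset.mem_union_left _ hv, h1, hj, ?_⟩
        · rw [Finset.union_assoc]
        · abel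
  induction h with
  | single v => exact Or.inl (TS.single v)
  | @join A B s t a b hA hB hd ha hb hab ih1 ih2 =>
    rcases ih1 with g1 | p1
    · rcases ih2 with g2 | p2
      · -- both good
        rcases hab with hab | ⟨rfl, rfl⟩ | ⟨rfl, rfl⟩
        · left
          have hne : ¬ ((a = u ∧ b = v) ∨ (a = v ∧ b = u)) := by
            rintro (⟨rfl, rfl⟩ | ⟨rfl, rfl⟩)
            · exact hnadj hab
            · exact hnadj' hab
          rw [if_neg hne]
          exact TS.join g1 g2 hd ha hb hab
        · rw [if_pos (Or.inl ⟨rfl, rfl⟩)]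
          by_cases hxA : x ∈ A
          · left
            rw [hc]
            exact TS.join g1 g2 hd hxA hb hvx
          · by_cases hxB : x ∈ B
            · left
              rw [hw x a]
              exact TS.join g1 g2 hd ha hxB (hs _ _ hux)
            · right
              exact ⟨by rw [Finset.mem_union]; tauto, A, B, s, t, hd, rfl, ha, hb, g1, g2, rfl⟩
        · rw [if_pos (Or.inr ⟨rfl, rfl⟩)]
          by_cases hxA : x ∈ A
          · left
            exact TS.join g1 g2 hd hxA hb hux
          · by_cases hxB : x ∈ B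
            · left
              rw [hc, hw x a]
              exact TS.join g1 g2 hd ha hxB (hs _ _ hvx)
            · right
              exact ⟨by rw [Finset.mem_union]; tauto, B, A, t, s, hd.symm, Finset.union_comm _ _, hb, ha,
                g2, g1, by abel⟩
      · -- A good, B pending
        have hu : u ∈ B := by
          obtain ⟨_, A1, A2, s1, s2, _, rfl, hu, _⟩ := p2
          exact Finset.mem_union_left _ hu
        have hv : v ∈ B := by
          obtain ⟨_, A1, A2, s1, s2, _, rfl, _, hv, _⟩ := p2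
          exact Finset.mem_union_right _ hv
        have hau : a ≠ u := fun h => (Finset.disjoint_left.1 hd ha) (h ▸ hu)
        have hav : a ≠ v := fun h => (Finset.disjoint_left.1 hd ha) (h ▸ hv)
        have hab' : adj a b := by
          rcases hab with h | h | h
          · exact h
          · exact absurd h.1 hau
          · exact absurd h.1 hav
        rw [if_neg (by tauto)]
        have := pend B A t s b a p2 g1 hd.symm hb ha (hs _ _ hab')
        rw [Finset.union_comm B A, hw b a, add_comm t s] at this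
        exact this
    · -- A pending
      have hu : u ∈ A := by
        obtain ⟨_, A1, A2, s1, s2, _, rfl, hu, _⟩ := p1
        exact Finset.mem_union_left _ hu
      have hv : v ∈ A := by
        obtain ⟨_, A1, A2, s1, s2, _, rfl, _, hv, _⟩ := p1
        exact Finset.mem_union_right _ hv
      rcases ih2 with g2 | p2
      · have hbu : b ≠ u := fun h => (Finset.disjoint_right.1 hd hb) (h ▸ hu)
        have hbv : b ≠ v := fun h => (Finset.disjoint_right.1 hd hb) (h ▸ hv)
        have hab' : adj a b := by
          rcases hab with h | h | h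
          · exact h
          · exact absurd h.2 hbv
          · exact absurd h.2 hbu
        rw [if_neg (by tauto)]
        exact pend A B s t a b p1 g2 hd ha hb hab'
      · exfalso
        obtain ⟨_, A1, A2, s1, s2, _, rfl, hu', _⟩ := p2
        exact Finset.disjoint_left.1 hd hu (Finset.mem_union_left _ hu')

end Pool.Agent.Helper864.ZST
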